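import Pool.Agent.W221.ABC.Main7

set_option autoImplicit false

/-!
# Pairs with `rad (a b (a + b)) ≤ N` whose height is a larger power of `N`
-/

namespace Pool.Agent.TH498.AR

open Finset Pool.Agent.H785R2.ABC Pool.Agent.W221.ABC7

/-- the exponent by radical -/
lemma mul_Fx_le {h η : ℝ} (hη : 0 < η) (hη2 : η ≤ 2 / 21) (hh : 1 / 3 + η ≤ h) :
    h * Fx (1 / h) ≤ 2 / 3 - η := by
  have h0 : 0 < h := by linarith
  have hl : h * (1 / h) = 1 := by field_simp
  obtain ⟨l, hl'⟩ : ∃ l : ℝ, l = 1 / h := ⟨_, rfl⟩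
  rw [← hl'] at hl ⊢
  have hl0 : 0 < l := by rw [hl']; positivity
  unfold Fx
  split_ifs with h1 h2 h3 h4 h5
  · have : h * (4 * l / 7) = 4 / 7 * (h * l) := by ring
    rw [this, hl]
    linarith
  · have e : h * ((13 * l + 2) / 28) = 13 / 28 * (h * l) + h / 14 := by ring
    rw [e, hl]
    have : h ≤ 3 / 2 := by nlinarith
    linarith
  · have e : h * (5 * (10 * l - 1) / 84) = 50 / 84 * (h * l) - 5 * h / 84 := by ring
    rw [e, hl]
    have : 2 / 3 ≤ h := by nlinarith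
    linarith
  · have e : h * ((9 * l - 1) / 15) = 9 / 15 * (h * l) - h / 15 := by ring
    rw [e, hl]
    have : 9 / 16 ≤ h := by nlinarith
    linarith
  · have : h ≤ 9 / 16 := by
      push Not at h4
      nlinarith
    linarith
  · have e : h * (l - 1) = h * l - h := by ring
    rw [e, hl]
    linarith

/-- **Large heights.** -/
theorem large_heights (K η : ℝ) (hη : 0 < η) (hη2 : η ≤ 2 / 21) : ∃ C : ℝ, 0 < C ∧
    ∀ N : ℝ, 1 ≤ N → ∀ E : Finset (ℕ × ℕ), (∀ p ∈ E, 0 < p.1 ∧ 0 < p.2 ∧ Nat.Coprime p.1 p.2 ∧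
      (rad (p.1 * p.2 * (p.1 + p.2)) : ℝ) ≤ N ∧ N ^ (1 / 3 + η) ≤ ((p.1 + p.2 : ℕ) : ℝ) ∧
      ((p.1 + p.2 : ℕ) : ℝ) ≤ N ^ K) → (E.card : ℝ) ≤ C * N ^ (2 / 3 - η / 2) := by
  classical
  obtain ⟨τ, hτ⟩ : ∃ τ : ℝ, τ = η / 8 := ⟨_, rfl⟩
  have hτ0 : 0 < τ := by rw [hτ]; positivity
  obtain ⟨δ, hδ⟩ : ∃ δ : ℝ, δ = η / (4 * (|K| + 3)) := ⟨_, rfl⟩
  have hK0 : 0 ≤ |K| := abs_nonneg K
  have hδ0 : 0 < δ := by rw [hδ]; positivity
  obtain ⟨n, hn⟩ : ∃ n : ℕ, n = ⌈(|K| + 1) / τ⌉₊ := ⟨_, rfl⟩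
  obtain ⟨hh, hhh⟩ : ∃ hh : ℕ → ℝ, hh = fun k : ℕ => 1 / 3 + η + (k : ℝ) * τ := ⟨_, rfl⟩
  have hpos : ∀ k, 1 / 3 + η ≤ hh k := by
    intro k
    rw [hhh]
    have : 0 ≤ (k : ℝ) * τ := by positivity
    simp only
    linarith
  choose Cf hCf using fun k : ℕ => count_FxB 1 (1 / hh k) δ
    (by have := hpos k; exact div_pos one_pos (by linarith)) hδ0
  refine ⟨∑ k ∈ range (n + 1), |Cf k| + 1, by positivity, ?_⟩
  intro N hN E hE
  have hN0 : 0 < N := by linarith
  rcases eq_or_lt_of_le hN with h1 | h1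
  · -- N = 1
    have : E = ∅ := by
      rw [Finset.eq_empty_iff_forall_notMem]
      intro p hp
      obtain ⟨a1, a2, _, _, _, a6⟩ := hE p hp
      rw [← h1, Real.one_rpow] at a6
      have : p.1 + p.2 ≤ 1 := by exact_mod_cast a6
      omega
    rw [this, card_empty]
    have : 0 ≤ N ^ (2 / 3 - η / 2) := by positivity
    have : 0 ≤ ∑ k ∈ range (n + 1), |Cf k| + 1 := by positivity
    push_cast
    positivity
  have hlog : 0 < Real.log N := Real.log_pos h1
  -- the index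
  have hidx : ∀ p ∈ E, ∃ k ∈ range (n + 1), N ^ hh k ≤ ((p.1 + p.2 : ℕ) : ℝ) ∧
      ((p.1 + p.2 : ℕ) : ℝ) ≤ N ^ (hh k + τ) := by
    intro p hp
    obtain ⟨a1, a2, _, _, a5, a6⟩ := hE p hp
    have hc0 : (0 : ℝ) < ((p.1 + p.2 : ℕ) : ℝ) := by exact_mod_cast (by omega : 0 < p.1 + p.2)
    obtain ⟨h, hhd⟩ : ∃ h : ℝ, h = Real.log ((p.1 + p.2 : ℕ) : ℝ) / Real.log N := ⟨_, rfl⟩
    have hc : ((p.1 + p.2 : ℕ) : ℝ) = N ^ h := by
      rw [Real.rpow_def_of_pos hN0, hhd, mul_div_cancel₀ _ hlog.ne', Real.exp_log hc0]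
    have b1 : 1 / 3 + η ≤ h := by
      rw [hc] at a5
      exact (Real.rpow_le_rpow_left_iff h1).1 a5
    have b2 : h ≤ K := by
      rw [hc] at a6
      exact (Real.rpow_le_rpow_left_iff h1).1 a6
    have b3 : 0 ≤ (h - (1 / 3 + η)) / τ := div_nonneg (by linarith) hτ0.le
    refine ⟨⌊(h - (1 / 3 + η)) / τ⌋₊, ?_, ?_, ?_⟩
    · rw [mem_range, Nat.lt_succ_iff]
      rw [hn]
      refine (Nat.floor_le_floor (?_ : _ ≤ (|K| + 1) / τ)).trans (Nat.floor_le_ceil _)
      refine div_le_div_of_nonneg_right ?_ hτ0.le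
      have := le_abs_self K
      linarith
    · rw [hc]
      refine Real.rpow_le_rpow_of_exponent_le hN ?_
      rw [hhh]
      simp only
      have := Nat.floor_le b3
      have : (⌊(h - (1 / 3 + η)) / τ⌋₊ : ℝ) * τ ≤ h - (1 / 3 + η) := by
        rwa [le_div_iff₀ hτ0] at this
      linarith
    · rw [hc]
      refine Real.rpow_le_rpow_of_exponent_le hN ?_
      rw [hhh]
      simp only
      have := (Nat.lt_floor_add_one ((h - (1 / 3 + η)) / τ)).le
      rw [div_le_iff₀ hτ0] at this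
      linarith
  choose! kk hkk using hidx
  have hcard : E.card = ∑ k ∈ range (n + 1), (E.filter (fun p => kk p = k)).card :=
    card_eq_sum_card_fiberwise fun p hp => (hkk p hp).1
  have hpart : ∀ k ∈ range (n + 1), ((E.filter (fun p => kk p = k)).card : ℝ) ≤
      |Cf k| * N ^ (2 / 3 - η / 2) := by
    intro k hk
    rcases (E.filter (fun p => kk p = k)).eq_empty_or_nonempty with he | ⟨p0, hp0⟩
    · rw [he, card_empty]
      push_cast
      positivity
    have hpk := hpos k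
    obtain ⟨h, hhd⟩ : ∃ h : ℝ, h = hh k := ⟨_, rfl⟩
    rw [← hhd] at hpk
    have hh0 : 0 < h := by linarith
    -- h ≤ K
    have hhK : h ≤ |K| := by
      obtain ⟨hpE, hpk0⟩ := mem_filter.1 hp0
      have a1 := (hkk p0 hpE).2.1
      rw [hpk0, ← hhd] at a1
      have a2 := (hE p0 hpE).2.2.2.2.2
      exact ((Real.rpow_le_rpow_left_iff h1).1 (a1.trans a2)).trans (le_abs_self K)
    obtain ⟨X, hX⟩ : ∃ X : ℕ, X = ⌊N ^ (h + τ)⌋₊ := ⟨_, rfl⟩
    have hX1 : 1 ≤ X := by
      rw [hX]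
      refine Nat.le_floor ?_
      rw [Nat.cast_one]
      exact Real.one_le_rpow hN (by linarith)
    have hXle : (X : ℝ) ≤ N ^ (h + τ) := by rw [hX]; exact Nat.floor_le (by positivity)
    have hc := hCf k X hX1
    rw [← hhd] at hc
    have hsub : ((E.filter (fun p => kk p = k)).card : ℝ) ≤ ((ExcB 1 (1 / h) X).ncard : ℝ) := by
      have : (E.filter (fun p => kk p = k)).card ≤ (ExcB 1 (1 / h) X).ncard := by
        rw [← Set.ncard_coe_finset]
        refine Set.ncard_le_ncard_of_injOn (fun p => (p.1, p.2, p.1 + p.2)) ?_ ?_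
          (excB_finite _ _ _)
        · intro p hp
          rw [mem_coe, mem_filter] at hp
          obtain ⟨hpE, hpk'⟩ := hp
          obtain ⟨a1, a2, a3, a4, _, _⟩ := hE p hpE
          obtain ⟨_, b1, b2⟩ := hkk p hpE
          rw [hpk', ← hhd] at b1 b2
          refine ⟨a1, a2, a3, rfl, ?_, ?_⟩
          · simp only
            rw [hX]
            exact Nat.le_floor b2
          · simp only
            rw [one_mul]
            refine a4.trans ?_
            have e : N = (N ^ h) ^ (1 / h) := by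
              rw [← Real.rpow_mul hN0.le, mul_one_div_cancel hh0.ne', Real.rpow_one]
            calc N = (N ^ h) ^ (1 / h) := e
              _ ≤ _ := Real.rpow_le_rpow (by positivity) b1 (by positivity)
        · intro p _ q _ hpq
          simp only [Prod.mk.injEq] at hpq
          exact Prod.ext hpq.1 hpq.2.1
      exact_mod_cast this
    have hF0 : 0 ≤ Fx (1 / h) := (Fx_pos _ (by positivity)).le
    have hmul := mul_Fx_le hη hη2 hpk
    have hF2 : Fx (1 / h) ≤ 2 := by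
      have : h * Fx (1 / h) ≤ 2 / 3 := by linarith
      nlinarith
    have hexp : (h + τ) * (Fx (1 / h) + δ) ≤ 2 / 3 - η / 2 := by
      have e1 : (h + τ) * (Fx (1 / h) + δ) = h * Fx (1 / h) + τ * Fx (1 / h) + δ * (h + τ) := by
        ring
      have e2 : τ * Fx (1 / h) ≤ η / 4 := by
        rw [hτ]
        nlinarith
      have e3 : δ * (h + τ) ≤ η / 4 := by
        have : h + τ ≤ |K| + 3 := by
          rw [hτ]
          linarith
        calc δ * (h + τ) ≤ δ * (|K| + 3) := mul_le_mul_of_nonneg_left this hδ0.le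
          _ = η / 4 := by
            rw [hδ]
            field_simp
      linarith
    calc ((E.filter (fun p => kk p = k)).card : ℝ) ≤ Cf k * (X : ℝ) ^ (Fx (1 / h) + δ) :=
          hsub.trans hc
      _ ≤ |Cf k| * (X : ℝ) ^ (Fx (1 / h) + δ) :=
          mul_le_mul_of_nonneg_right (le_abs_self _) (by positivity)
      _ ≤ |Cf k| * (N ^ (h + τ)) ^ (Fx (1 / h) + δ) := by
          refine mul_le_mul_of_nonneg_left ?_ (abs_nonneg _)
          exact Real.rpow_le_rpow (by positivity) hXle (by linarith)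
      _ = |Cf k| * N ^ ((h + τ) * (Fx (1 / h) + δ)) := by rw [← Real.rpow_mul hN0.le]
      _ ≤ |Cf k| * N ^ (2 / 3 - η / 2) := by
          refine mul_le_mul_of_nonneg_left ?_ (abs_nonneg _)
          exact Real.rpow_le_rpow_of_exponent_le hN hexp
  rw [hcard]
  push_cast
  refine (sum_le_sum hpart).trans ?_
  rw [← sum_mul]
  refine mul_le_mul_of_nonneg_right (by linarith) (by positivity)

end Pool.Agent.TH498.AR
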