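import Pool.Agent.TH498.AR.Neg
import Pool.Agent.TH498.AR.Large

set_option autoImplicit false

/-!
# The abc triples with a small radical and a large repeated part
-/

namespace Pool.Agent.TH498.AR

open Finset

lemma radP_empty (n : ℕ) : radP ∅ n = Pool.Agent.H785R2.ABC.rad n := by
  unfold radP Pool.Agent.H785R2.ABC.rad
  simp

/-- triples, `c ≤ X ^ K`, with repeated part at least `W` -/
theorem tail (K : ℝ) : ∃ C : ℝ, 0 < C ∧ ∀ X W : ℝ, 1 ≤ X → 1 ≤ W → ∀ E : Finset (ℕ × ℕ),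
    (∀ p ∈ E, 0 < p.1 ∧ p.1 ≤ p.2 ∧ Nat.Coprime p.1 p.2 ∧
      (radP ∅ (p.1 * p.2 * (p.1 + p.2)) : ℝ) ≤ X ∧ ((p.1 + p.2 : ℕ) : ℝ) ≤ X ^ K ∧
      W ≤ (psi3 ∅ p : ℝ)) →
    (E.card : ℝ) ≤ C * (W ^ (-(1 / 10) : ℝ) * X ^ ((2 : ℝ) / 3) + X ^ (2 / 3 - 1 / 480 : ℝ)) := by
  classical
  obtain ⟨C1, hC1, hl⟩ := large_heights K (1 / 240) (by norm_num) (by norm_num)
  obtain ⟨N1, N2, hN1, hN2, hn⟩ := neg_count
  obtain ⟨M1, M2, hM1, hM2, hm⟩ := main_sum (19 / 20) 20 (3 / 4) (1 / 10) (by norm_num)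
    (by norm_num) (by norm_num) (by norm_num) (by norm_num) (by norm_num) (by norm_num)
  refine ⟨C1 + N1 + M1, by linarith, ?_⟩
  intro X W hX hW E hE
  have hX0 : 0 < X := by linarith
  set E1 := E.filter (fun p => X ^ (1 / 3 + 1 / 240 : ℝ) ≤ ((p.1 + p.2 : ℕ) : ℝ)) with hE1
  set E2 := (E.filter (fun p => ¬ X ^ (1 / 3 + 1 / 240 : ℝ) ≤ ((p.1 + p.2 : ℕ) : ℝ))).filter
    (fun p => psi3 ∅ p ≤ ⌊X ^ (1 / 10 : ℝ)⌋₊ ∧ ⌊X ^ (1 / 10 : ℝ)⌋₊ ^ 2 ≤ p.1) with hE2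
  set E3 := (E.filter (fun p => ¬ X ^ (1 / 3 + 1 / 240 : ℝ) ≤ ((p.1 + p.2 : ℕ) : ℝ))).filter
    (fun p => ¬ (psi3 ∅ p ≤ ⌊X ^ (1 / 10 : ℝ)⌋₊ ∧ ⌊X ^ (1 / 10 : ℝ)⌋₊ ^ 2 ≤ p.1)) with hE3
  have h1 : (E1.card : ℝ) ≤ C1 * X ^ (2 / 3 - 1 / 480 : ℝ) := by
    have := hl X hX E1 (by
      intro p hp
      obtain ⟨hpE, hp1⟩ := mem_filter.1 hp
      obtain ⟨a1, a2, a3, a4, a5, a6⟩ := hE p hpE
      refine ⟨a1, by omega, a3, ?_, hp1, a5⟩
      rw [← radP_empty]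
      exact a4)
    refine this.trans (le_of_eq ?_)
    norm_num
  have h3 : (E3.card : ℝ) ≤ N1 * X ^ (2 / 3 - 1 / 480 : ℝ) := by
    have := hn ∅ X hX E3 (by
      intro p hp
      obtain ⟨hp1, hp2⟩ := mem_filter.1 hp
      obtain ⟨hpE, hp3⟩ := mem_filter.1 hp1
      obtain ⟨a1, a2, a3, a4, a5, a6⟩ := hE p hpE
      push Not at hp3
      exact ⟨a1, by omega, hp3.le, hp2⟩)
    rw [card_empty, pow_zero, mul_one] at this
    refine this.trans (mul_le_mul_of_nonneg_left ?_ (by linarith))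
    exact Real.rpow_le_rpow_of_exponent_le hX (by norm_num)
  have h2 : (E2.card : ℝ) ≤ M1 * (W ^ (-(1 / 10) : ℝ) * X ^ ((2 : ℝ) / 3)) := by
    have := hm ∅ X 1 W hX le_rfl hW ⌊X ^ (1 / 10 : ℝ)⌋₊ (fun _ => 1) (fun _ => zero_le_one) E2 (by
      intro p hp
      obtain ⟨hp1, hp2, hp3⟩ := mem_filter.1 hp
      obtain ⟨hpE, -⟩ := mem_filter.1 hp1
      obtain ⟨a1, a2, a3, a4, a5, a6⟩ := hE p hpE
      exact ⟨a1, a2, a3, a4, hp2, hp3.trans a2, a6⟩) (by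
      intro i j
      simp only [Real.one_rpow, sum_const, nsmul_eq_mul, mul_one, one_mul]
      have : (E2.filter (fun p => Nat.clog 2 p.1 = i ∧ Nat.clog 2 p.2 = j)).card ≤
          2 ^ i * 2 ^ j := by
        have hsub : E2.filter (fun p => Nat.clog 2 p.1 = i ∧ Nat.clog 2 p.2 = j) ⊆
            Icc 1 (2 ^ i) ×ˢ Icc 1 (2 ^ j) := by
          intro p hp
          obtain ⟨hp1, hpi, hpj⟩ := mem_filter.1 hp
          obtain ⟨hp2, -⟩ := mem_filter.1 hp1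
          obtain ⟨hpE, -⟩ := mem_filter.1 hp2
          obtain ⟨a1, a2, -⟩ := hE p hpE
          refine mem_product.2 ⟨mem_Icc.2 ⟨a1, ?_⟩, mem_Icc.2 ⟨by omega, ?_⟩⟩
          · rw [← hpi]; exact Nat.le_pow_clog (by norm_num) _
          · rw [← hpj]; exact Nat.le_pow_clog (by norm_num) _
        refine (card_le_card hsub).trans ?_
        rw [card_product, Nat.card_Icc, Nat.card_Icc]
        simp
      rw [pow_add]
      exact_mod_cast this)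
    rw [card_empty, pow_zero, mul_one, mul_one, sum_const, nsmul_eq_mul, mul_one] at this
    refine this.trans (le_of_eq ?_)
    ring
  have hsplit1 := card_filter_add_card_filter_not (s := E)
    (fun p => X ^ (1 / 3 + 1 / 240 : ℝ) ≤ ((p.1 + p.2 : ℕ) : ℝ))
  have hsplit2 := card_filter_add_card_filter_not
    (s := E.filter (fun p => ¬ X ^ (1 / 3 + 1 / 240 : ℝ) ≤ ((p.1 + p.2 : ℕ) : ℝ)))
    (fun p => psi3 ∅ p ≤ ⌊X ^ (1 / 10 : ℝ)⌋₊ ∧ ⌊X ^ (1 / 10 : ℝ)⌋₊ ^ 2 ≤ p.1)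
  have hcard : (E.card : ℝ) = E1.card + (E2.card + E3.card) := by
    have : E.card = E1.card + (E2.card + E3.card) := by
      rw [hE1, hE2, hE3, hsplit2, hsplit1]
    exact_mod_cast this
  rw [hcard]
  have p1 : 0 ≤ W ^ (-(1 / 10) : ℝ) * X ^ ((2 : ℝ) / 3) := by positivity
  have p2 : 0 ≤ X ^ (2 / 3 - 1 / 480 : ℝ) := by positivity
  nlinarith [mul_nonneg hC1.le p1, mul_nonneg (by linarith : (0 : ℝ) ≤ N1) p1,
    mul_nonneg (by linarith : (0 : ℝ) ≤ M1) p2]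

end Pool.Agent.TH498.AR
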