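import Pool.Agent.TH498.AR.Loc2
import Pool.Agent.TH498.AR.Tail
import Pool.Agent.TH867.SR.LB

set_option autoImplicit false

/-!
# The asymptotic number of abc triples by radical
-/

namespace Pool.Agent.TH498.AR

open Finset Filter Topology

/-- the radical -/
def rd (n : ℕ) : ℕ := ∏ p ∈ n.primeFactors, p

lemma rd_eq (n : ℕ) : rd n = radP ∅ n := by
  unfold rd radP
  simp

lemma rd_eq' (n : ℕ) : rd n = Pool.Agent.H785R2.ABC.rad n := rfl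

/-- triples with radical at most `X` and `c ≤ Z` -/
def TT (X Z : ℝ) : Set (ℕ × ℕ) :=
  {p | 0 < p.1 ∧ p.1 ≤ p.2 ∧ Nat.Coprime p.1 p.2 ∧ (rd (p.1 * p.2 * (p.1 + p.2)) : ℝ) ≤ X ∧
    ((p.1 + p.2 : ℕ) : ℝ) ≤ Z}

lemma TT_finite (X Z : ℝ) : (TT X Z).Finite := by
  refine Set.Finite.subset (Finset.finite_toSet (range (⌊Z⌋₊ + 1) ×ˢ range (⌊Z⌋₊ + 1))) ?_
  intro p hp
  obtain ⟨h1, h2, h3, h4, h5⟩ := hp
  have : p.1 + p.2 ≤ ⌊Z⌋₊ := Nat.le_floor h5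
  rw [mem_coe, mem_product, mem_range, mem_range]
  omega

/-- the triples with repeated part at most `W` -/
def SW (W : ℕ) (X : ℝ) : Set (ℕ × ℕ) :=
  {p | 0 < p.1 ∧ p.1 ≤ p.2 ∧ Nat.Coprime p.1 p.2 ∧ (rd (p.1 * p.2 * (p.1 + p.2)) : ℝ) ≤ X ∧
    psi3 ∅ p ≤ W}

lemma psi3_pos {p : ℕ × ℕ} (h1 : 0 < p.1) (h2 : 0 < p.2) : 0 < psi3 ∅ p := by
  unfold psi3
  exact Nat.mul_pos (Nat.mul_pos (psiP_pos h1) (psiP_pos h2)) (psiP_pos (by omega))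

lemma rd_le_iff {p : ℕ × ℕ} (h1 : 0 < p.1) (h2 : 0 < p.2) (hc : Nat.Coprime p.1 p.2) {X : ℝ}
    (hX : 0 < X) : (rd (p.1 * p.2 * (p.1 + p.2)) : ℝ) ≤ X ↔
      (p.1 : ℝ) * p.2 * (p.1 + p.2) ≤ (((psi3 ∅ p : ℝ) * X) ^ ((1 : ℝ) / 3)) ^ 3 := by
  have hpsi : (0 : ℝ) < psi3 ∅ p := by exact_mod_cast psi3_pos h1 h2
  have h := coprime3 (P := ∅) hc
  rw [← rd_eq] at h
  have h' : (psi3 ∅ p : ℝ) * rd (p.1 * p.2 * (p.1 + p.2)) = (p.1 : ℝ) * p.2 * (p.1 + p.2) := by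
    exact_mod_cast h
  have e : (((psi3 ∅ p : ℝ) * X) ^ ((1 : ℝ) / 3)) ^ 3 = psi3 ∅ p * X := by
    rw [← Real.rpow_natCast, ← Real.rpow_mul (by positivity)]
    norm_num
  rw [e, ← h']
  exact (mul_le_mul_iff_right₀ hpsi).symm

/-- the triples with bounded repeated part -/
theorem SW_limit (W : ℕ) : ∃ κ : ℝ,
    Tendsto (fun X : ℝ => ((SW W X).ncard : ℝ) / X ^ ((2 : ℝ) / 3)) atTop (𝓝 κ) := by
  classical
  choose! κ hκ using fun w : ℕ => fun hw : 0 < w => Nw_limit hw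
  refine ⟨∑ w ∈ Icc 1 W, κ w * (w : ℝ) ^ ((2 : ℝ) / 3), ?_⟩
  have hlim : Tendsto (fun X : ℝ => ∑ w ∈ Icc 1 W,
      ((Nw w (((w : ℝ) * X) ^ ((1 : ℝ) / 3))).ncard : ℝ) /
        (((w : ℝ) * X) ^ ((1 : ℝ) / 3)) ^ 2 * (w : ℝ) ^ ((2 : ℝ) / 3)) atTop
      (𝓝 (∑ w ∈ Icc 1 W, κ w * (w : ℝ) ^ ((2 : ℝ) / 3))) := by
    refine tendsto_finsetSum _ fun w hw => ?_
    have hw0 : 0 < w := (mem_Icc.1 hw).1
    refine Tendsto.mul_const _ ((hκ w hw0).comp ?_)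
    refine (tendsto_rpow_atTop (by norm_num)).comp ?_
    exact tendsto_id.const_mul_atTop (by exact_mod_cast hw0)
  refine hlim.congr' ?_
  filter_upwards [eventually_gt_atTop 0] with X hX
  -- the union
  have hNfin : ∀ w : ℕ, (Nw w (((w : ℝ) * X) ^ ((1 : ℝ) / 3))).Finite :=
    fun w => (VV_finite _).subset fun p hp => ⟨hp.1, hp.2.1, hp.2.2.2.2⟩
  have hset : SW W X = (((Icc 1 W).biUnion (fun w => (hNfin w).toFinset) : Finset (ℕ × ℕ)) :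
      Set (ℕ × ℕ)) := by
    ext p
    rw [mem_coe, mem_biUnion]
    constructor
    · rintro ⟨a1, a2, a3, a4, a5⟩
      refine ⟨psi3 ∅ p, mem_Icc.2 ⟨psi3_pos a1 (by omega), a5⟩, ?_⟩
      rw [Set.Finite.mem_toFinset]
      exact ⟨a1, a2, a3, rfl, (rd_le_iff a1 (by omega) a3 hX).1 a4⟩
    · rintro ⟨w, hw, hp⟩
      rw [Set.Finite.mem_toFinset] at hp
      obtain ⟨a1, a2, a3, a4, a5⟩ := hp
      refine ⟨a1, a2, a3, ?_, ?_⟩
      · rw [rd_le_iff a1 (by omega) a3 hX, a4]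
        exact a5
      · rw [a4]
        exact (mem_Icc.1 hw).2
  have hcard : ((SW W X).ncard : ℝ) =
      ∑ w ∈ Icc 1 W, ((Nw w (((w : ℝ) * X) ^ ((1 : ℝ) / 3))).ncard : ℝ) := by
    rw [hset, Set.ncard_coe_finset, card_biUnion]
    · push_cast
      refine sum_congr rfl fun w _ => ?_
      exact_mod_cast (Set.ncard_eq_toFinset_card _ (hNfin w)).symm
    · intro w _ w' _ hne
      rw [Function.onFun, disjoint_left]
      intro p hp hp'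
      rw [Set.Finite.mem_toFinset] at hp hp'
      exact hne (hp.2.2.2.1.symm.trans hp'.2.2.2.1)
  rw [hcard, sum_div]
  refine sum_congr rfl fun w hw => ?_
  have hw0 : (0 : ℝ) < w := by exact_mod_cast (mem_Icc.1 hw).1
  have e : (((w : ℝ) * X) ^ ((1 : ℝ) / 3)) ^ 2 = (w : ℝ) ^ ((2 : ℝ) / 3) * X ^ ((2 : ℝ) / 3) := by
    rw [← Real.rpow_natCast, ← Real.rpow_mul (by positivity), Real.mul_rpow hw0.le hX.le]
    norm_num
  rw [e]
  have h1 : (w : ℝ) ^ ((2 : ℝ) / 3) ≠ 0 := by positivity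
  have h2 : X ^ ((2 : ℝ) / 3) ≠ 0 := by positivity
  field_simp

/-- the comparison of the two counts -/
lemma SW_sub {W : ℕ} {X : ℝ} (hX : 1 ≤ X) (hW : 4 * (W : ℝ) ≤ X) : SW W X ⊆ TT X X := by
  rintro p ⟨a1, a2, a3, a4, a5⟩
  refine ⟨a1, a2, a3, a4, ?_⟩
  have h := coprime3 (P := ∅) a3
  rw [← rd_eq] at h
  have h' : (psi3 ∅ p : ℝ) * rd (p.1 * p.2 * (p.1 + p.2)) = (p.1 : ℝ) * p.2 * (p.1 + p.2) := by
    exact_mod_cast h
  have b1 : (1 : ℝ) ≤ p.1 := by exact_mod_cast a1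
  have b2 : (p.1 : ℝ) ≤ p.2 := by exact_mod_cast a2
  have b3 : (psi3 ∅ p : ℝ) ≤ W := by exact_mod_cast a5
  have b4 : (p.1 : ℝ) * p.2 * (p.1 + p.2) ≤ W * X := by
    rw [← h']
    exact mul_le_mul b3 a4 (Nat.cast_nonneg _) (Nat.cast_nonneg _)
  have b5 : (p.2 : ℝ) ^ 2 ≤ W * X := by
    have : (p.2 : ℝ) ^ 2 ≤ (p.1 : ℝ) * p.2 * (p.1 + p.2) := by
      have : (p.1 : ℝ) * p.2 * (p.1 + p.2) = p.1 * (p.2 : ℝ) ^ 2 + (p.1 : ℝ) ^ 2 * p.2 := by ring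
      rw [this]
      have : 0 ≤ (p.1 : ℝ) ^ 2 * p.2 := by positivity
      nlinarith [sq_nonneg (p.2 : ℝ)]
    linarith
  have b6 : (p.2 : ℝ) ≤ X / 2 := by
    by_contra hcon
    push Not at hcon
    have : (X / 2) ^ 2 < (p.2 : ℝ) ^ 2 := pow_lt_pow_left₀ hcon (by positivity) (by norm_num)
    nlinarith
  push_cast
  linarith

theorem asy_one : ∃ κ : ℝ,
    Tendsto (fun X : ℝ => ((TT X X).ncard : ℝ) / X ^ ((2 : ℝ) / 3)) atTop (𝓝 κ) := by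
  classical
  obtain ⟨C, hC, htail⟩ := tail 1
  refine tendsto_of_approx fun ε hε => ?_
  -- choice of W
  obtain ⟨W, hW1, hWe⟩ : ∃ W : ℕ, 1 ≤ W ∧ C * (W : ℝ) ^ (-(1 / 10) : ℝ) ≤ ε / 3 := by
    have h1 : Tendsto (fun W : ℕ => C * (W : ℝ) ^ (-(1 / 10) : ℝ)) atTop (𝓝 (C * 0)) :=
      ((tendsto_rpow_neg_atTop (by norm_num : (0 : ℝ) < 1 / 10)).comp
        tendsto_natCast_atTop_atTop).const_mul C
    rw [mul_zero] at h1
    have h2 := h1.eventually (eventually_le_nhds (by positivity : (0 : ℝ) < ε / 3))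
    obtain ⟨W, hW⟩ := (h2.and (eventually_ge_atTop 1)).exists
    exact ⟨W, hW.2, hW.1⟩
  obtain ⟨κ, hκ⟩ := SW_limit W
  refine ⟨κ, ?_⟩
  have h3 : Tendsto (fun X : ℝ => C * X ^ (-(1 / 480) : ℝ)) atTop (𝓝 (C * 0)) :=
    (tendsto_rpow_neg_atTop (by norm_num : (0 : ℝ) < 1 / 480)).const_mul C
  rw [mul_zero] at h3
  have h4 := h3.eventually (eventually_le_nhds (by positivity : (0 : ℝ) < ε / 3))
  have h5 := (Metric.tendsto_nhds.1 hκ) (ε / 3) (by positivity)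
  filter_upwards [h4, h5, eventually_ge_atTop (max 1 (4 * (W : ℝ)))] with X hX4 hX5 hX
  have hX1 : 1 ≤ X := (le_max_left _ _).trans hX
  have hXW : 4 * (W : ℝ) ≤ X := (le_max_right _ _).trans hX
  have hX0 : 0 < X := by linarith
  have hXp : 0 < X ^ ((2 : ℝ) / 3) := by positivity
  have hsub := SW_sub hX1 hXW
  have hfin := TT_finite X X
  set E : Finset (ℕ × ℕ) := (hfin.subset (Set.sdiff_subset (t := SW W X))).toFinset with hE
  have hEc : (E.card : ℝ) ≤ C * ((W : ℝ) ^ (-(1 / 10) : ℝ) * X ^ ((2 : ℝ) / 3) +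
      X ^ (2 / 3 - 1 / 480 : ℝ)) := by
    refine htail X W hX1 (by exact_mod_cast hW1) E fun p hp => ?_
    rw [hE, Set.Finite.mem_toFinset] at hp
    obtain ⟨⟨a1, a2, a3, a4, a5⟩, hp2⟩ := hp
    refine ⟨a1, a2, a3, ?_, ?_, ?_⟩
    · rw [← rd_eq]
      exact a4
    · rw [Real.rpow_one]
      exact a5
    · by_contra hcon
      push Not at hcon
      exact hp2 ⟨a1, a2, a3, a4, by exact_mod_cast hcon.le⟩
  have hcount : ((TT X X).ncard : ℝ) = (SW W X).ncard + E.card := by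
    have h6 : E.card = (TT X X \ SW W X).ncard := by
      rw [hE, Set.ncard_eq_toFinset_card _ (hfin.subset (Set.sdiff_subset (t := SW W X)))]
    have h7 := Set.ncard_sdiff_add_ncard_of_subset hsub hfin
    rw [h6]
    have : (TT X X).ncard = (SW W X).ncard + (TT X X \ SW W X).ncard := by omega
    exact_mod_cast this
  rw [Real.dist_eq] at hX5
  have e1 : ((TT X X).ncard : ℝ) / X ^ ((2 : ℝ) / 3) - κ =
      (((SW W X).ncard : ℝ) / X ^ ((2 : ℝ) / 3) - κ) + (E.card : ℝ) / X ^ ((2 : ℝ) / 3) := by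
    rw [hcount]
    ring
  have e2 : (E.card : ℝ) / X ^ ((2 : ℝ) / 3) ≤ ε / 3 + ε / 3 := by
    rw [div_le_iff₀ hXp]
    have e3 : X ^ (2 / 3 - 1 / 480 : ℝ) = X ^ (-(1 / 480) : ℝ) * X ^ ((2 : ℝ) / 3) := by
      rw [← Real.rpow_add hX0]
      norm_num
    rw [e3] at hEc
    calc (E.card : ℝ) ≤ C * ((W : ℝ) ^ (-(1 / 10) : ℝ) * X ^ ((2 : ℝ) / 3) +
          X ^ (-(1 / 480) : ℝ) * X ^ ((2 : ℝ) / 3)) := hEc
      _ = (C * (W : ℝ) ^ (-(1 / 10) : ℝ) + C * X ^ (-(1 / 480) : ℝ)) * X ^ ((2 : ℝ) / 3) := by ring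
      _ ≤ (ε / 3 + ε / 3) * X ^ ((2 : ℝ) / 3) :=
          mul_le_mul_of_nonneg_right (add_le_add hWe hX4) hXp.le
  have e4 : 0 ≤ (E.card : ℝ) / X ^ ((2 : ℝ) / 3) := by positivity
  rw [e1]
  refine (abs_add_le _ _).trans ?_
  rw [abs_of_nonneg e4]
  linarith

/-- the lower bound -/
theorem TT_lower : ∃ X0 : ℝ, ∀ X : ℝ, X0 ≤ X → 1 / 64 * X ^ ((2 : ℝ) / 3) ≤ ((TT X X).ncard : ℝ) := by
  classical
  refine ⟨128, fun X hX => ?_⟩
  have hX0 : 0 < X := by linarith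
  obtain ⟨Y, hY⟩ : ∃ Y : ℝ, Y = (X / 2) ^ ((1 : ℝ) / 3) := ⟨_, rfl⟩
  have hY0 : 0 < Y := by rw [hY]; positivity
  have hY3 : Y ^ 3 = X / 2 := by
    rw [hY, ← Real.rpow_natCast, ← Real.rpow_mul (by positivity)]
    norm_num
  have hY4 : 4 ≤ Y := by
    by_contra hlt
    push Not at hlt
    have h1 : Y ^ 3 < 4 ^ 3 := pow_lt_pow_left₀ hlt hY0.le (by norm_num)
    rw [hY3] at h1
    linarith
  obtain ⟨B, hB⟩ : ∃ B : ℕ, B = ⌊Y⌋₊ := ⟨_, rfl⟩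
  have hBY : (B : ℝ) ≤ Y := by rw [hB]; exact Nat.floor_le hY0.le
  have hBY2 : Y - 1 < B := by rw [hB]; exact Nat.sub_one_lt_floor _
  have hB1 : 1 ≤ B := by rw [hB]; exact Nat.le_floor (by push_cast; linarith)
  have h1 := Pool.Agent.TH867.SR.coprime_count B hB1
  have h2 : (Pool.Agent.TH867.SR.cpp B).card ≤ (TT X X).ncard := by
    rw [← Set.ncard_coe_finset]
    refine Set.ncard_le_ncard ?_ (TT_finite X X)
    intro p hp
    rw [mem_coe, Pool.Agent.TH867.SR.cpp, mem_filter, mem_product, mem_Ioc, mem_Ioc] at hp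
    obtain ⟨⟨⟨a1, a2⟩, a3, a4⟩, a5, a6⟩ := hp
    have b1 : (p.1 : ℝ) ≤ Y := le_trans (by exact_mod_cast a2) hBY
    have b2 : (p.2 : ℝ) ≤ Y := le_trans (by exact_mod_cast a4) hBY
    have b3 : (0 : ℝ) < p.1 := by exact_mod_cast a1
    have b4 : (0 : ℝ) < p.2 := by exact_mod_cast a3
    have hn : 0 < p.1 * p.2 * (p.1 + p.2) := by positivity
    refine ⟨a1, a5, a6, ?_, ?_⟩
    · have c1 : rd (p.1 * p.2 * (p.1 + p.2)) ≤ p.1 * p.2 * (p.1 + p.2) :=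
        Nat.le_of_dvd hn (Nat.prod_primeFactors_dvd _)
      have c2 : (rd (p.1 * p.2 * (p.1 + p.2)) : ℝ) ≤ (p.1 : ℝ) * p.2 * (p.1 + p.2) := by
        exact_mod_cast c1
      refine c2.trans ?_
      calc (p.1 : ℝ) * p.2 * (p.1 + p.2) ≤ Y * Y * (Y + Y) :=
            mul_le_mul (mul_le_mul b1 b2 b4.le hY0.le) (by linarith) (by positivity) (by positivity)
        _ = 2 * Y ^ 3 := by ring
        _ = X := by rw [hY3]; ring
    · push_cast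
      have : 2 * Y ≤ X := by nlinarith [sq_nonneg (Y - 4)]
      linarith
  have h3 : ((Pool.Agent.TH867.SR.cpp B).card : ℝ) ≤ ((TT X X).ncard : ℝ) := by exact_mod_cast h2
  have h4 : 3 / 4 * Y ≤ B := by linarith
  have h5 : (3 / 4 * Y) ^ 2 ≤ (B : ℝ) ^ 2 := pow_le_pow_left₀ (by positivity) h4 2
  have h6 : X ^ ((2 : ℝ) / 3) = 2 ^ ((2 : ℝ) / 3) * Y ^ 2 := by
    have : X = 2 * Y ^ 3 := by rw [hY3]; ring
    rw [this, Real.mul_rpow (by norm_num) (by positivity)]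
    congr 1
    rw [← Real.rpow_natCast, ← Real.rpow_mul hY0.le, ← Real.rpow_natCast]
    norm_num
  have h7 : (2 : ℝ) ^ ((2 : ℝ) / 3) ≤ 2 := by
    calc (2 : ℝ) ^ ((2 : ℝ) / 3) ≤ 2 ^ (1 : ℝ) :=
          Real.rpow_le_rpow_of_exponent_le (by norm_num) (by norm_num)
      _ = 2 := Real.rpow_one _
  rw [h6]
  have h8 : 0 ≤ Y ^ 2 := by positivity
  nlinarith

end Pool.Agent.TH498.AR
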