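import Mathlib

set_option autoImplicit false

/-!
# Sums over the numbers `m` of `m ^ (-τ) / rad m`, where the primes of a finite set do not count
-/

namespace Pool.Agent.TH498.AR

open Finset

/-- the product of the primes dividing `n` that are not in `P` -/
def radP (P : Finset ℕ) (n : ℕ) : ℕ := ∏ p ∈ n.primeFactors.filter (fun p => p ∉ P), p

lemma radP_pos (P : Finset ℕ) (n : ℕ) : 0 < radP P n :=
  Finset.prod_pos fun _ hp => (Nat.prime_of_mem_primeFactors (mem_filter.1 hp).1).pos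

lemma radP_dvd (P : Finset ℕ) (n : ℕ) : radP P n ∣ n := by
  refine dvd_trans ?_ (Nat.prod_primeFactors_dvd n)
  exact Finset.prod_dvd_prod_of_subset _ _ _ (filter_subset _ _)

lemma radP_mono {P : Finset ℕ} {m n : ℕ} (h : m ∣ n) (hn : n ≠ 0) : radP P m ∣ radP P n :=
  Finset.prod_dvd_prod_of_subset _ _ _ (filter_subset_filter _ (Nat.primeFactors_mono h hn))

lemma radP_mul {P : Finset ℕ} {m n : ℕ} (h : Nat.Coprime m n) :
    radP P (m * n) = radP P m * radP P n := by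
  unfold radP
  rw [h.primeFactors_mul, filter_union, prod_union]
  exact disjoint_filter_filter h.disjoint_primeFactors

lemma radP_one (P : Finset ℕ) : radP P 1 = 1 := by simp [radP]

lemma radP_zero (P : Finset ℕ) : radP P 0 = 1 := by simp [radP]

lemma radP_pow {P : Finset ℕ} {p : ℕ} (hp : p.Prime) (n : ℕ) :
    radP P (p ^ (n + 1)) = if p ∈ P then 1 else p := by
  unfold radP
  rw [Nat.primeFactors_pow_succ, hp.primeFactors, filter_singleton]
  by_cases h : p ∈ P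
  · simp [h]
  · simp [h]

/-- the summand -/
noncomputable def ff (τ : ℝ) (P : Finset ℕ) (m : ℕ) : ℝ := (m : ℝ) ^ (-τ) / (radP P m : ℝ)

lemma ff_nonneg (τ : ℝ) (P : Finset ℕ) (m : ℕ) : 0 ≤ ff τ P m := by
  unfold ff
  positivity

lemma ff_mul {τ : ℝ} (P : Finset ℕ) {m n : ℕ} (h : Nat.Coprime m n) :
    ff τ P (m * n) = ff τ P m * ff τ P n := by
  unfold ff
  rw [radP_mul h]
  push_cast
  rw [Real.mul_rpow (Nat.cast_nonneg _) (Nat.cast_nonneg _)]
  rw [mul_div_mul_comm]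

lemma ff_pow {τ : ℝ} (P : Finset ℕ) {p : ℕ} (hp : p.Prime) (n : ℕ) :
    ff τ P (p ^ (n + 1)) = ((p : ℝ) ^ (-τ)) ^ (n + 1) / (if p ∈ P then 1 else (p : ℝ)) := by
  unfold ff
  rw [radP_pow hp]
  push_cast
  rw [← Real.rpow_natCast, ← Real.rpow_mul (Nat.cast_nonneg _), mul_comm,
    Real.rpow_mul (Nat.cast_nonneg _), Real.rpow_natCast]

lemma ff_one (τ : ℝ) (P : Finset ℕ) : ff τ P 1 = 1 := by
  unfold ff
  simp [radP_one]

/-- **The sum.** -/
theorem sum_bound (τ : ℝ) (hτ : 0 < τ) : ∃ C1 C2 : ℝ, 1 ≤ C1 ∧ 1 ≤ C2 ∧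
    ∀ (P : Finset ℕ) (M : ℕ), ∑ m ∈ Icc 1 M, ff τ P m ≤ C1 * C2 ^ P.card := by
  classical
  obtain ⟨y, hy⟩ : ∃ y : ℝ, y = (2 : ℝ) ^ (-τ) := ⟨_, rfl⟩
  have hy0 : 0 < y := by rw [hy]; positivity
  have hy1 : y < 1 := by rw [hy]; exact Real.rpow_lt_one_of_one_lt_of_neg (by norm_num) (by linarith)
  obtain ⟨c, hc⟩ : ∃ c : ℝ, c = 1 / (1 - y) := ⟨_, rfl⟩
  have hc1 : 1 ≤ c := by
    rw [hc, le_div_iff₀ (by linarith)]
    linarith
  obtain ⟨Z, hZ⟩ : ∃ Z : ℝ, Z = ∑' n : ℕ, ((n : ℝ) ^ (1 + τ))⁻¹ := ⟨_, rfl⟩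
  have hsm : Summable fun n : ℕ => ((n : ℝ) ^ (1 + τ))⁻¹ :=
    Real.summable_nat_rpow_inv.2 (by linarith)
  have hZ0 : 0 ≤ Z := by rw [hZ]; exact tsum_nonneg fun n => by positivity
  refine ⟨Real.exp (c * Z), c, Real.one_le_exp (by positivity), hc1, fun P M => ?_⟩
  -- the value at a prime
  have hx : ∀ {p : ℕ}, p.Prime → 0 < (p : ℝ) ^ (-τ) ∧ (p : ℝ) ^ (-τ) ≤ y := by
    intro p hp
    have h0 : (0 : ℝ) < p := by exact_mod_cast hp.pos
    have h2 : (2 : ℝ) ≤ p := by exact_mod_cast hp.two_le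
    refine ⟨by positivity, ?_⟩
    rw [hy]
    exact Real.rpow_le_rpow_of_nonpos (by norm_num) h2 (by linarith)
  have hsum : ∀ {p : ℕ}, p.Prime → Summable (fun n : ℕ ↦ ‖ff τ P (p ^ n)‖) := by
    intro p hp
    obtain ⟨h1, h2⟩ := hx hp
    rw [← summable_nat_add_iff 1]
    have : (fun n : ℕ => ‖ff τ P (p ^ (n + 1))‖) = fun n : ℕ =>
        ((p : ℝ) ^ (-τ)) ^ n * (((p : ℝ) ^ (-τ)) / (if p ∈ P then 1 else (p : ℝ))) := by
      funext n
      rw [Real.norm_of_nonneg (ff_nonneg _ _ _), ff_pow P hp, pow_succ, mul_div_assoc]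
    rw [this]
    exact (summable_geometric_of_lt_one h1.le (by linarith)).mul_right _
  have hval : ∀ {p : ℕ}, p.Prime → ∑' n : ℕ, ff τ P (p ^ n) =
      1 + (1 - (p : ℝ) ^ (-τ))⁻¹ * (((p : ℝ) ^ (-τ)) / (if p ∈ P then 1 else (p : ℝ))) := by
    intro p hp
    obtain ⟨h1, h2⟩ := hx hp
    rw [(hsum hp).of_norm.tsum_eq_zero_add, pow_zero, ff_one]
    congr 1
    have : (fun n : ℕ => ff τ P (p ^ (n + 1))) = fun n : ℕ =>
        ((p : ℝ) ^ (-τ)) ^ n * (((p : ℝ) ^ (-τ)) / (if p ∈ P then 1 else (p : ℝ))) := by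
      funext n
      rw [ff_pow P hp, pow_succ, mul_div_assoc]
    rw [this, tsum_mul_right, tsum_geometric_of_lt_one h1.le (by linarith)]
  have hle : ∀ {p : ℕ}, p.Prime → ∑' n : ℕ, ff τ P (p ^ n) ≤
      (if p ∈ P then c else 1) * Real.exp (c * ((p : ℝ) ^ (1 + τ))⁻¹) := by
    intro p hp
    obtain ⟨h1, h2⟩ := hx hp
    have h0 : (0 : ℝ) < p := by exact_mod_cast hp.pos
    rw [hval hp]
    have hinv : (1 - (p : ℝ) ^ (-τ))⁻¹ ≤ c := by
      rw [hc, one_div]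
      exact inv_anti₀ (by linarith) (by linarith)
    have he : 1 ≤ Real.exp (c * ((p : ℝ) ^ (1 + τ))⁻¹) := Real.one_le_exp (by positivity)
    split_ifs with hP
    · have h3 : 1 + (1 - (p : ℝ) ^ (-τ))⁻¹ * (((p : ℝ) ^ (-τ)) / 1) = (1 - (p : ℝ) ^ (-τ))⁻¹ := by
        have : 1 - (p : ℝ) ^ (-τ) ≠ 0 := by linarith
        field_simp
        ring
      rw [h3]
      calc (1 - (p : ℝ) ^ (-τ))⁻¹ ≤ c := hinv
        _ = c * 1 := (mul_one c).symm
        _ ≤ _ := mul_le_mul_of_nonneg_left he (by linarith)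
    · rw [one_mul]
      have h4 : (p : ℝ) ^ (-τ) / p = ((p : ℝ) ^ (1 + τ))⁻¹ := by
        rw [Real.rpow_neg h0.le, Real.rpow_add h0, Real.rpow_one]
        field_simp
      rw [h4]
      have h5 : (1 - (p : ℝ) ^ (-τ))⁻¹ * ((p : ℝ) ^ (1 + τ))⁻¹ ≤ c * ((p : ℝ) ^ (1 + τ))⁻¹ :=
        mul_le_mul_of_nonneg_right hinv (by positivity)
      have h6 := Real.add_one_le_exp (c * ((p : ℝ) ^ (1 + τ))⁻¹)
      linarith
  have hS := EulerProduct.summable_and_hasSum_factoredNumbers_prod_filter_prime_tsum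
    (f := ff τ P) (ff_one τ P) (fun {m n} h => ff_mul P h) hsum (range (M + 1))
  have hmem : ∀ m ∈ Icc 1 M, m ∈ Nat.factoredNumbers (range (M + 1)) := by
    intro m hm
    obtain ⟨h1, h2⟩ := mem_Icc.1 hm
    refine Nat.mem_factoredNumbers_of_primeFactors_subset (by omega) ?_
    intro p hp
    have := Nat.le_of_mem_primeFactors hp
    exact mem_range.2 (by omega)
  have h7 : ∑ m ∈ Icc 1 M, ff τ P m ≤ ∏ p ∈ range (M + 1) with p.Prime, ∑' n : ℕ, ff τ P (p ^ n) := by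
    rw [← Finset.sum_subtype_of_mem (fun m => ff τ P m) hmem]
    exact sum_le_hasSum _ (fun i _ => ff_nonneg _ _ _) hS.2
  refine h7.trans ?_
  calc ∏ p ∈ range (M + 1) with p.Prime, ∑' n : ℕ, ff τ P (p ^ n)
      ≤ ∏ p ∈ range (M + 1) with p.Prime, ((if p ∈ P then c else 1) *
        Real.exp (c * ((p : ℝ) ^ (1 + τ))⁻¹)) := by
        refine Finset.prod_le_prod (fun p _ => tsum_nonneg fun n => ff_nonneg _ _ _) ?_
        intro p hp
        exact hle (mem_filter.1 hp).2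
    _ = (∏ p ∈ range (M + 1) with p.Prime, (if p ∈ P then c else 1)) *
        Real.exp (∑ p ∈ range (M + 1) with p.Prime, c * ((p : ℝ) ^ (1 + τ))⁻¹) := by
        rw [prod_mul_distrib, Real.exp_sum]
    _ ≤ c ^ P.card * Real.exp (c * Z) := by
        have e1 : (∏ p ∈ range (M + 1) with p.Prime, (if p ∈ P then c else 1)) ≤ c ^ P.card := by
          rw [Finset.prod_ite, Finset.prod_const, Finset.prod_const_one, mul_one]
          refine pow_le_pow_right₀ hc1 (card_le_card ?_)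
          intro p hp
          exact (mem_filter.1 hp).2
        have e2 : ∑ p ∈ range (M + 1) with p.Prime, c * ((p : ℝ) ^ (1 + τ))⁻¹ ≤ c * Z := by
          rw [← mul_sum, hZ]
          exact mul_le_mul_of_nonneg_left (hsm.sum_le_tsum _ (fun n _ => by positivity))
            (by linarith)
        exact mul_le_mul e1 (Real.exp_le_exp.2 e2) (Real.exp_pos _).le (by positivity)
    _ = _ := by ring

end Pool.Agent.TH498.AR
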