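import Pool.Agent.TH498.AR.Base

set_option autoImplicit false

/-!
# Pairs of coprime integers in a box such that `a b (a + b)` has a large repeated part
-/

namespace Pool.Agent.TH498.AR

open Finset

/-- `n` divided by the product of its primes not in `P` -/
def psiP (P : Finset ℕ) (n : ℕ) : ℕ := n / radP P n

lemma psiP_mul (P : Finset ℕ) (n : ℕ) : psiP P n * radP P n = n := Nat.div_mul_cancel (radP_dvd P n)

lemma psiP_pos {P : Finset ℕ} {n : ℕ} (hn : 0 < n) : 0 < psiP P n :=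
  Nat.div_pos (Nat.le_of_dvd hn (radP_dvd P n)) (radP_pos P n)

lemma mod_dvd {P : Finset ℕ} {n : ℕ} (hn : 0 < n) : psiP P n * radP P (psiP P n) ∣ n := by
  have h : psiP P n * radP P (psiP P n) ∣ psiP P n * radP P n :=
    Nat.mul_dvd_mul_left _ (radP_mono ⟨radP P n, (psiP_mul P n).symm⟩ hn.ne')
  rwa [psiP_mul] at h

/-- the repeated part of the pair -/
def psi3 (P : Finset ℕ) (p : ℕ × ℕ) : ℕ := psiP P p.1 * psiP P p.2 * psiP P (p.1 + p.2)

lemma fiber_card (q2 q3 a B : ℕ) (h : Nat.Coprime q2 q3) :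
    ((Icc 1 B).filter (fun b => q2 ∣ b ∧ q3 ∣ a + b)).card ≤ B / (q2 * q3) + 1 := by
  have : ((Icc 1 B).filter (fun b => q2 ∣ b ∧ q3 ∣ a + b)).card ≤
      (range (B / (q2 * q3) + 1)).card := by
    refine card_le_card_of_injOn (fun b => b / (q2 * q3)) ?_ ?_
    · intro b hb
      rw [mem_coe, mem_filter, mem_Icc] at hb
      rw [mem_coe, mem_range]
      exact Nat.lt_succ_of_le (Nat.div_le_div_right hb.1.2)
    · intro b hb b' hb' hbb
      rw [mem_coe, mem_filter] at hb hb'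
      simp only at hbb
      have h2 : b ≡ b' [MOD q2] :=
        ((Nat.modEq_zero_iff_dvd.2 hb.2.1)).trans (Nat.modEq_zero_iff_dvd.2 hb'.2.1).symm
      have h3 : b ≡ b' [MOD q3] := by
        have := (Nat.modEq_zero_iff_dvd.2 hb.2.2).trans (Nat.modEq_zero_iff_dvd.2 hb'.2.2).symm
        exact Nat.ModEq.add_left_cancel' a this
      have h4 : b ≡ b' [MOD q2 * q3] := (Nat.modEq_and_modEq_iff_modEq_mul h).1 ⟨h2, h3⟩
      rw [← Nat.div_add_mod b (q2 * q3), ← Nat.div_add_mod b' (q2 * q3), hbb, h4]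
  rwa [card_range] at this

lemma box_lattice {q1 q2 q3 A B : ℕ} (h1 : 0 < q1) (h2 : 0 < q2) (h3 : 0 < q3)
    (h23 : Nat.Coprime q2 q3) (hB : q2 * q3 ≤ B) (E : Finset (ℕ × ℕ))
    (hE : ∀ p ∈ E, p.1 ∈ Icc 1 A ∧ p.2 ∈ Icc 1 B ∧ q1 ∣ p.1 ∧ q2 ∣ p.2 ∧ q3 ∣ p.1 + p.2) :
    (E.card : ℝ) ≤ 2 * A * B / (q1 * q2 * q3) := by
  have e1 : E.card ≤ ∑ a ∈ (Icc 1 A).filter (fun a => q1 ∣ a),
      ((Icc 1 B).filter (fun b => q2 ∣ b ∧ q3 ∣ a + b)).card := by
    rw [← Finset.card_sigma]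
    refine card_le_card_of_injOn (fun p => ⟨p.1, p.2⟩) ?_ ?_
    · intro p hp
      obtain ⟨a1, a2, a3, a4, a5⟩ := hE p hp
      rw [mem_coe, mem_sigma, mem_filter, mem_filter]
      exact ⟨⟨a1, a3⟩, a2, a4, a5⟩
    · intro p _ p' _ h
      simp only [Sigma.mk.injEq, heq_eq_eq] at h
      exact Prod.ext h.1 h.2
  have e2 : E.card ≤ (A / q1) * (B / (q2 * q3) + 1) := by
    refine e1.trans ?_
    refine (sum_le_card_nsmul _ _ (B / (q2 * q3) + 1) fun a _ => fiber_card q2 q3 a B h23).trans ?_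
    rw [smul_eq_mul]
    refine Nat.mul_le_mul_right _ ?_
    have : ((Icc 1 A).filter (fun a => q1 ∣ a)) = (Ioc 0 A).filter (fun a => q1 ∣ a) := by
      congr 1
    rw [this, Nat.Ioc_filter_dvd_card_eq_div]
  have e3 : (E.card : ℝ) ≤ ((A / q1 : ℕ) : ℝ) * (((B / (q2 * q3) : ℕ) : ℝ) + 1) := by
    exact_mod_cast e2
  have f1 : ((A / q1 : ℕ) : ℝ) ≤ (A : ℝ) / q1 := Nat.cast_div_le
  have f2 : ((B / (q2 * q3) : ℕ) : ℝ) ≤ (B : ℝ) / (q2 * q3) := by
    have := Nat.cast_div_le (α := ℝ) (m := B) (n := q2 * q3)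
    push_cast at this
    exact this
  have p1 : (0 : ℝ) < q1 := by exact_mod_cast h1
  have p2 : (0 : ℝ) < q2 := by exact_mod_cast h2
  have p3 : (0 : ℝ) < q3 := by exact_mod_cast h3
  have f3 : (1 : ℝ) ≤ (B : ℝ) / (q2 * q3) := by
    rw [le_div_iff₀ (by positivity), one_mul]
    exact_mod_cast hB
  calc (E.card : ℝ) ≤ ((A / q1 : ℕ) : ℝ) * (((B / (q2 * q3) : ℕ) : ℝ) + 1) := e3
    _ ≤ ((A : ℝ) / q1) * ((B : ℝ) / (q2 * q3) + (B : ℝ) / (q2 * q3)) := by
        refine mul_le_mul f1 (by linarith) (by positivity) (by positivity)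
    _ = _ := by
        field_simp
        ring

/-- **Pairs with a large repeated part in a box.** -/
theorem box_count (σ : ℝ) (hσ0 : 0 < σ) (hσ : σ < 1) : ∃ C1 C2 : ℝ, 1 ≤ C1 ∧ 1 ≤ C2 ∧
    ∀ (P : Finset ℕ) (A B M : ℕ) (s : ℝ), 0 < s → M ^ 2 ≤ B → ∀ E : Finset (ℕ × ℕ),
    (∀ p ∈ E, p.1 ∈ Icc 1 A ∧ p.2 ∈ Icc 1 B ∧ Nat.Coprime p.1 p.2 ∧ s ≤ (psi3 P p : ℝ) ∧
      psi3 P p ≤ M) →
    (E.card : ℝ) ≤ C1 * C2 ^ P.card * (A * B) * s ^ (-σ) := by
  classical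
  obtain ⟨K1, K2, hK1, hK2, hK⟩ := sum_bound (1 - σ) (by linarith)
  refine ⟨2 * K1 ^ 3, K2 ^ 3, by nlinarith [one_le_pow₀ hK1 (n := 3)], one_le_pow₀ hK2, ?_⟩
  intro P A B M s hs hMB E hE
  obtain ⟨S, hS⟩ : ∃ S : ℝ, S = ∑ m ∈ Icc 1 M, ff (1 - σ) P m := ⟨_, rfl⟩
  have hS0 : 0 ≤ S := by rw [hS]; exact sum_nonneg fun m _ => ff_nonneg _ _ _
  have hSK : S ≤ K1 * K2 ^ P.card := by rw [hS]; exact hK P M
  set T : Finset (ℕ × ℕ × ℕ) := Icc 1 M ×ˢ Icc 1 M ×ˢ Icc 1 M with hT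
  set φ : ℕ × ℕ → ℕ × ℕ × ℕ := fun p => (psiP P p.1, psiP P p.2, psiP P (p.1 + p.2)) with hφ
  have hmap : ∀ p ∈ E, φ p ∈ T := by
    intro p hp
    obtain ⟨a1, a2, -, -, a5⟩ := hE p hp
    have b1 := psiP_pos (P := P) (mem_Icc.1 a1).1
    have b2 := psiP_pos (P := P) (mem_Icc.1 a2).1
    have b3 := psiP_pos (P := P) (n := p.1 + p.2) (by have := (mem_Icc.1 a1).1; omega)
    have c1 : psiP P p.1 ≤ psi3 P p := by
      unfold psi3
      calc psiP P p.1 = psiP P p.1 * 1 * 1 := by ring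
        _ ≤ _ := Nat.mul_le_mul (Nat.mul_le_mul_left _ b2) b3
    have c2 : psiP P p.2 ≤ psi3 P p := by
      unfold psi3
      calc psiP P p.2 = 1 * psiP P p.2 * 1 := by ring
        _ ≤ _ := Nat.mul_le_mul (Nat.mul_le_mul_right _ b1) b3
    have c3 : psiP P (p.1 + p.2) ≤ psi3 P p := by
      unfold psi3
      calc psiP P (p.1 + p.2) = 1 * 1 * psiP P (p.1 + p.2) := by ring
        _ ≤ _ := Nat.mul_le_mul (Nat.mul_le_mul b1 b2) le_rfl
    rw [hT, mem_product, mem_product, mem_Icc, mem_Icc, mem_Icc]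
    exact ⟨⟨b1, c1.trans a5⟩, ⟨b2, c2.trans a5⟩, ⟨b3, c3.trans a5⟩⟩
  have h1 : E.card = ∑ m ∈ T, (E.filter (fun p => φ p = m)).card :=
    card_eq_sum_card_fiberwise hmap
  have h2 : ∀ m ∈ T, ((E.filter (fun p => φ p = m)).card : ℝ) ≤
      2 * A * B * s ^ (-σ) * (ff (1 - σ) P m.1 * (ff (1 - σ) P m.2.1 * ff (1 - σ) P m.2.2)) := by
    intro m hm
    have hnn : 0 ≤ 2 * (A : ℝ) * B * s ^ (-σ) *
        (ff (1 - σ) P m.1 * (ff (1 - σ) P m.2.1 * ff (1 - σ) P m.2.2)) := by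
      have := ff_nonneg (1 - σ) P m.1
      have := ff_nonneg (1 - σ) P m.2.1
      have := ff_nonneg (1 - σ) P m.2.2
      positivity
    rcases (E.filter (fun p => φ p = m)).eq_empty_or_nonempty with he | ⟨p, hp⟩
    · rw [he, card_empty]
      simpa using hnn
    obtain ⟨hpE, hpm⟩ := mem_filter.1 hp
    obtain ⟨a1, a2, a3, a4, a5⟩ := hE p hpE
    obtain ⟨m1, m2, m3⟩ := m
    simp only [hφ, Prod.mk.injEq] at hpm
    obtain ⟨g1, g2, g3⟩ := hpm
    rw [hT, mem_product, mem_product, mem_Icc, mem_Icc, mem_Icc] at hm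
    obtain ⟨⟨i1, -⟩, ⟨i2, -⟩, ⟨i3, -⟩⟩ := hm
    simp only at i1 i2 i3
    have a1' := mem_Icc.1 a1
    have a2' := mem_Icc.1 a2
    have d2 : m2 * radP P m2 ∣ p.2 := by rw [← g2]; exact mod_dvd a2'.1
    have d3 : m3 * radP P m3 ∣ p.1 + p.2 := by rw [← g3]; exact mod_dvd (by omega)
    have hcop : Nat.Coprime (m2 * radP P m2) (m3 * radP P m3) := by
      refine Nat.Coprime.coprime_dvd_left d2 (Nat.Coprime.coprime_dvd_right d3 ?_)
      rw [Nat.coprime_comm, Nat.coprime_add_self_left]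
      exact a3
    have hψ : psi3 P p = m1 * m2 * m3 := by
      unfold psi3
      rw [g1, g2, g3]
    have hle : (m2 * radP P m2) * (m3 * radP P m3) ≤ B := by
      have k1 : radP P m2 ≤ m2 := Nat.le_of_dvd i2 (radP_dvd P m2)
      have k2 : radP P m3 ≤ m3 := Nat.le_of_dvd i3 (radP_dvd P m3)
      have k3 : m2 * m3 ≤ M := by
        calc m2 * m3 = 1 * m2 * m3 := by ring
          _ ≤ m1 * m2 * m3 := Nat.mul_le_mul_right _ (Nat.mul_le_mul_right _ i1)
          _ ≤ M := by rw [← hψ]; exact a5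
      calc (m2 * radP P m2) * (m3 * radP P m3) ≤ (m2 * m2) * (m3 * m3) :=
            Nat.mul_le_mul (Nat.mul_le_mul_left _ k1) (Nat.mul_le_mul_left _ k2)
        _ = (m2 * m3) ^ 2 := by ring
        _ ≤ M ^ 2 := Nat.pow_le_pow_left k3 2
        _ ≤ B := hMB
    have h3 := box_lattice (q1 := m1 * radP P m1) (q2 := m2 * radP P m2) (q3 := m3 * radP P m3)
      (A := A) (B := B) (Nat.mul_pos i1 (radP_pos P _)) (Nat.mul_pos i2 (radP_pos P _))
      (Nat.mul_pos i3 (radP_pos P _)) hcop hle (E.filter (fun p => φ p = (m1, m2, m3))) (by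
        intro p' hp'
        obtain ⟨hpE', hpm'⟩ := mem_filter.1 hp'
        obtain ⟨b1, b2, b3, b4, b5⟩ := hE p' hpE'
        simp only [hφ, Prod.mk.injEq] at hpm'
        obtain ⟨j1, j2, j3⟩ := hpm'
        have b1' := mem_Icc.1 b1
        have b2' := mem_Icc.1 b2
        refine ⟨b1, b2, ?_, ?_, ?_⟩
        · rw [← j1]; exact mod_dvd b1'.1
        · rw [← j2]; exact mod_dvd b2'.1
        · rw [← j3]; exact mod_dvd (by omega))
    refine h3.trans ?_
    have r1 : (0 : ℝ) < radP P m1 := by exact_mod_cast radP_pos P m1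
    have r2 : (0 : ℝ) < radP P m2 := by exact_mod_cast radP_pos P m2
    have r3 : (0 : ℝ) < radP P m3 := by exact_mod_cast radP_pos P m3
    have n1 : (0 : ℝ) < m1 := by exact_mod_cast i1
    have n2 : (0 : ℝ) < m2 := by exact_mod_cast i2
    have n3 : (0 : ℝ) < m3 := by exact_mod_cast i3
    have hs2 : s ≤ (m1 : ℝ) * m2 * m3 := by
      have : (psi3 P p : ℝ) = (m1 : ℝ) * m2 * m3 := by rw [hψ]; push_cast; ring
      rw [← this]
      exact a4
    have hpow : ((m1 : ℝ) * m2 * m3) ^ (-σ) ≤ s ^ (-σ) :=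
      Real.rpow_le_rpow_of_nonpos hs hs2 (by linarith)
    have key : ∀ (x r : ℝ), 0 < x → 0 < r → 1 / (x * r) = x ^ (-σ) * (x ^ (-(1 - σ)) / r) := by
      intro x r hx hr
      rw [mul_div_assoc', ← Real.rpow_add hx]
      have : -σ + -(1 - σ) = (-1 : ℝ) := by ring
      rw [this, Real.rpow_neg_one]
      field_simp
    calc 2 * (A : ℝ) * B / ((((m1 * radP P m1 : ℕ) : ℝ)) * ((m2 * radP P m2 : ℕ) : ℝ) *
          ((m3 * radP P m3 : ℕ) : ℝ))
        = 2 * A * B * ((1 / (m1 * radP P m1)) * (1 / (m2 * radP P m2)) *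
            (1 / (m3 * radP P m3))) := by
          push_cast
          field_simp
      _ = 2 * A * B * (((m1 : ℝ) * m2 * m3) ^ (-σ) *
            (ff (1 - σ) P m1 * (ff (1 - σ) P m2 * ff (1 - σ) P m3))) := by
          rw [key m1 _ n1 r1, key m2 _ n2 r2, key m3 _ n3 r3,
            Real.mul_rpow (by positivity) (by positivity), Real.mul_rpow (by positivity) (by positivity)]
          unfold ff
          ring
      _ ≤ 2 * A * B * (s ^ (-σ) * (ff (1 - σ) P m1 * (ff (1 - σ) P m2 * ff (1 - σ) P m3))) := by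
          refine mul_le_mul_of_nonneg_left (mul_le_mul_of_nonneg_right hpow ?_) (by positivity)
          have := ff_nonneg (1 - σ) P m1
          have := ff_nonneg (1 - σ) P m2
          have := ff_nonneg (1 - σ) P m3
          positivity
      _ = _ := by ring
  have h4 : (E.card : ℝ) ≤ 2 * A * B * s ^ (-σ) * S ^ 3 := by
    rw [h1]
    push_cast
    refine (sum_le_sum h2).trans ?_
    rw [← mul_sum, hT, sum_product]
    have e : ∑ x ∈ Icc 1 M, ∑ y ∈ Icc 1 M ×ˢ Icc 1 M,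
        ff (1 - σ) P (x, y).1 * (ff (1 - σ) P (x, y).2.1 * ff (1 - σ) P (x, y).2.2) = S ^ 3 := by
      have e1 : ∀ x ∈ Icc 1 M, ∑ y ∈ Icc 1 M ×ˢ Icc 1 M,
          ff (1 - σ) P (x, y).1 * (ff (1 - σ) P (x, y).2.1 * ff (1 - σ) P (x, y).2.2) =
          ff (1 - σ) P x * S ^ 2 := by
        intro x _
        simp only
        rw [← mul_sum, sum_product]
        have e2 : ∑ y ∈ Icc 1 M, ∑ z ∈ Icc 1 M, ff (1 - σ) P (y, z).1 * ff (1 - σ) P (y, z).2 =
            S * S := by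
          simp only
          rw [hS, sum_mul_sum]
        rw [e2]
        ring
      rw [sum_congr rfl e1, ← sum_mul, ← hS]
      ring
    rw [e]
  calc (E.card : ℝ) ≤ 2 * A * B * s ^ (-σ) * S ^ 3 := h4
    _ ≤ 2 * A * B * s ^ (-σ) * (K1 * K2 ^ P.card) ^ 3 := by
        refine mul_le_mul_of_nonneg_left (pow_le_pow_left₀ hS0 hSK 3) (by positivity)
    _ = _ := by
        rw [mul_pow, ← pow_mul, ← pow_mul, mul_comm P.card 3]
        ring

end Pool.Agent.TH498.AR
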