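import Pool.Agent.TH498.AR.Riem

set_option autoImplicit false

/-!
# The pairs of a residue class with `a b (a + b) ≤ x ^ 3`
-/

namespace Pool.Agent.TH498.AR

open Finset Filter Topology

/-- the pairs of the class `(r, s)` modulo `Q` with `η x ≤ a ≤ b`, `a b (a + b) ≤ x ^ 3` -/
def Cls (η : ℝ) (Q r s : ℕ) (x : ℝ) : Set (ℕ × ℕ) :=
  {p | 0 < p.1 ∧ p.1 ≤ p.2 ∧ η * x ≤ p.1 ∧ (p.1 : ℝ) * p.2 * (p.1 + p.2) ≤ x ^ 3 ∧
    p.1 % Q = r % Q ∧ p.2 % Q = s % Q}

/-- the values of `b` for given `a` -/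
noncomputable def DD (Q s : ℕ) (x : ℝ) (a : ℕ) : Finset ℕ :=
  ((range (⌊x * gg (a / x)⌋₊ + 1)).filter (fun b => b % Q = s % Q)) \
    ((range a).filter (fun b => b % Q = s % Q))

lemma mem_DD {Q s : ℕ} {x : ℝ} (hx : 0 < x) {a b : ℕ} (ha : 0 < a) :
    b ∈ DD Q s x a ↔ a ≤ b ∧ (a : ℝ) * b * (a + b) ≤ x ^ 3 ∧ b % Q = s % Q := by
  have ha0 : (0 : ℝ) < a := by exact_mod_cast ha
  have hax : 0 < (a : ℝ) / x := by positivity
  have hG := gg_pos hax
  unfold DD
  rw [Finset.mem_sdiff, mem_filter, mem_filter, mem_range, mem_range]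
  have key : 0 < b → (b < ⌊x * gg (a / x)⌋₊ + 1 ↔ (a : ℝ) * b * (a + b) ≤ x ^ 3) := by
    intro hb
    have hb0 : (0 : ℝ) < b := by exact_mod_cast hb
    rw [Nat.lt_succ_iff, Nat.le_floor_iff (by positivity)]
    have h1 : (b : ℝ) ≤ x * gg (a / x) ↔ (b : ℝ) / x ≤ gg (a / x) := by
      rw [div_le_iff₀ hx, mul_comm]
    rw [h1, gg_iff hax (by positivity)]
    have h2 : (a : ℝ) / x * (b / x) * (a / x + b / x) = (a : ℝ) * b * (a + b) / x ^ 3 := by
      field_simp
    rw [h2, div_le_one (by positivity)]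
  constructor
  · rintro ⟨⟨h1, h2⟩, h3⟩
    have h4 : a ≤ b := by
      by_contra h
      exact h3 ⟨by omega, h2⟩
    exact ⟨h4, (key (by omega)).1 h1, h2⟩
  · rintro ⟨h1, h2, h3⟩
    exact ⟨⟨(key (by omega)).2 h2, h3⟩, fun h => by omega⟩

lemma card_DD {Q s : ℕ} (hQ : 0 < Q) {x : ℝ} (hx : 0 < x) {a : ℕ} (ha : 0 < a) :
    |((DD Q s x a).card : ℝ) - x / Q * Phi (a / x)| ≤ 4 := by
  have hQ0 : (0 : ℝ) < Q := by exact_mod_cast hQ
  have hQ1 : (1 : ℝ) ≤ Q := by exact_mod_cast hQ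
  have ha0 : (0 : ℝ) < a := by exact_mod_cast ha
  have hax : 0 < (a : ℝ) / x := by positivity
  have hG := gg_pos hax
  obtain ⟨G, hGd⟩ : ∃ G : ℕ, G = ⌊x * gg (a / x)⌋₊ := ⟨_, rfl⟩
  have g1 : (G : ℝ) ≤ x * gg (a / x) := by rw [hGd]; exact Nat.floor_le (by positivity)
  have g2 : x * gg (a / x) < G + 1 := by rw [hGd]; exact Nat.lt_floor_add_one _
  have hPhi : x / Q * Phi (a / x) = max 0 (x * gg (a / x) - a) / Q := by
    unfold Phi
    have : max 0 (x * gg (a / x) - a) = x * max 0 (gg (a / x) - a / x) := by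
      rw [mul_max_of_nonneg _ _ hx.le, mul_zero, mul_sub, mul_div_cancel₀ _ hx.ne']
    rw [this]
    ring
  rw [hPhi]
  rcases le_or_gt a (G + 1) with h | h
  · have hsub : (range a).filter (fun b => b % Q = s % Q) ⊆
        (range (G + 1)).filter (fun b => b % Q = s % Q) :=
      filter_subset_filter _ (range_subset_range.2 h)
    have hc : ((DD Q s x a).card : ℝ) = (((range (G + 1)).filter (fun b => b % Q = s % Q)).card : ℝ) -
        (((range a).filter (fun b => b % Q = s % Q)).card : ℝ) := by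
      unfold DD
      rw [← hGd, card_sdiff_of_subset hsub, Nat.cast_sub (card_le_card hsub)]
    have c1 := abs_le.1 (count_class hQ s (G + 1))
    have c2 := abs_le.1 (count_class hQ s a)
    rw [hc]
    push_cast at c1
    have e1 : ((G : ℝ) + 1) / Q - (a : ℝ) / Q = (G + 1 - a) / Q := by ring
    have m1 : max 0 (x * gg (a / x) - a) ≤ G + 1 - a := by
      refine max_le ?_ (by linarith)
      have : (a : ℝ) ≤ G + 1 := by exact_mod_cast h
      linarith
    have m2 : (G : ℝ) + 1 - a - 1 ≤ max 0 (x * gg (a / x) - a) := by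
      refine le_trans ?_ (le_max_right _ _)
      linarith
    have m3 : max 0 (x * gg (a / x) - a) / Q ≤ (G + 1 - a) / Q :=
      div_le_div_of_nonneg_right m1 hQ0.le
    have m4 : (G + 1 - a) / Q - 1 ≤ max 0 (x * gg (a / x) - a) / Q := by
      have : ((G : ℝ) + 1 - a) / Q - 1 ≤ ((G : ℝ) + 1 - a - 1) / Q := by
        have : (1 : ℝ) / Q ≤ 1 := by rw [div_le_one hQ0]; exact hQ1
        rw [sub_div ((G : ℝ) + 1 - a) 1]
        linarith
      exact this.trans (div_le_div_of_nonneg_right m2 hQ0.le)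
    rw [abs_le]
    constructor <;> linarith
  · have hsub : (range (G + 1)).filter (fun b => b % Q = s % Q) ⊆
        (range a).filter (fun b => b % Q = s % Q) :=
      filter_subset_filter _ (range_subset_range.2 h.le)
    have hc : (DD Q s x a).card = 0 := by
      unfold DD
      rw [← hGd, sdiff_eq_empty_iff_subset.2 hsub, card_empty]
    have hm : max 0 (x * gg (a / x) - a) = 0 := by
      refine max_eq_left ?_
      have : (G : ℝ) + 1 < a := by exact_mod_cast h
      linarith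
    rw [hc, hm]
    norm_num

/-- **The count of a class.** -/
theorem class_count {η : ℝ} (hη : 0 < η) (hη1 : η ≤ 1) {Q : ℕ} (hQ : 0 < Q) (r s : ℕ) :
    ∃ L C : ℝ, ∀ x : ℝ, 1 ≤ x → (Cls η Q r s x).Finite ∧
      |((Cls η Q r s x).ncard : ℝ) - L * x ^ 2| ≤ C * x := by
  classical
  have hQ0 : (0 : ℝ) < Q := by exact_mod_cast hQ
  have hQ1 : (1 : ℝ) ≤ Q := by exact_mod_cast hQ
  -- the representative in `[1, Q]`
  obtain ⟨r', hr1, hrQ, hrr⟩ : ∃ r' : ℕ, 1 ≤ r' ∧ r' ≤ Q ∧ r' % Q = r % Q := by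
    rcases Nat.eq_zero_or_pos (r % Q) with h | h
    · exact ⟨Q, hQ, le_rfl, by rw [h, Nat.mod_self]⟩
    · exact ⟨r % Q, h, (Nat.mod_lt r hQ).le, Nat.mod_mod r Q⟩
  have hr0 : (1 : ℝ) ≤ r' := by exact_mod_cast hr1
  have hrQ' : (r' : ℝ) ≤ Q := by exact_mod_cast hrQ
  obtain ⟨I, hI⟩ : ∃ I : ℝ, I = ∫ s in (0 : ℝ)..1, PE η s := ⟨_, rfl⟩
  have hP0 := Phi_nonneg η
  refine ⟨(I - Phi η * η) / Q ^ 2, 8 + 4 * Phi η, fun x hx => ?_⟩
  have hx0 : 0 < x := by linarith
  obtain ⟨n, hn⟩ : ∃ n : ℕ, n = ⌈x⌉₊ := ⟨_, rfl⟩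
  have hxn : x ≤ n := by rw [hn]; exact Nat.le_ceil x
  have hnx : (n : ℝ) ≤ x + 1 := by rw [hn]; exact (Nat.ceil_lt_add_one hx0.le).le
  set ak : ℕ → ℕ := fun k => r' + Q * k with hak
  have hakpos : ∀ k, 0 < ak k := fun k => by rw [hak]; positivity
  set A : Finset ℕ := (range n).filter (fun k => η * x ≤ (ak k : ℝ)) with hA
  set F : Finset (ℕ × ℕ) := A.biUnion (fun k => (DD Q s x (ak k)).image (fun b => (ak k, b))) with hF
  have hset : Cls η Q r s x = (F : Set (ℕ × ℕ)) := by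
    ext p
    rw [mem_coe, hF, mem_biUnion]
    constructor
    · rintro ⟨a1, a2, a3, a4, a5, a6⟩
      -- the index
      have hmod : p.1 % Q = r' % Q := a5.trans hrr.symm
      have hge : r' ≤ p.1 := by
        by_contra hlt
        push Not at hlt
        have h1 : p.1 % Q = p.1 := Nat.mod_eq_of_lt (by omega)
        rcases eq_or_lt_of_le hrQ with h2 | h2
        · rw [h2, Nat.mod_self, h1] at hmod
          omega
        · rw [h1, Nat.mod_eq_of_lt h2] at hmod
          omega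
      obtain ⟨k, hk⟩ : ∃ k, p.1 = r' + Q * k := by
        have : Q ∣ p.1 - r' := (Nat.modEq_iff_dvd' hge).1 hmod.symm
        obtain ⟨k, hk⟩ := this
        exact ⟨k, by omega⟩
      have hak' : ak k = p.1 := by rw [hak, hk]
      have hpx : (p.1 : ℝ) ≤ x := by
        by_contra h
        push Not at h
        have b0 : (0 : ℝ) < p.1 := by exact_mod_cast a1
        have b1 : (p.1 : ℝ) ≤ p.2 := by exact_mod_cast a2
        have b2 : x ^ 3 < (p.1 : ℝ) ^ 3 := pow_lt_pow_left₀ h hx0.le (by norm_num)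
        have b3 : (p.1 : ℝ) ^ 3 ≤ (p.1 : ℝ) * p.2 * (p.1 + p.2) := by
          have : (p.1 : ℝ) ^ 3 = p.1 * p.1 * p.1 := by ring
          rw [this]
          refine mul_le_mul (mul_le_mul_of_nonneg_left b1 b0.le) (by linarith) b0.le (by positivity)
        linarith
      have hkn : k < n := by
        have h1 : (k : ℝ) < n := by
          have h2 : (k : ℝ) ≤ Q * k := by
            have : (0 : ℝ) ≤ k := Nat.cast_nonneg _
            nlinarith
          have h3 : (p.1 : ℝ) = r' + Q * k := by exact_mod_cast hk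
          linarith
        exact_mod_cast h1
      refine ⟨k, mem_filter.2 ⟨mem_range.2 hkn, by rw [hak']; exact a3⟩, ?_⟩
      rw [mem_image]
      refine ⟨p.2, ?_, by rw [hak']⟩
      rw [hak', mem_DD hx0 a1]
      exact ⟨a2, a4, a6⟩
    · rintro ⟨k, hk, hp⟩
      obtain ⟨b, hb, rfl⟩ := mem_image.1 hp
      rw [mem_DD hx0 (hakpos k)] at hb
      obtain ⟨-, hk2⟩ := mem_filter.1 hk
      refine ⟨hakpos k, hb.1, hk2, hb.2.1, ?_, hb.2.2⟩
      simp only [hak]
      rw [Nat.add_mul_mod_self_left]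
      exact hrr
  have hfin : (Cls η Q r s x).Finite := by rw [hset]; exact Finset.finite_toSet _
  refine ⟨hfin, ?_⟩
  have hcard : ((Cls η Q r s x).ncard : ℝ) = ∑ k ∈ A, ((DD Q s x (ak k)).card : ℝ) := by
    rw [hset, Set.ncard_coe_finset, hF, card_biUnion]
    · push_cast
      refine sum_congr rfl fun k _ => ?_
      rw [card_image_of_injective]
      intro b b' h
      simpa using h
    · intro k _ l _ hkl
      rw [Function.onFun, disjoint_left]
      intro p hp hp'
      obtain ⟨b, _, rfl⟩ := mem_image.1 hp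
      obtain ⟨b', _, h⟩ := mem_image.1 hp'
      simp only [Prod.mk.injEq, hak] at h
      have := Nat.eq_of_mul_eq_mul_left hQ (Nat.add_left_cancel h.1)
      exact hkl this.symm
  have e1 : |((Cls η Q r s x).ncard : ℝ) - x / Q * ∑ k ∈ A, Phi (ak k / x)| ≤ 4 * (x + 1) := by
    rw [hcard, mul_sum, ← sum_sub_distrib]
    refine (abs_sum_le_sum_abs _ _).trans ?_
    refine (sum_le_sum fun k _ => card_DD hQ hx0 (hakpos k)).trans ?_
    rw [sum_const, nsmul_eq_mul, mul_comm]
    refine mul_le_mul_of_nonneg_left ?_ (by norm_num)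
    have : A.card ≤ n := by
      rw [hA]
      exact (card_filter_le _ _).trans (card_range n).le
    have : (A.card : ℝ) ≤ n := by exact_mod_cast this
    linarith
  -- the truncated sum
  set A' : Finset ℕ := (range n).filter (fun k => ¬ η * x ≤ (ak k : ℝ)) with hA'
  have e2 : ∑ k ∈ range n, PE η (((r' : ℝ) + Q * k) / x) =
      ∑ k ∈ A, Phi (ak k / x) + A'.card * Phi η := by
    rw [← sum_filter_add_sum_filter_not (range n) (fun k => η * x ≤ (ak k : ℝ))]
    congr 1
    · refine sum_congr rfl fun k hk => ?_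
      have h1 := (mem_filter.1 hk).2
      have h2 : ((ak k : ℕ) : ℝ) = r' + Q * k := by rw [hak]; push_cast; ring
      rw [← h2, PE_eq]
      rw [le_div_iff₀ hx0]
      exact h1
    · have h3 : ∀ k ∈ A', PE η (((r' : ℝ) + Q * k) / x) = Phi η := by
        intro k hk
        have h1 := (mem_filter.1 hk).2
        have h2 : ((ak k : ℕ) : ℝ) = r' + Q * k := by rw [hak]; push_cast; ring
        rw [← h2, PE_small]
        rw [div_le_iff₀ hx0]
        push Not at h1
        exact h1.le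
      rw [sum_congr rfl h3, sum_const, nsmul_eq_mul]
  have e3 : |(A'.card : ℝ) - η * x / Q| ≤ 2 := by
    obtain ⟨y, hy⟩ : ∃ y : ℝ, y = (η * x - r') / Q := ⟨_, rfl⟩
    have hA'eq : A' = range ⌈y⌉₊ := by
      rw [hA']
      ext k
      rw [mem_filter, mem_range, mem_range, Nat.lt_ceil, hy, lt_div_iff₀ hQ0]
      have h2 : ((ak k : ℕ) : ℝ) = r' + Q * k := by rw [hak]; push_cast; ring
      rw [h2]
      constructor
      · rintro ⟨_, h⟩
        push Not at h
        nlinarith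
      · intro h
        refine ⟨?_, by push Not; nlinarith⟩
        have h3 : (k : ℝ) ≤ k * Q := by
          have : (0 : ℝ) ≤ k := Nat.cast_nonneg _
          nlinarith
        have h4 : η * x ≤ x := by nlinarith
        have : (k : ℝ) < n := by linarith
        exact_mod_cast this
    rw [hA'eq, card_range]
    have hym : -1 ≤ y := by
      rw [hy, le_div_iff₀ hQ0]
      have : 0 ≤ η * x := by positivity
      linarith
    have hy2 : |y - η * x / Q| ≤ 1 := by
      have : y - η * x / Q = -((r' : ℝ) / Q) := by rw [hy]; ring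
      rw [this, abs_neg, abs_of_nonneg (by positivity), div_le_one hQ0]
      exact hrQ'
    have hy3 : |(⌈y⌉₊ : ℝ) - y| ≤ 1 := by
      rw [abs_le]
      constructor
      · have := Nat.le_ceil y
        linarith
      · rcases le_or_gt 0 y with h | h
        · have := (Nat.ceil_lt_add_one h).le
          linarith
        · rw [Nat.ceil_eq_zero.2 h.le]
          push_cast
          linarith
    have := abs_add_le ((⌈y⌉₊ : ℝ) - y) (y - η * x / Q)
    have e : (⌈y⌉₊ : ℝ) - y + (y - η * x / Q) = (⌈y⌉₊ : ℝ) - η * x / Q := by ring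
    rw [e] at this
    linarith
  have e4 := riem hη hQ hrQ hx0 hxn
  rw [e2, ← hI] at e4
  obtain ⟨S, hS⟩ : ∃ S : ℝ, S = ∑ k ∈ A, Phi (ak k / x) := ⟨_, rfl⟩
  obtain ⟨N, hN⟩ : ∃ N : ℝ, N = ((Cls η Q r s x).ncard : ℝ) := ⟨_, rfl⟩
  obtain ⟨c, hc⟩ : ∃ c : ℝ, c = (A'.card : ℝ) := ⟨_, rfl⟩
  rw [← hS, ← hN] at e1
  rw [← hS, ← hc] at e4
  rw [← hc] at e3
  rw [← hN]
  -- combine
  have e5 : |S - (x / Q * I - η * x / Q * Phi η)| ≤ 4 * Phi η := by
    have h1 : S - (x / Q * I - η * x / Q * Phi η) =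
        (S + c * Phi η - x / Q * I) - (c - η * x / Q) * Phi η := by ring
    rw [h1]
    refine (abs_sub _ _).trans ?_
    have h2 : |(c - η * x / Q) * Phi η| ≤ 2 * Phi η := by
      rw [abs_mul, abs_of_nonneg hP0]
      exact mul_le_mul_of_nonneg_right e3 hP0
    linarith
  have hxQ : 0 < x / Q := by positivity
  have hxQ2 : x / Q ≤ x := div_le_self hx0.le hQ1
  have h3 : N - (I - Phi η * η) / Q ^ 2 * x ^ 2 =
      (N - x / Q * S) + x / Q * (S - (x / Q * I - η * x / Q * Phi η)) := by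
    field_simp
    ring
  rw [h3]
  refine (abs_add_le _ _).trans ?_
  have h4 : |x / Q * (S - (x / Q * I - η * x / Q * Phi η))| ≤ x * (4 * Phi η) := by
    rw [abs_mul, abs_of_pos hxQ]
    exact mul_le_mul hxQ2 e5 (abs_nonneg _) hx0.le
  have : 4 * (x + 1) ≤ 8 * x := by linarith
  linarith

end Pool.Agent.TH498.AR
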