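import Pool.Agent.TH498.AR.Box

set_option autoImplicit false

/-!
# The sum over the dyadic boxes
-/

namespace Pool.Agent.TH498.AR

open Finset

lemma geom_le {r : ℝ} (hr : 1 < r) (n : ℕ) : ∑ i ∈ range n, r ^ i ≤ r ^ n / (r - 1) := by
  rw [geom_sum_eq hr.ne']
  exact div_le_div_of_nonneg_right (by linarith) (by linarith)

lemma geom_tail {r : ℝ} (hr0 : 0 < r) (hr : r < 1) (a n : ℕ) :
    ∑ i ∈ (range n).filter (fun i => a ≤ i), r ^ i ≤ r ^ a / (1 - r) := by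
  have h1 : ∑ i ∈ (range n).filter (fun i => a ≤ i), r ^ i ≤ ∑ i ∈ range n, r ^ (a + i) := by
    have h2 : (range n).filter (fun i => a ≤ i) ⊆ (range n).image (fun i => a + i) := by
      intro i hi
      rw [mem_filter, mem_range] at hi
      rw [mem_image]
      exact ⟨i - a, mem_range.2 (by omega), by omega⟩
    refine (sum_le_sum_of_subset_of_nonneg h2 fun i _ _ => by positivity).trans ?_
    rw [sum_image]
    intro x _ y _ h
    simpa using h
  refine h1.trans ?_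
  have h3 : ∑ i ∈ range n, r ^ (a + i) = r ^ a * ∑ i ∈ range n, r ^ i := by
    rw [mul_sum]
    exact sum_congr rfl fun i _ => pow_add r a i
  rw [h3, geom_sum_eq hr.ne, div_eq_mul_inv, div_eq_mul_inv]
  refine mul_le_mul_of_nonneg_left ?_ (by positivity)
  rw [← neg_sub 1 (r ^ n), ← neg_sub 1 r, inv_neg, neg_mul_neg]
  have : 0 < (1 - r)⁻¹ := inv_pos.2 (by linarith)
  have h4 : 0 < r ^ n := by positivity
  nlinarith

/-- the value of a box -/
noncomputable def zz (Y : ℝ) (i j : ℕ) : ℝ := (2 : ℝ) ^ (i + 2 * j) / (8 * Y)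

lemma zz_pos {Y : ℝ} (hY : 1 ≤ Y) (i j : ℕ) : 0 < zz Y i j := by
  unfold zz
  positivity

/-- the sum over the boxes with `i ≤ j` -/
theorem dyadic (θ : ℝ) (h1 : 2 / 3 < θ) (h2 : θ < 1) : ∃ C : ℝ, 1 ≤ C ∧ ∀ Y : ℝ, 1 ≤ Y → ∀ J : ℕ,
    ∑ j ∈ range J, ∑ i ∈ range (j + 1), (2 : ℝ) ^ (i + j) * min 1 (zz Y i j ^ (-θ)) ≤
      C * Y ^ ((2 : ℝ) / 3) := by
  obtain ⟨r, hr⟩ : ∃ r : ℝ, r = (2 : ℝ) ^ (1 - θ) := ⟨_, rfl⟩
  have hr1 : 1 < r := by rw [hr]; exact Real.one_lt_rpow (by norm_num) (by linarith)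
  obtain ⟨ρ, hρ⟩ : ∃ ρ : ℝ, ρ = (2 : ℝ) ^ (2 - 3 * θ) := ⟨_, rfl⟩
  have hρ0 : 0 < ρ := by rw [hρ]; positivity
  have hρ1 : ρ < 1 := by rw [hρ]; exact Real.rpow_lt_one_of_one_lt_of_neg (by norm_num) (by linarith)
  obtain ⟨K, hK⟩ : ∃ K : ℝ, K = 8 * (r / (r - 1)) / (1 - ρ) := ⟨_, rfl⟩
  have hK0 : 0 < K := by
    rw [hK]
    have : 0 < r - 1 := by linarith
    have : 0 < 1 - ρ := by linarith
    positivity
  refine ⟨8 + K, by linarith, fun Y hY J => ?_⟩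
  have hY0 : 0 < Y := by linarith
  obtain ⟨y, hy⟩ : ∃ y : ℝ, y = Y ^ ((1 : ℝ) / 3) := ⟨_, rfl⟩
  have hy1 : 1 ≤ y := by rw [hy]; exact Real.one_le_rpow hY (by norm_num)
  have hy2 : y ^ 2 = Y ^ ((2 : ℝ) / 3) := by
    rw [hy, ← Real.rpow_natCast, ← Real.rpow_mul hY0.le]
    norm_num
  obtain ⟨j0, hj0⟩ : ∃ j0 : ℕ, j0 = ⌈Real.logb 2 y⌉₊ := ⟨_, rfl⟩
  have hj0y : y ≤ (2 : ℝ) ^ j0 := by
    have : Real.logb 2 y ≤ j0 := by rw [hj0]; exact Nat.le_ceil _
    rw [Real.logb_le_iff_le_rpow (by norm_num) (by linarith), Real.rpow_natCast] at this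
    exact this
  have hj0y2 : (2 : ℝ) ^ j0 ≤ 2 * y := by
    have h0 : 0 ≤ Real.logb 2 y := Real.logb_nonneg (by norm_num) hy1
    have : (j0 : ℝ) ≤ Real.logb 2 y + 1 := by rw [hj0]; exact (Nat.ceil_lt_add_one h0).le
    have h3 : (2 : ℝ) ^ (j0 : ℝ) ≤ (2 : ℝ) ^ (Real.logb 2 y + 1) :=
      Real.rpow_le_rpow_of_exponent_le (by norm_num) this
    rw [Real.rpow_natCast, Real.rpow_add (by norm_num), Real.rpow_logb (by norm_num) (by norm_num)
      (by linarith), Real.rpow_one] at h3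
    linarith
  rw [← sum_filter_add_sum_filter_not (range J) (fun j => j0 ≤ j), add_comm]
  have p1 : ∑ j ∈ (range J).filter (fun j => ¬ j0 ≤ j), ∑ i ∈ range (j + 1),
      (2 : ℝ) ^ (i + j) * min 1 (zz Y i j ^ (-θ)) ≤ 8 * Y ^ ((2 : ℝ) / 3) := by
    have e1 : ∀ j ∈ (range J).filter (fun j => ¬ j0 ≤ j), ∑ i ∈ range (j + 1),
        (2 : ℝ) ^ (i + j) * min 1 (zz Y i j ^ (-θ)) ≤ 2 * (4 : ℝ) ^ j := by
      intro j _
      have : ∀ i ∈ range (j + 1), (2 : ℝ) ^ (i + j) * min 1 (zz Y i j ^ (-θ)) ≤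
          (2 : ℝ) ^ j * (2 : ℝ) ^ i := by
        intro i _
        calc (2 : ℝ) ^ (i + j) * min 1 (zz Y i j ^ (-θ)) ≤ (2 : ℝ) ^ (i + j) * 1 :=
              mul_le_mul_of_nonneg_left (min_le_left _ _) (by positivity)
          _ = _ := by rw [mul_one, pow_add, mul_comm]
      refine (sum_le_sum this).trans ?_
      rw [← mul_sum]
      have h3 := geom_le (r := 2) (by norm_num) (j + 1)
      have h4 : (4 : ℝ) ^ j = 2 ^ j * 2 ^ j := by
        rw [← mul_pow]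
        norm_num
      rw [h4]
      have h5 : (0 : ℝ) < 2 ^ j := by positivity
      have h6 : ∑ i ∈ range (j + 1), (2 : ℝ) ^ i ≤ 2 * 2 ^ j := by
        refine h3.trans (le_of_eq ?_)
        rw [pow_succ]
        norm_num
        ring
      nlinarith
    have e2 : ∑ j ∈ (range J).filter (fun j => ¬ j0 ≤ j), 2 * (4 : ℝ) ^ j ≤
        ∑ j ∈ range j0, 2 * (4 : ℝ) ^ j := by
      refine sum_le_sum_of_subset_of_nonneg ?_ fun i _ _ => by positivity
      intro j hj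
      rw [mem_filter] at hj
      exact mem_range.2 (by omega)
    refine ((sum_le_sum e1).trans e2).trans ?_
    rw [← mul_sum]
    have h3 := geom_le (r := 4) (by norm_num) j0
    have h4 : (4 : ℝ) ^ j0 = ((2 : ℝ) ^ j0) ^ 2 := by
      rw [← pow_mul, mul_comm, pow_mul]
      norm_num
    have h5 : ((2 : ℝ) ^ j0) ^ 2 ≤ (2 * y) ^ 2 := pow_le_pow_left₀ (by positivity) hj0y2 2
    rw [← hy2]
    have h6 : (4 : ℝ) ^ j0 / (4 - 1) ≤ 4 * y ^ 2 := by
      rw [h4]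
      rw [div_le_iff₀ (by norm_num)]
      nlinarith
    linarith
  have p2 : ∑ j ∈ (range J).filter (fun j => j0 ≤ j), ∑ i ∈ range (j + 1),
      (2 : ℝ) ^ (i + j) * min 1 (zz Y i j ^ (-θ)) ≤ K * Y ^ ((2 : ℝ) / 3) := by
    have e1 : ∀ j ∈ (range J).filter (fun j => j0 ≤ j), ∑ i ∈ range (j + 1),
        (2 : ℝ) ^ (i + j) * min 1 (zz Y i j ^ (-θ)) ≤ 8 * Y ^ θ * (r / (r - 1)) * ρ ^ j := by
      intro j _
      have : ∀ i ∈ range (j + 1), (2 : ℝ) ^ (i + j) * min 1 (zz Y i j ^ (-θ)) ≤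
          8 * Y ^ θ * ((2 : ℝ) ^ (1 - 2 * θ)) ^ j * r ^ i := by
        intro i _
        have k1 : (2 : ℝ) ^ (i + j) * min 1 (zz Y i j ^ (-θ)) ≤
            (2 : ℝ) ^ (i + j) * (zz Y i j ^ (-θ)) :=
          mul_le_mul_of_nonneg_left (min_le_right _ _) (by positivity)
        refine k1.trans ?_
        have k2 : zz Y i j ^ (-θ) = (8 * Y) ^ θ * ((2 : ℝ) ^ (-θ)) ^ (i + 2 * j) := by
          unfold zz
          rw [Real.div_rpow (by positivity) (by positivity), Real.rpow_neg (by positivity : (0 : ℝ) ≤ 8 * Y),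
            div_inv_eq_mul, mul_comm]
          congr 1
          rw [← Real.rpow_natCast, ← Real.rpow_mul (by norm_num), mul_comm, Real.rpow_mul (by norm_num),
            Real.rpow_natCast]
        rw [k2]
        have k3 : (8 * Y) ^ θ ≤ 8 * Y ^ θ := by
          rw [Real.mul_rpow (by norm_num) hY0.le]
          refine mul_le_mul_of_nonneg_right ?_ (by positivity)
          calc (8 : ℝ) ^ θ ≤ 8 ^ (1 : ℝ) := Real.rpow_le_rpow_of_exponent_le (by norm_num) h2.le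
            _ = 8 := Real.rpow_one _
        have k4 : (2 : ℝ) ^ (i + j) * (((2 : ℝ) ^ (-θ)) ^ (i + 2 * j)) =
            ((2 : ℝ) ^ (1 - 2 * θ)) ^ j * r ^ i := by
          rw [hr]
          have a1 : (2 : ℝ) ^ (1 - 2 * θ) = 2 * (2 : ℝ) ^ (-θ) * (2 : ℝ) ^ (-θ) := by
            have : (1 - 2 * θ : ℝ) = 1 + -θ + -θ := by ring
            rw [this, Real.rpow_add (by norm_num), Real.rpow_add (by norm_num), Real.rpow_one]
          have a2 : (2 : ℝ) ^ (1 - θ) = 2 * (2 : ℝ) ^ (-θ) := by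
            have : (1 - θ : ℝ) = 1 + -θ := by ring
            rw [this, Real.rpow_add (by norm_num), Real.rpow_one]
          rw [a1, a2]
          ring
        calc (2 : ℝ) ^ (i + j) * ((8 * Y) ^ θ * ((2 : ℝ) ^ (-θ)) ^ (i + 2 * j))
            = (8 * Y) ^ θ * ((2 : ℝ) ^ (i + j) * (((2 : ℝ) ^ (-θ)) ^ (i + 2 * j))) := by ring
          _ = (8 * Y) ^ θ * (((2 : ℝ) ^ (1 - 2 * θ)) ^ j * r ^ i) := by rw [k4]
          _ ≤ 8 * Y ^ θ * (((2 : ℝ) ^ (1 - 2 * θ)) ^ j * r ^ i) :=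
              mul_le_mul_of_nonneg_right k3 (by positivity)
          _ = _ := by ring
      refine (sum_le_sum this).trans ?_
      rw [← mul_sum]
      have h3 := geom_le hr1 (j + 1)
      have h4 : ((2 : ℝ) ^ (1 - 2 * θ)) ^ j * r ^ j = ρ ^ j := by
        rw [← mul_pow, hr, hρ, ← Real.rpow_add (by norm_num)]
        congr 2
        ring
      calc 8 * Y ^ θ * ((2 : ℝ) ^ (1 - 2 * θ)) ^ j * ∑ i ∈ range (j + 1), r ^ i
          ≤ 8 * Y ^ θ * ((2 : ℝ) ^ (1 - 2 * θ)) ^ j * (r ^ (j + 1) / (r - 1)) :=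
            mul_le_mul_of_nonneg_left h3 (by positivity)
        _ = 8 * Y ^ θ * (r / (r - 1)) * (((2 : ℝ) ^ (1 - 2 * θ)) ^ j * r ^ j) := by
            rw [pow_succ]
            ring
        _ = _ := by rw [h4]
    refine (sum_le_sum e1).trans ?_
    rw [← mul_sum]
    have h3 := geom_tail hρ0 hρ1 j0 J
    have h4 : ρ ^ j0 ≤ y ^ (2 - 3 * θ) := by
      have : ρ ^ j0 = ((2 : ℝ) ^ j0) ^ (2 - 3 * θ) := by
        rw [hρ, ← Real.rpow_natCast, ← Real.rpow_natCast, ← Real.rpow_mul (by norm_num),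
          ← Real.rpow_mul (by norm_num), mul_comm]
      rw [this]
      exact Real.rpow_le_rpow_of_nonpos (by linarith) hj0y (by linarith)
    have h5 : Y ^ θ * y ^ (2 - 3 * θ) = Y ^ ((2 : ℝ) / 3) := by
      rw [hy, ← Real.rpow_mul hY0.le, ← Real.rpow_add hY0]
      congr 1
      ring
    have hr0 : 0 < r / (r - 1) := div_pos (by linarith) (by linarith)
    have hρ' : 0 < 1 - ρ := by linarith
    calc 8 * Y ^ θ * (r / (r - 1)) * ∑ i ∈ (range J).filter (fun j => j0 ≤ j), ρ ^ i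
        ≤ 8 * Y ^ θ * (r / (r - 1)) * (ρ ^ j0 / (1 - ρ)) :=
          mul_le_mul_of_nonneg_left h3 (by positivity)
      _ ≤ 8 * Y ^ θ * (r / (r - 1)) * (y ^ (2 - 3 * θ) / (1 - ρ)) := by
          refine mul_le_mul_of_nonneg_left (div_le_div_of_nonneg_right h4 hρ'.le) (by positivity)
      _ = K * (Y ^ θ * y ^ (2 - 3 * θ)) := by
          rw [hK]
          ring
      _ = _ := by rw [h5]
  calc _ ≤ 8 * Y ^ ((2 : ℝ) / 3) + K * Y ^ ((2 : ℝ) / 3) := add_le_add p1 p2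
    _ = _ := by ring

end Pool.Agent.TH498.AR
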