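import Pool.Agent.TH498.AR.Asy

set_option autoImplicit false

/-!
# The asymptotic formula for every exponent
-/

namespace Pool.Agent.TH498.AR

open Finset Filter Topology Pool.Agent.W221.ABC7

/-- two families of finite sets with the same density -/
lemma same_limit {A B : ℝ → Set (ℕ × ℕ)} (hA : ∀ X, (A X).Finite) (hB : ∀ X, (B X).Finite)
    {κ C δ : ℝ} (hδ : 0 < δ)
    (hκ : Tendsto (fun X : ℝ => ((A X).ncard : ℝ) / X ^ ((2 : ℝ) / 3)) atTop (𝓝 κ))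
    (h : ∀ X : ℝ, 1 ≤ X → ((A X \ B X).ncard : ℝ) ≤ C * X ^ (2 / 3 - δ) ∧
      ((B X \ A X).ncard : ℝ) ≤ C * X ^ (2 / 3 - δ)) :
    Tendsto (fun X : ℝ => ((B X).ncard : ℝ) / X ^ ((2 : ℝ) / 3)) atTop (𝓝 κ) := by
  have h3 : Tendsto (fun X : ℝ => C * X ^ (-δ)) atTop (𝓝 (C * 0)) :=
    (tendsto_rpow_neg_atTop hδ).const_mul C
  rw [mul_zero] at h3
  have h4 : Tendsto (fun X : ℝ => ((B X).ncard : ℝ) / X ^ ((2 : ℝ) / 3) -
      ((A X).ncard : ℝ) / X ^ ((2 : ℝ) / 3)) atTop (𝓝 0) := by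
    refine squeeze_zero_norm' ?_ h3
    filter_upwards [eventually_ge_atTop 1] with X hX
    have hX0 : 0 < X := by linarith
    have hXp : 0 < X ^ ((2 : ℝ) / 3) := by positivity
    obtain ⟨h1, h2⟩ := h X hX
    have e3 : X ^ (2 / 3 - δ) = X ^ (-δ) * X ^ ((2 : ℝ) / 3) := by
      rw [← Real.rpow_add hX0]
      congr 1
      ring
    rw [e3] at h1 h2
    have n1 : (A X).ncard ≤ (A X \ B X).ncard + (B X).ncard := by
      have := Set.ncard_le_ncard_sdiff_add_ncard (A X) (B X) (hB X)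
      omega
    have n2 : (B X).ncard ≤ (B X \ A X).ncard + (A X).ncard := by
      have := Set.ncard_le_ncard_sdiff_add_ncard (B X) (A X) (hA X)
      omega
    have n1' : ((A X).ncard : ℝ) ≤ (A X \ B X).ncard + (B X).ncard := by exact_mod_cast n1
    have n2' : ((B X).ncard : ℝ) ≤ (B X \ A X).ncard + (A X).ncard := by exact_mod_cast n2
    rw [Real.norm_eq_abs, ← sub_div, abs_div, abs_of_pos hXp, div_le_iff₀ hXp, abs_le]
    constructor <;> nlinarith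
  have h5 := h4.add hκ
  simpa using h5

/-- triples with `c < rad ^ M` -/
def RR (M X : ℝ) : Set (ℕ × ℕ) :=
  {p | 0 < p.1 ∧ p.1 ≤ p.2 ∧ Nat.Coprime p.1 p.2 ∧ (rd (p.1 * p.2 * (p.1 + p.2)) : ℝ) ≤ X ∧
    ((p.1 + p.2 : ℕ) : ℝ) < (rd (p.1 * p.2 * (p.1 + p.2)) : ℝ) ^ M}

lemma rd_pos (n : ℕ) : 0 < rd n := by
  rw [rd_eq]
  exact radP_pos _ _

lemma RR_sub {M X : ℝ} (hM : 0 < M) : RR M X ⊆ TT X (X ^ M) := by
  rintro p ⟨a1, a2, a3, a4, a5⟩
  refine ⟨a1, a2, a3, a4, a5.le.trans ?_⟩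
  exact Real.rpow_le_rpow (Nat.cast_nonneg _) a4 hM.le

/-- large heights, as a statement on sets -/
lemma large_set (K η : ℝ) (hη : 0 < η) (hη2 : η ≤ 2 / 21) : ∃ C : ℝ, 0 < C ∧
    ∀ X : ℝ, 1 ≤ X → (({p | p ∈ TT X (X ^ K) ∧ X ^ (1 / 3 + η) ≤ ((p.1 + p.2 : ℕ) : ℝ)} :
      Set (ℕ × ℕ)).ncard : ℝ) ≤ C * X ^ (2 / 3 - η / 2) := by
  obtain ⟨C, hC, h⟩ := large_heights K η hη hη2
  refine ⟨C, hC, fun X hX => ?_⟩
  have hfin : ({p | p ∈ TT X (X ^ K) ∧ X ^ (1 / 3 + η) ≤ ((p.1 + p.2 : ℕ) : ℝ)} :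
      Set (ℕ × ℕ)).Finite := (TT_finite X (X ^ K)).subset fun p hp => hp.1
  rw [Set.ncard_eq_toFinset_card _ hfin]
  refine h X hX _ fun p hp => ?_
  rw [Set.Finite.mem_toFinset] at hp
  obtain ⟨⟨a1, a2, a3, a4, a5⟩, a6⟩ := hp
  exact ⟨a1, by omega, a3, a4, a6, a5⟩

theorem asy_K {K : ℝ} (hK : 1 / 3 < K) {κ : ℝ}
    (hκ : Tendsto (fun X : ℝ => ((TT X X).ncard : ℝ) / X ^ ((2 : ℝ) / 3)) atTop (𝓝 κ)) :
    Tendsto (fun X : ℝ => ((TT X (X ^ K)).ncard : ℝ) / X ^ ((2 : ℝ) / 3)) atTop (𝓝 κ) := by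
  obtain ⟨η, hη⟩ : ∃ η : ℝ, η = min (2 / 21) (K - 1 / 3) := ⟨_, rfl⟩
  have hη0 : 0 < η := by rw [hη]; exact lt_min (by norm_num) (by linarith)
  have hη2 : η ≤ 2 / 21 := by rw [hη]; exact min_le_left _ _
  have hηK : 1 / 3 + η ≤ K := by
    have : η ≤ K - 1 / 3 := by rw [hη]; exact min_le_right _ _
    linarith
  obtain ⟨C1, hC1, h1⟩ := large_set 1 η hη0 hη2
  obtain ⟨C2, hC2, h2⟩ := large_set K η hη0 hη2
  refine same_limit (fun X => TT_finite X X) (fun X => TT_finite X (X ^ K))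
    (C := C1 + C2) (δ := η / 2) (by positivity) hκ fun X hX => ?_
  have hp : 0 ≤ X ^ (2 / 3 - η / 2) := by positivity
  constructor
  · have : (TT X X \ TT X (X ^ K)).ncard ≤ ({p | p ∈ TT X (X ^ (1 : ℝ)) ∧
        X ^ (1 / 3 + η) ≤ ((p.1 + p.2 : ℕ) : ℝ)} : Set (ℕ × ℕ)).ncard := by
      refine Set.ncard_le_ncard ?_ ((TT_finite X (X ^ (1 : ℝ))).subset fun p hp => hp.1)
      rintro p ⟨hp1, hp2⟩
      refine ⟨by rw [Real.rpow_one]; exact hp1, ?_⟩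
      obtain ⟨a1, a2, a3, a4, a5⟩ := hp1
      have : X ^ K < ((p.1 + p.2 : ℕ) : ℝ) := by
        by_contra hcon
        push Not at hcon
        exact hp2 ⟨a1, a2, a3, a4, hcon⟩
      exact (Real.rpow_le_rpow_of_exponent_le hX hηK).trans this.le
    have h3 : ((TT X X \ TT X (X ^ K)).ncard : ℝ) ≤ _ := (Nat.cast_le.2 this).trans (h1 X hX)
    nlinarith
  · have : (TT X (X ^ K) \ TT X X).ncard ≤ ({p | p ∈ TT X (X ^ K) ∧
        X ^ (1 / 3 + η) ≤ ((p.1 + p.2 : ℕ) : ℝ)} : Set (ℕ × ℕ)).ncard := by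
      refine Set.ncard_le_ncard ?_ ((TT_finite X (X ^ K)).subset fun p hp => hp.1)
      rintro p ⟨hp1, hp2⟩
      refine ⟨hp1, ?_⟩
      obtain ⟨a1, a2, a3, a4, a5⟩ := hp1
      have : X < ((p.1 + p.2 : ℕ) : ℝ) := by
        by_contra hcon
        push Not at hcon
        exact hp2 ⟨a1, a2, a3, a4, hcon⟩
      calc X ^ (1 / 3 + η) ≤ X ^ (1 : ℝ) := Real.rpow_le_rpow_of_exponent_le hX (by linarith)
        _ = X := Real.rpow_one X
        _ ≤ _ := this.le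
    have h3 : ((TT X (X ^ K) \ TT X X).ncard : ℝ) ≤ _ := (Nat.cast_le.2 this).trans (h2 X hX)
    nlinarith

theorem asy_M {M : ℝ} (hM : 1 / 3 < M) {κ : ℝ}
    (hκ : Tendsto (fun X : ℝ => ((TT X X).ncard : ℝ) / X ^ ((2 : ℝ) / 3)) atTop (𝓝 κ)) :
    Tendsto (fun X : ℝ => ((RR M X).ncard : ℝ) / X ^ ((2 : ℝ) / 3)) atTop (𝓝 κ) := by
  have hM0 : 0 < M := by linarith
  obtain ⟨η, hη⟩ : ∃ η : ℝ, η = min (2 / 21) (M - 1 / 3) := ⟨_, rfl⟩
  have hη0 : 0 < η := by rw [hη]; exact lt_min (by norm_num) (by linarith)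
  have hη2 : η ≤ 2 / 21 := by rw [hη]; exact min_le_left _ _
  have hηM : 1 / 3 + η ≤ M := by
    have : η ≤ M - 1 / 3 := by rw [hη]; exact min_le_right _ _
    linarith
  obtain ⟨δ, hδ⟩ : ∃ δ : ℝ, δ = η / (2 * M) := ⟨_, rfl⟩
  have hδ0 : 0 < δ := by rw [hδ]; positivity
  obtain ⟨C, hC⟩ := count_FxB 1 (1 / M) δ (by positivity) hδ0
  refine same_limit (fun X => TT_finite X (X ^ M))
    (fun X => (TT_finite X (X ^ M)).subset (RR_sub hM0))
    (C := |C|) (δ := η / 2) (by positivity) (asy_K hM hκ) fun X hX => ?_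
  have hX0 : 0 < X := by linarith
  have hp : 0 ≤ X ^ (2 / 3 - η / 2) := by positivity
  constructor
  · obtain ⟨Z, hZ⟩ : ∃ Z : ℕ, Z = ⌊X ^ M⌋₊ := ⟨_, rfl⟩
    have hZ1 : 1 ≤ Z := by
      rw [hZ]
      refine Nat.le_floor ?_
      rw [Nat.cast_one]
      exact Real.one_le_rpow hX hM0.le
    have hZle : (Z : ℝ) ≤ X ^ M := by rw [hZ]; exact Nat.floor_le (by positivity)
    have h1 : (TT X (X ^ M) \ RR M X).ncard ≤ (ExcB 1 (1 / M) Z).ncard := by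
      refine Set.ncard_le_ncard_of_injOn (fun p => (p.1, p.2, p.1 + p.2)) ?_ ?_
        (excB_finite _ _ _)
      · rintro p ⟨⟨a1, a2, a3, a4, a5⟩, hp2⟩
        have b1 : (rd (p.1 * p.2 * (p.1 + p.2)) : ℝ) ^ M ≤ ((p.1 + p.2 : ℕ) : ℝ) := by
          by_contra hcon
          push Not at hcon
          exact hp2 ⟨a1, a2, a3, a4, hcon⟩
        refine ⟨a1, by simp only; omega, a3, rfl, ?_, ?_⟩
        · simp only
          rw [hZ]
          exact Nat.le_floor a5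
        · simp only
          rw [one_mul]
          have hr0 : (0 : ℝ) < rd (p.1 * p.2 * (p.1 + p.2)) := by exact_mod_cast rd_pos _
          have e : (rd (p.1 * p.2 * (p.1 + p.2)) : ℝ) =
              ((rd (p.1 * p.2 * (p.1 + p.2)) : ℝ) ^ M) ^ (1 / M) := by
            rw [← Real.rpow_mul hr0.le, mul_one_div_cancel hM0.ne', Real.rpow_one]
          have h5 : (rd (p.1 * p.2 * (p.1 + p.2)) : ℝ) ≤ ((p.1 + p.2 : ℕ) : ℝ) ^ (1 / M) := by
            rw [e]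
            exact Real.rpow_le_rpow (by positivity) b1 (by positivity)
          exact h5
      · intro p _ q _ hpq
        simp only [Prod.mk.injEq] at hpq
        exact Prod.ext hpq.1 hpq.2.1
    have h2 := hC Z hZ1
    have hF0 : 0 ≤ Fx (1 / M) := (Fx_pos _ (by positivity)).le
    have hmul := mul_Fx_le hη0 hη2 hηM
    have hexp : M * (Fx (1 / M) + δ) ≤ 2 / 3 - η / 2 := by
      have : M * δ = η / 2 := by
        rw [hδ]
        field_simp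
      rw [mul_add, this]
      linarith
    calc ((TT X (X ^ M) \ RR M X).ncard : ℝ) ≤ ((ExcB 1 (1 / M) Z).ncard : ℝ) := by
          exact_mod_cast h1
      _ ≤ C * (Z : ℝ) ^ (Fx (1 / M) + δ) := h2
      _ ≤ |C| * (Z : ℝ) ^ (Fx (1 / M) + δ) :=
          mul_le_mul_of_nonneg_right (le_abs_self _) (by positivity)
      _ ≤ |C| * (X ^ M) ^ (Fx (1 / M) + δ) := by
          refine mul_le_mul_of_nonneg_left ?_ (abs_nonneg _)
          exact Real.rpow_le_rpow (by positivity) hZle (by linarith)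
      _ = |C| * X ^ (M * (Fx (1 / M) + δ)) := by rw [← Real.rpow_mul hX0.le]
      _ ≤ |C| * X ^ (2 / 3 - η / 2) := by
          refine mul_le_mul_of_nonneg_left ?_ (abs_nonneg _)
          exact Real.rpow_le_rpow_of_exponent_le hX hexp
  · have : RR M X \ TT X (X ^ M) = ∅ := Set.sdiff_eq_empty.2 (RR_sub hM0)
    rw [this, Set.ncard_empty]
    push_cast
    positivity

/-- **The asymptotic formula.** -/
theorem final : ∃ κ : ℝ, 0 < κ ∧
    (∀ M : ℝ, 1 / 3 < M →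
      Tendsto (fun X : ℝ => ((RR M X).ncard : ℝ) / X ^ ((2 : ℝ) / 3)) atTop (𝓝 κ)) ∧
    (∀ K : ℝ, 1 / 3 < K →
      Tendsto (fun X : ℝ => ((TT X (X ^ K)).ncard : ℝ) / X ^ ((2 : ℝ) / 3)) atTop (𝓝 κ)) := by
  obtain ⟨κ, hκ⟩ := asy_one
  refine ⟨κ, ?_, fun M hM => asy_M hM hκ, fun K hK => asy_K hK hκ⟩
  obtain ⟨X0, h0⟩ := TT_lower
  have : (1 / 64 : ℝ) ≤ κ := by
    refine ge_of_tendsto hκ ?_
    filter_upwards [eventually_ge_atTop (max X0 1)] with X hX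
    have hX1 : 1 ≤ X := (le_max_right _ _).trans hX
    rw [le_div_iff₀ (by positivity)]
    exact h0 X ((le_max_left _ _).trans hX)
  linarith

end Pool.Agent.TH498.AR
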