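import Pool.Agent.TH498.AR.Dyad

set_option autoImplicit false

/-!
# Weighted sums over the pairs with a small radical
-/

namespace Pool.Agent.TH498.AR

open Finset

/-- Hölder with the constant function -/
lemma holder_card {ι : Type*} (E : Finset ι) (f : ι → ℝ) (hf : ∀ p ∈ E, 0 ≤ f p) {m : ℝ}
    (hm : 1 < m) : ∑ p ∈ E, f p ≤ (E.card : ℝ) ^ (1 - 1 / m) * (∑ p ∈ E, f p ^ m) ^ (1 / m) := by
  have hc : (m : ℝ).HolderConjugate (m / (m - 1)) := Real.HolderConjugate.conjExponent hm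
  have h := Real.inner_le_Lp_mul_Lq_of_nonneg E hc (f := f) (g := fun _ => (1 : ℝ)) hf
    (fun _ _ => zero_le_one)
  simp only [mul_one, Real.one_rpow, sum_const, nsmul_eq_mul] at h
  rw [mul_comm]
  have e : 1 / (m / (m - 1)) = 1 - 1 / m := by
    have : m ≠ 0 := by linarith
    have : m - 1 ≠ 0 := by linarith
    field_simp
  rwa [e] at h

lemma clog_le {a : ℕ} (ha : 0 < a) : (2 : ℝ) ^ (Nat.clog 2 a) ≤ 2 * a := by
  rcases Nat.eq_zero_or_pos (Nat.clog 2 a) with h | h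
  · rw [h, pow_zero]
    have : (1 : ℝ) ≤ a := by exact_mod_cast ha
    linarith
  · have h1 : 1 < a := by
      by_contra hcon
      have : a = 1 := by omega
      rw [this, Nat.clog_one_right] at h
      exact absurd h (lt_irrefl 0)
    have h2 := Nat.pow_pred_clog_lt_self (b := 2) (by norm_num) h1
    have h3 : 2 ^ (Nat.clog 2 a) = 2 * 2 ^ (Nat.clog 2 a).pred := by
      conv_lhs => rw [← Nat.succ_pred_eq_of_pos h]
      rw [pow_succ]
      ring
    have h4 : 2 ^ (Nat.clog 2 a) ≤ 2 * a := by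
      rw [h3]
      omega
    exact_mod_cast h4

lemma coprime3 {P : Finset ℕ} {p : ℕ × ℕ} (h : Nat.Coprime p.1 p.2) :
    psi3 P p * radP P (p.1 * p.2 * (p.1 + p.2)) = p.1 * p.2 * (p.1 + p.2) := by
  have h1 : Nat.Coprime (p.1 * p.2) (p.1 + p.2) := by
    refine Nat.Coprime.mul_left ?_ ?_
    · rw [Nat.coprime_self_add_right]
      exact h
    · rw [Nat.coprime_add_self_right]
      exact h.symm
  unfold psi3
  rw [radP_mul h1, radP_mul h]
  have a1 := psiP_mul P p.1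
  have a2 := psiP_mul P p.2
  have a3 := psiP_mul P (p.1 + p.2)
  calc psiP P p.1 * psiP P p.2 * psiP P (p.1 + p.2) * (radP P p.1 * radP P p.2 * radP P (p.1 + p.2))
      = (psiP P p.1 * radP P p.1) * (psiP P p.2 * radP P p.2) *
        (psiP P (p.1 + p.2) * radP P (p.1 + p.2)) := by ring
    _ = _ := by rw [a1, a2, a3]

/-- **The weighted sum.** -/
theorem main_sum (σ m θ σ1 : ℝ) (hσ0 : 0 < σ) (hσ : σ < 1) (hm : 1 < m) (hθ : 2 / 3 < θ)
    (hθ1 : θ < 1) (hσ1 : 0 ≤ σ1) (hsum : θ + σ1 ≤ σ * (1 - 1 / m)) :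
    ∃ C1 C2 : ℝ, 1 ≤ C1 ∧ 1 ≤ C2 ∧ ∀ (P : Finset ℕ) (Y G W : ℝ), 1 ≤ Y → 1 ≤ G → 1 ≤ W →
    ∀ (M : ℕ) (f : ℕ × ℕ → ℝ), (∀ p, 0 ≤ f p) → ∀ E : Finset (ℕ × ℕ),
    (∀ p ∈ E, 0 < p.1 ∧ p.1 ≤ p.2 ∧ Nat.Coprime p.1 p.2 ∧
      (radP P (p.1 * p.2 * (p.1 + p.2)) : ℝ) ≤ Y ∧ psi3 P p ≤ M ∧ M ^ 2 ≤ p.2 ∧
      W ≤ (psi3 P p : ℝ)) →
    (∀ i j : ℕ, ∑ p ∈ E.filter (fun p => Nat.clog 2 p.1 = i ∧ Nat.clog 2 p.2 = j), f p ^ m ≤
      G * 2 ^ (i + j)) →
    ∑ p ∈ E, f p ≤ C1 * C2 ^ P.card * G * W ^ (-σ1) * Y ^ ((2 : ℝ) / 3) := by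
  classical
  obtain ⟨K1, K2, hK1, hK2, hK⟩ := box_count σ hσ0 hσ
  obtain ⟨D, hD, hdy⟩ := dyadic θ hθ hθ1
  refine ⟨K1 * D, K2, by nlinarith, hK2, ?_⟩
  intro P Y G W hY hG hW M f hf E hE hbox
  have hm0 : 0 < m := by linarith
  have hm1 : 0 < 1 / m := by positivity
  have hm2 : 1 / m < 1 := by rw [div_lt_one hm0]; exact hm
  obtain ⟨J, hJ⟩ : ∃ J : ℕ, J = (E.image (fun p => Nat.clog 2 p.2)).sup id + 1 := ⟨_, rfl⟩
  set box : ℕ → ℕ → Finset (ℕ × ℕ) := fun i j =>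
    E.filter (fun p => Nat.clog 2 p.1 = i ∧ Nat.clog 2 p.2 = j) with hbx
  -- the boxes cover
  have hcover : ∑ p ∈ E, f p = ∑ j ∈ range J, ∑ i ∈ range (j + 1), ∑ p ∈ box i j, f p := by
    have h1 : ∀ p ∈ E, Nat.clog 2 p.2 ∈ range J := by
      intro p hp
      rw [mem_range, hJ, Nat.lt_succ_iff]
      exact Finset.le_sup (f := id) (mem_image_of_mem _ hp)
    rw [← sum_fiberwise_of_maps_to h1]
    refine sum_congr rfl fun j _ => ?_
    have h2 : ∀ p ∈ E.filter (fun p => Nat.clog 2 p.2 = j), Nat.clog 2 p.1 ∈ range (j + 1) := by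
      intro p hp
      obtain ⟨hpE, hpj⟩ := mem_filter.1 hp
      rw [mem_range, Nat.lt_succ_iff, ← hpj]
      exact Nat.clog_mono_right 2 (hE p hpE).2.1
    rw [← sum_fiberwise_of_maps_to h2]
    refine sum_congr rfl fun i _ => ?_
    refine sum_congr ?_ fun _ _ => rfl
    rw [hbx, filter_filter]
    refine filter_congr fun p _ => ?_
    constructor
    · rintro ⟨a, b⟩; exact ⟨b, a⟩
    · rintro ⟨a, b⟩; exact ⟨b, a⟩
  have hone : ∀ i j : ℕ, ∑ p ∈ box i j, f p ≤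
      K1 * K2 ^ P.card * G * W ^ (-σ1) * ((2 : ℝ) ^ (i + j) * min 1 (zz Y i j ^ (-θ))) := by
    intro i j
    have hz := zz_pos hY i j
    have hnn : 0 ≤ K1 * K2 ^ P.card * G * W ^ (-σ1) *
        ((2 : ℝ) ^ (i + j) * min 1 (zz Y i j ^ (-θ))) := by
      have : 0 ≤ min 1 (zz Y i j ^ (-θ)) := le_min zero_le_one (by positivity)
      have : 0 ≤ K1 := by linarith
      have : 0 ≤ K2 := by linarith
      positivity
    rcases (box i j).eq_empty_or_nonempty with he | ⟨p0, hp0⟩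
    · rw [he, sum_empty]
      exact hnn
    obtain ⟨s, hs⟩ : ∃ s : ℝ, s = max W (zz Y i j) := ⟨_, rfl⟩
    have hsW : W ≤ s := by rw [hs]; exact le_max_left _ _
    have hsz : zz Y i j ≤ s := by rw [hs]; exact le_max_right _ _
    have hs1 : 1 ≤ s := hW.trans hsW
    have hs0 : 0 < s := by linarith
    have hMB : M ^ 2 ≤ 2 ^ j := by
      obtain ⟨hpE, -, hpj⟩ := mem_filter.1 hp0
      have := (hE p0 hpE).2.2.2.2.2.1
      refine this.trans ?_
      rw [← hpj]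
      exact Nat.le_pow_clog (by norm_num) _
    have hcard := hK P (2 ^ i) (2 ^ j) M s hs0 hMB (box i j) (by
      intro p hp
      obtain ⟨hpE, hpi, hpj⟩ := mem_filter.1 hp
      obtain ⟨a1, a2, a3, a4, a5, a6, a7⟩ := hE p hpE
      refine ⟨mem_Icc.2 ⟨a1, ?_⟩, mem_Icc.2 ⟨by omega, ?_⟩, a3, ?_, a5⟩
      · rw [← hpi]; exact Nat.le_pow_clog (by norm_num) _
      · rw [← hpj]; exact Nat.le_pow_clog (by norm_num) _
      · rw [hs]
        refine max_le a7 ?_
        have b1 := clog_le a1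
        have b2 := clog_le (a := p.2) (by omega)
        rw [hpi] at b1
        rw [hpj] at b2
        have b3 := coprime3 (P := P) a3
        have b4 : (psi3 P p : ℝ) * (radP P (p.1 * p.2 * (p.1 + p.2)) : ℝ) =
            (p.1 : ℝ) * p.2 * (p.1 + p.2) := by exact_mod_cast b3
        have b5 : (p.1 : ℝ) * p.2 * (p.1 + p.2) ≤ (psi3 P p : ℝ) * Y := by
          rw [← b4]
          exact mul_le_mul_of_nonneg_left a4 (Nat.cast_nonneg _)
        unfold zz
        rw [div_le_iff₀ (by positivity)]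
        have c1 : (0 : ℝ) < p.1 := by exact_mod_cast a1
        have c2 : (0 : ℝ) < p.2 := by exact_mod_cast (by omega : 0 < p.2)
        have b6 : (2 : ℝ) ^ (i + 2 * j) ≤ (2 * p.1) * ((2 * p.2) * (2 * p.2)) := by
          have : (2 : ℝ) ^ (i + 2 * j) = 2 ^ i * (2 ^ j * 2 ^ j) := by
            rw [pow_add, two_mul, pow_add]
          rw [this]
          refine mul_le_mul b1 (mul_le_mul b2 b2 (by positivity) (by positivity)) (by positivity)
            (by positivity)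
        have b7 : (2 * (p.1 : ℝ)) * ((2 * p.2) * (2 * p.2)) ≤ 8 * ((p.1 : ℝ) * p.2 * (p.1 + p.2)) := by
          have : 0 ≤ (p.1 : ℝ) * p.2 * p.1 := by positivity
          nlinarith
        nlinarith)
    have hh := holder_card (box i j) f (fun p _ => hf p) hm
    obtain ⟨T, hT⟩ : ∃ T : ℝ, T = (2 : ℝ) ^ (i + j) := ⟨_, rfl⟩
    have hT1 : 1 ≤ T := by rw [hT]; exact one_le_pow₀ (by norm_num)
    have hT0 : 0 < T := by linarith
    have hcard' : ((box i j).card : ℝ) ≤ (K1 * K2 ^ P.card) * T * s ^ (-σ) := by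
      refine hcard.trans (le_of_eq ?_)
      rw [hT, pow_add]
      push_cast
      ring
    have hQ : 1 ≤ K1 * K2 ^ P.card := by
      have : 1 ≤ K2 ^ P.card := one_le_pow₀ hK2
      nlinarith
    obtain ⟨Q, hQd⟩ : ∃ Q : ℝ, Q = K1 * K2 ^ P.card := ⟨_, rfl⟩
    rw [← hQd] at hcard' hQ ⊢
    have hQ0 : 0 < Q := by linarith
    have x1 : ((box i j).card : ℝ) ^ (1 - 1 / m) ≤ Q * T ^ (1 - 1 / m) * s ^ (-(θ + σ1)) := by
      calc ((box i j).card : ℝ) ^ (1 - 1 / m) ≤ (Q * T * s ^ (-σ)) ^ (1 - 1 / m) :=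
            Real.rpow_le_rpow (Nat.cast_nonneg _) hcard' (by linarith)
        _ = Q ^ (1 - 1 / m) * T ^ (1 - 1 / m) * (s ^ (-σ)) ^ (1 - 1 / m) := by
            rw [Real.mul_rpow (by positivity) (by positivity), Real.mul_rpow hQ0.le hT0.le]
        _ ≤ Q * T ^ (1 - 1 / m) * s ^ (-(θ + σ1)) := by
            have y1 : Q ^ (1 - 1 / m) ≤ Q := by
              calc Q ^ (1 - 1 / m) ≤ Q ^ (1 : ℝ) :=
                    Real.rpow_le_rpow_of_exponent_le hQ (by linarith)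
                _ = Q := Real.rpow_one _
            have y2 : (s ^ (-σ)) ^ (1 - 1 / m) ≤ s ^ (-(θ + σ1)) := by
              rw [← Real.rpow_mul hs0.le]
              exact Real.rpow_le_rpow_of_exponent_le hs1 (by linarith)
            exact mul_le_mul (mul_le_mul_of_nonneg_right y1 (by positivity)) y2 (by positivity)
              (by positivity)
    have x2 : (∑ p ∈ box i j, f p ^ m) ^ (1 / m) ≤ G * T ^ (1 / m) := by
      have y0 : ∑ p ∈ box i j, f p ^ m ≤ G * T := by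
        rw [hT]
        exact hbox i j
      have y3 : 0 ≤ ∑ p ∈ box i j, f p ^ m := sum_nonneg fun p _ => Real.rpow_nonneg (hf p) _
      calc (∑ p ∈ box i j, f p ^ m) ^ (1 / m) ≤ (G * T) ^ (1 / m) :=
            Real.rpow_le_rpow y3 y0 hm1.le
        _ = G ^ (1 / m) * T ^ (1 / m) := Real.mul_rpow (by linarith) hT0.le
        _ ≤ G * T ^ (1 / m) := by
            refine mul_le_mul_of_nonneg_right ?_ (by positivity)
            calc G ^ (1 / m) ≤ G ^ (1 : ℝ) := Real.rpow_le_rpow_of_exponent_le hG hm2.le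
              _ = G := Real.rpow_one _
    have x3 : s ^ (-(θ + σ1)) ≤ W ^ (-σ1) * min 1 (zz Y i j ^ (-θ)) := by
      have e : s ^ (-(θ + σ1)) = s ^ (-σ1) * s ^ (-θ) := by
        rw [← Real.rpow_add hs0]
        congr 1
        ring
      rw [e]
      have y1 : s ^ (-σ1) ≤ W ^ (-σ1) :=
        Real.rpow_le_rpow_of_nonpos (by linarith) hsW (by linarith)
      have y2 : s ^ (-θ) ≤ min 1 (zz Y i j ^ (-θ)) := by
        refine le_min ?_ ?_
        · exact Real.rpow_le_one_of_one_le_of_nonpos hs1 (by linarith)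
        · exact Real.rpow_le_rpow_of_nonpos hz hsz (by linarith)
      exact mul_le_mul y1 y2 (by positivity) (by positivity)
    have hTT : T ^ (1 - 1 / m) * T ^ (1 / m) = T := by
      rw [← Real.rpow_add hT0]
      have : 1 - 1 / m + 1 / m = (1 : ℝ) := by ring
      rw [this, Real.rpow_one]
    have hmin0 : 0 ≤ min 1 (zz Y i j ^ (-θ)) := le_min zero_le_one (by positivity)
    calc ∑ p ∈ box i j, f p ≤ ((box i j).card : ℝ) ^ (1 - 1 / m) *
          (∑ p ∈ box i j, f p ^ m) ^ (1 / m) := hh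
      _ ≤ (Q * T ^ (1 - 1 / m) * s ^ (-(θ + σ1))) * (G * T ^ (1 / m)) := by
          refine mul_le_mul x1 x2 ?_ (by positivity)
          exact Real.rpow_nonneg (sum_nonneg fun p _ => Real.rpow_nonneg (hf p) _) _
      _ = Q * G * s ^ (-(θ + σ1)) * (T ^ (1 - 1 / m) * T ^ (1 / m)) := by ring
      _ = Q * G * s ^ (-(θ + σ1)) * T := by rw [hTT]
      _ ≤ Q * G * (W ^ (-σ1) * min 1 (zz Y i j ^ (-θ))) * T := by
          refine mul_le_mul_of_nonneg_right ?_ hT0.le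
          exact mul_le_mul_of_nonneg_left x3 (by positivity)
      _ = _ := by rw [hT]; ring
  rw [hcover]
  have hc0 : 0 ≤ K1 * K2 ^ P.card * G * W ^ (-σ1) := by
    have : 0 ≤ K1 := by linarith
    have : 0 ≤ K2 := by linarith
    positivity
  calc ∑ j ∈ range J, ∑ i ∈ range (j + 1), ∑ p ∈ box i j, f p
      ≤ ∑ j ∈ range J, ∑ i ∈ range (j + 1), K1 * K2 ^ P.card * G * W ^ (-σ1) *
        ((2 : ℝ) ^ (i + j) * min 1 (zz Y i j ^ (-θ))) :=
        sum_le_sum fun j _ => sum_le_sum fun i _ => hone i j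
    _ = K1 * K2 ^ P.card * G * W ^ (-σ1) *
        ∑ j ∈ range J, ∑ i ∈ range (j + 1), ((2 : ℝ) ^ (i + j) * min 1 (zz Y i j ^ (-θ))) := by
        rw [mul_sum]
        exact sum_congr rfl fun j _ => by rw [mul_sum]
    _ ≤ K1 * K2 ^ P.card * G * W ^ (-σ1) * (D * Y ^ ((2 : ℝ) / 3)) :=
        mul_le_mul_of_nonneg_left (hdy Y hY J) hc0
    _ = _ := by ring

end Pool.Agent.TH498.AR
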