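import Pool.Agent.TH498.AR.Cls
import Pool.Agent.TH498.AR.Wt

set_option autoImplicit false

/-!
# The triples with a given repeated part
-/

namespace Pool.Agent.TH498.AR

open Finset Filter Topology

/-- the product of the three members -/
def nn (p : ℕ × ℕ) : ℕ := p.1 * p.2 * (p.1 + p.2)

/-- the pairs with `a b (a + b) ≤ x ^ 3` -/
def VV (x : ℝ) : Set (ℕ × ℕ) :=
  {p | 0 < p.1 ∧ p.1 ≤ p.2 ∧ (p.1 : ℝ) * p.2 * (p.1 + p.2) ≤ x ^ 3}

/-- the coprime pairs with repeated part `w` and `a b (a + b) ≤ x ^ 3` -/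
def Nw (w : ℕ) (x : ℝ) : Set (ℕ × ℕ) :=
  {p | 0 < p.1 ∧ p.1 ≤ p.2 ∧ Nat.Coprime p.1 p.2 ∧ psi3 ∅ p = w ∧
    (p.1 : ℝ) * p.2 * (p.1 + p.2) ≤ x ^ 3}

/-- the local conditions at the primes up to `P0` -/
def Rloc (w P0 : ℕ) (p : ℕ × ℕ) : Prop :=
  ∀ q : ℕ, q.Prime → q ≤ P0 → ¬ (q ∣ p.1 ∧ q ∣ p.2) ∧
    (q ∣ w → q ^ (w.factorization q + 1) ∣ nn p) ∧ ¬ q ^ (w.factorization q + 2) ∣ nn p

/-- the modulus -/
def Qm (w P0 : ℕ) : ℕ := (P0.factorial) ^ (w + 2)

lemma Qm_pos (w P0 : ℕ) : 0 < Qm w P0 := by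
  unfold Qm
  positivity

lemma dvd_Qm {w P0 q e : ℕ} (hq : q.Prime) (hqP : q ≤ P0) (he : e ≤ w + 2) : q ^ e ∣ Qm w P0 := by
  unfold Qm
  exact (pow_dvd_pow q he).trans (pow_dvd_pow_of_dvd (Nat.dvd_factorial hq.pos hqP) _)

lemma Rloc_congr {w P0 : ℕ} (hw : 0 < w) {p p' : ℕ × ℕ} (h1 : p.1 % Qm w P0 = p'.1 % Qm w P0)
    (h2 : p.2 % Qm w P0 = p'.2 % Qm w P0) (h : Rloc w P0 p) : Rloc w P0 p' := by
  intro q hq hqP
  obtain ⟨a1, a2, a3⟩ := h q hq hqP
  have hf : w.factorization q < w := Nat.factorization_lt q hw.ne'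
  have key1 : ∀ {d x y : ℕ}, d ∣ Qm w P0 → x % Qm w P0 = y % Qm w P0 → d ∣ x → d ∣ y := by
    intro d x y hd hxy hx
    have : x ≡ y [MOD d] := Nat.ModEq.of_dvd hd hxy
    exact (Nat.modEq_zero_iff_dvd.1 (this.symm.trans (Nat.modEq_zero_iff_dvd.2 hx)))
  have hn : nn p % Qm w P0 = nn p' % Qm w P0 := by
    unfold nn
    have e1 : p.1 ≡ p'.1 [MOD Qm w P0] := h1
    have e2 : p.2 ≡ p'.2 [MOD Qm w P0] := h2
    exact (e1.mul e2).mul (e1.add e2)
  have hq1 : q ∣ Qm w P0 := by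
    have := dvd_Qm (w := w) (e := 1) hq hqP (by omega)
    rwa [pow_one] at this
  refine ⟨fun hc => a1 ⟨key1 hq1 h1.symm hc.1, key1 hq1 h2.symm hc.2⟩, fun hqw => ?_, fun hc => ?_⟩
  · exact key1 (dvd_Qm hq hqP (by omega)) hn (a2 hqw)
  · exact a3 (key1 (dvd_Qm hq hqP (by omega)) hn.symm hc)

lemma nn_pos {p : ℕ × ℕ} (h1 : 0 < p.1) (h2 : 0 < p.2) : 0 < nn p := by
  unfold nn
  positivity

lemma fact_rad {n q : ℕ} (hn : 0 < n) (hq : q.Prime) :
    (radP ∅ n).factorization q = if q ∣ n then 1 else 0 := by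
  have hrad : radP ∅ n = ∏ p ∈ n.primeFactors, p := by
    unfold radP
    simp
  rw [hrad, Nat.factorization_prod_apply fun p hp => (Nat.prime_of_mem_primeFactors hp).ne_zero]
  have : ∀ p ∈ n.primeFactors, p.factorization q = if p = q then 1 else 0 := by
    intro p hp
    rw [(Nat.prime_of_mem_primeFactors hp).factorization, Finsupp.single_apply]
  rw [sum_congr rfl this, sum_ite_eq']
  by_cases h : q ∣ n
  · rw [if_pos h, if_pos (Nat.mem_primeFactors.2 ⟨hq, h, hn.ne'⟩)]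
  · rw [if_neg h, if_neg (fun hh => h (Nat.dvd_of_mem_primeFactors hh))]

lemma fact_nn {p : ℕ × ℕ} (h1 : 0 < p.1) (h2 : 0 < p.2) (hc : Nat.Coprime p.1 p.2) {q : ℕ}
    (hq : q.Prime) :
    (nn p).factorization q = (psi3 ∅ p).factorization q + if q ∣ nn p then 1 else 0 := by
  have h := coprime3 (P := ∅) hc
  have hn := nn_pos h1 h2
  have hpsi : psi3 ∅ p ≠ 0 := by
    intro h0
    rw [h0, zero_mul] at h
    unfold nn at hn
    omega
  have h' : nn p = psi3 ∅ p * radP ∅ (nn p) := h.symm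
  conv_lhs => rw [h']
  rw [Nat.factorization_mul hpsi (radP_pos ∅ _).ne', Finsupp.add_apply, fact_rad hn hq]

/-- a pair with repeated part `w` satisfies the local conditions -/
lemma Rloc_of {w P0 : ℕ} (hw : 0 < w) {p : ℕ × ℕ} (h1 : 0 < p.1) (h2 : 0 < p.2)
    (hc : Nat.Coprime p.1 p.2) (hpsi : psi3 ∅ p = w) : Rloc w P0 p := by
  intro q hq _
  have hn := nn_pos h1 h2
  have hf := fact_nn h1 h2 hc hq
  rw [hpsi] at hf
  refine ⟨?_, ?_, ?_⟩
  · rintro ⟨a, b⟩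
    exact Nat.not_coprime_of_dvd_of_dvd hq.one_lt a b hc
  · intro hqw
    have hqn : q ∣ nn p := by
      have := coprime3 (P := ∅) hc
      rw [hpsi] at this
      exact hqw.trans ⟨_, this.symm⟩
    rw [if_pos hqn] at hf
    rw [hq.pow_dvd_iff_le_factorization hn.ne', hf]
  · rw [hq.pow_dvd_iff_le_factorization hn.ne', hf]
    split_ifs <;> omega

/-- the converse, when there is no bad large prime -/
lemma of_Rloc {w P0 : ℕ} (hw : 0 < w) (hwP : w ≤ P0) {p : ℕ × ℕ} (h1 : 0 < p.1) (h2 : 0 < p.2)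
    (h : Rloc w P0 p) (hbad : ∀ q : ℕ, q.Prime → P0 < q → ¬ (q ∣ p.1 ∧ q ∣ p.2) ∧ ¬ q ^ 2 ∣ nn p) :
    Nat.Coprime p.1 p.2 ∧ psi3 ∅ p = w := by
  have hc : Nat.Coprime p.1 p.2 := by
    rw [Nat.coprime_iff_gcd_eq_one]
    by_contra hne
    obtain ⟨q, hq, hqd⟩ := Nat.exists_prime_and_dvd hne
    have d1 := hqd.trans (Nat.gcd_dvd_left _ _)
    have d2 := hqd.trans (Nat.gcd_dvd_right _ _)
    rcases le_or_gt q P0 with hle | hlt
    · exact (h q hq hle).1 ⟨d1, d2⟩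
    · exact (hbad q hq hlt).1 ⟨d1, d2⟩
  refine ⟨hc, ?_⟩
  have hn := nn_pos h1 h2
  have hpsi : psi3 ∅ p ≠ 0 := by
    intro h0
    have h' := coprime3 (P := ∅) hc
    rw [h0, zero_mul] at h'
    unfold nn at hn
    omega
  refine Nat.eq_of_factorization_eq hpsi hw.ne' fun q => ?_
  by_cases hq : q.Prime
  swap
  · rw [Nat.factorization_eq_zero_of_not_prime _ hq, Nat.factorization_eq_zero_of_not_prime _ hq]
  have hf := fact_nn h1 h2 hc hq
  rcases le_or_gt q P0 with hle | hlt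
  · obtain ⟨-, a2, a3⟩ := h q hq hle
    rw [hq.pow_dvd_iff_le_factorization hn.ne'] at a3
    by_cases hqw : q ∣ w
    · have a4 := a2 hqw
      rw [hq.pow_dvd_iff_le_factorization hn.ne'] at a4
      have hqn : q ∣ nn p := by
        have : 1 ≤ (nn p).factorization q := by omega
        exact Nat.dvd_of_factorization_pos (by omega)
      rw [if_pos hqn] at hf
      omega
    · have : w.factorization q = 0 := Nat.factorization_eq_zero_of_not_dvd hqw
      rw [this] at a3 ⊢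
      by_cases hqn : q ∣ nn p
      · rw [if_pos hqn] at hf
        omega
      · have : (nn p).factorization q = 0 := Nat.factorization_eq_zero_of_not_dvd hqn
        omega
  · have hqw : ¬ q ∣ w := fun hd => by
      have := Nat.le_of_dvd hw hd
      omega
    have h3 : w.factorization q = 0 := Nat.factorization_eq_zero_of_not_dvd hqw
    have a3 := (hbad q hq hlt).2
    rw [hq.pow_dvd_iff_le_factorization hn.ne'] at a3
    rw [h3]
    by_cases hqn : q ∣ nn p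
    · rw [if_pos hqn] at hf
      omega
    · have : (nn p).factorization q = 0 := Nat.factorization_eq_zero_of_not_dvd hqn
      omega

/-- a prime whose square divides the product -/
lemma sq_dvd_cases {q : ℕ} (hq : q.Prime) {p : ℕ × ℕ} (h : q ^ 2 ∣ nn p) :
    q ^ 2 ∣ p.1 ∨ q ^ 2 ∣ p.2 ∨ q ^ 2 ∣ p.1 + p.2 ∨ (q ∣ p.1 ∧ q ∣ p.2) := by
  by_cases h1 : q ∣ p.1
  · by_cases h2 : q ∣ p.2
    · exact Or.inr (Or.inr (Or.inr ⟨h1, h2⟩))
    · left
      have h3 : ¬ q ∣ p.1 + p.2 := fun h => h2 ((Nat.dvd_add_right h1).1 h)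
      have c2 : Nat.Coprime (q ^ 2) p.2 := Nat.Coprime.pow_left 2 ((hq.coprime_iff_not_dvd).2 h2)
      have c3 : Nat.Coprime (q ^ 2) (p.1 + p.2) :=
        Nat.Coprime.pow_left 2 ((hq.coprime_iff_not_dvd).2 h3)
      unfold nn at h
      exact c2.dvd_of_dvd_mul_right (c3.dvd_of_dvd_mul_right h)
  · have c1 : Nat.Coprime (q ^ 2) p.1 := Nat.Coprime.pow_left 2 ((hq.coprime_iff_not_dvd).2 h1)
    by_cases h2 : q ∣ p.2
    · right; left
      have h3 : ¬ q ∣ p.1 + p.2 := fun h => h1 ((Nat.dvd_add_left h2).1 h)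
      have c3 : Nat.Coprime (q ^ 2) (p.1 + p.2) :=
        Nat.Coprime.pow_left 2 ((hq.coprime_iff_not_dvd).2 h3)
      unfold nn at h
      exact c1.dvd_of_dvd_mul_left (c3.dvd_of_dvd_mul_right h)
    · right; right; left
      have c2 : Nat.Coprime (q ^ 2) p.2 := Nat.Coprime.pow_left 2 ((hq.coprime_iff_not_dvd).2 h2)
      unfold nn at h
      exact (c1.mul_right c2).dvd_of_dvd_mul_left h

end Pool.Agent.TH498.AR
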