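import Pool.Agent.TH498.AR.Loc

set_option autoImplicit false

/-!
# The number of triples with a given repeated part
-/

namespace Pool.Agent.TH498.AR

open Finset Filter Topology

lemma VV_le {x : ℝ} {p : ℕ × ℕ} (hp : p ∈ VV x) : (p.1 : ℝ) * (p.2 : ℝ) ^ 2 ≤ x ^ 3 := by
  obtain ⟨h1, h2, h3⟩ := hp
  have a1 : (0 : ℝ) < p.1 := by exact_mod_cast h1
  have a2 : (0 : ℝ) < p.2 := by exact_mod_cast (by omega : 0 < p.2)
  have : (p.1 : ℝ) * (p.2 : ℝ) ^ 2 ≤ (p.1 : ℝ) * p.2 * (p.1 + p.2) := by nlinarith [mul_pos a1 a2]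
  linarith

lemma VV_finite (x : ℝ) : (VV x).Finite := by
  refine Set.Finite.subset (Finset.finite_toSet
    (range (⌊x ^ 3⌋₊ + 1) ×ˢ range (⌊x ^ 3⌋₊ + 1))) ?_
  intro p hp
  have h := VV_le hp
  obtain ⟨h1, h2, h3⟩ := hp
  have a1 : (1 : ℝ) ≤ p.1 := by exact_mod_cast h1
  have a2 : (1 : ℝ) ≤ p.2 := by exact_mod_cast (by omega : 0 < p.2)
  have h4 : (p.2 : ℝ) ≤ x ^ 3 := by nlinarith
  have h5 : p.2 ≤ ⌊x ^ 3⌋₊ := Nat.le_floor h4
  rw [mem_coe, mem_product, mem_range, mem_range]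
  omega

/-- the pairs with a bad large prime -/
lemma bad_count {η x : ℝ} (hη : 0 < η) (hx : 1 ≤ x) {P0 : ℕ} (hP0 : 0 < P0)
    (E : Finset (ℕ × ℕ)) (hE : ∀ p ∈ E, p ∈ VV x ∧ η * x ≤ p.1 ∧ ∃ q : ℕ, q.Prime ∧ P0 < q ∧
      ((q ∣ p.1 ∧ q ∣ p.2) ∨ q ^ 2 ∣ nn p)) : (E.card : ℝ) ≤ 5 * x ^ 2 / (η * P0) := by
  classical
  have hx0 : 0 < x := by linarith
  obtain ⟨H, hH⟩ : ∃ H : ℕ, H = ⌊x / Real.sqrt η⌋₊ := ⟨_, rfl⟩
  have hsη : 0 < Real.sqrt η := Real.sqrt_pos.2 hη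
  have hH1 : (H : ℝ) ≤ x / Real.sqrt η := by rw [hH]; exact Nat.floor_le (by positivity)
  have hH2 : (H : ℝ) ^ 2 ≤ x ^ 2 / η := by
    calc (H : ℝ) ^ 2 ≤ (x / Real.sqrt η) ^ 2 := pow_le_pow_left₀ (Nat.cast_nonneg _) hH1 2
      _ = x ^ 2 / η := by rw [div_pow, Real.sq_sqrt hη.le]
  have hpos : ∀ p ∈ E, 0 < p.1 ∧ p.1 ≤ H ∧ 0 < p.2 ∧ p.2 ≤ H := by
    intro p hp
    obtain ⟨hV, h1, -⟩ := hE p hp
    have h2 := VV_le hV
    obtain ⟨v1, v2, v3⟩ := hV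
    have h3 : η * x * (p.2 : ℝ) ^ 2 ≤ x ^ 3 :=
      (mul_le_mul_of_nonneg_right h1 (by positivity)).trans h2
    have h4 : (p.2 : ℝ) ≤ x / Real.sqrt η := by
      rw [le_div_iff₀ hsη]
      by_contra hcon
      push Not at hcon
      have h5 : x ^ 2 < ((p.2 : ℝ) * Real.sqrt η) ^ 2 := pow_lt_pow_left₀ hcon hx0.le (by norm_num)
      rw [mul_pow, Real.sq_sqrt hη.le] at h5
      have h6 : x ^ 2 * x < (p.2 : ℝ) ^ 2 * η * x := mul_lt_mul_of_pos_right h5 hx0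
      nlinarith
    have h5 : p.2 ≤ H := by rw [hH]; exact Nat.le_floor h4
    omega
  set mul : ℕ → ℕ → Finset ℕ := fun d Z => (Ioc 0 Z).filter (fun n => d ∣ n) with hmul
  have hmulc : ∀ d Z : ℕ, ((mul d Z).card : ℝ) ≤ (Z : ℝ) / d := by
    intro d Z
    rw [hmul]
    simp only
    rw [Nat.Ioc_filter_dvd_card_eq_div]
    exact Nat.cast_div_le
  have hcov : E ⊆ (Ioc P0 (P0 + 2 * H)).biUnion (fun q => (mul (q ^ 2) H ×ˢ Ioc 0 H) ∪
      ((Ioc 0 H ×ˢ mul (q ^ 2) H) ∪ (((Ioc 0 H ×ˢ mul (q ^ 2) (2 * H)).image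
        (fun t : ℕ × ℕ => (t.1, t.2 - t.1))) ∪ (mul q H ×ˢ mul q H)))) := by
    intro p hp
    obtain ⟨-, -, q, hq, hqP, hcase⟩ := hE p hp
    obtain ⟨p1, p2, p3, p4⟩ := hpos p hp
    have hcase' : q ^ 2 ∣ p.1 ∨ q ^ 2 ∣ p.2 ∨ q ^ 2 ∣ p.1 + p.2 ∨ (q ∣ p.1 ∧ q ∣ p.2) := by
      rcases hcase with h | h
      · exact Or.inr (Or.inr (Or.inr h))
      · exact sq_dvd_cases hq h
    have hqq : q ≤ q ^ 2 := Nat.le_self_pow (by norm_num) q
    rw [mem_biUnion]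
    rcases hcase' with h | h | h | h
    · have := Nat.le_of_dvd p1 h
      refine ⟨q, mem_Ioc.2 ⟨hqP, by omega⟩, mem_union_left _ (mem_product.2
        ⟨mem_filter.2 ⟨mem_Ioc.2 ⟨p1, p2⟩, h⟩, mem_Ioc.2 ⟨p3, p4⟩⟩)⟩
    · have := Nat.le_of_dvd p3 h
      refine ⟨q, mem_Ioc.2 ⟨hqP, by omega⟩, mem_union_right _ (mem_union_left _ (mem_product.2
        ⟨mem_Ioc.2 ⟨p1, p2⟩, mem_filter.2 ⟨mem_Ioc.2 ⟨p3, p4⟩, h⟩⟩))⟩
    · have := Nat.le_of_dvd (by omega) h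
      refine ⟨q, mem_Ioc.2 ⟨hqP, by omega⟩, mem_union_right _ (mem_union_right _ (mem_union_left _
        (mem_image.2 ⟨(p.1, p.1 + p.2), mem_product.2 ⟨mem_Ioc.2 ⟨p1, p2⟩,
          mem_filter.2 ⟨mem_Ioc.2 ⟨by omega, by simp only; omega⟩, h⟩⟩, ?_⟩)))⟩
      simp
    · have := Nat.le_of_dvd p1 h.1
      refine ⟨q, mem_Ioc.2 ⟨hqP, by omega⟩, mem_union_right _ (mem_union_right _ (mem_union_right _
        (mem_product.2 ⟨mem_filter.2 ⟨mem_Ioc.2 ⟨p1, p2⟩, h.1⟩,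
          mem_filter.2 ⟨mem_Ioc.2 ⟨p3, p4⟩, h.2⟩⟩)))⟩
  have h1 : (E.card : ℝ) ≤ ∑ q ∈ Ioc P0 (P0 + 2 * H), 5 * (H : ℝ) ^ 2 * ((q : ℝ) ^ 2)⁻¹ := by
    have c1 : E.card ≤ ∑ q ∈ Ioc P0 (P0 + 2 * H), ((mul (q ^ 2) H).card * H +
        (H * (mul (q ^ 2) H).card + (H * (mul (q ^ 2) (2 * H)).card +
          (mul q H).card * (mul q H).card))) := by
      refine (card_le_card hcov).trans (card_biUnion_le.trans (sum_le_sum fun q _ => ?_))
      refine (card_union_le _ _).trans (Nat.add_le_add ?_ ((card_union_le _ _).trans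
        (Nat.add_le_add ?_ ((card_union_le _ _).trans (Nat.add_le_add ?_ ?_)))))
      · rw [card_product, Nat.card_Ioc, Nat.sub_zero]
      · rw [card_product, Nat.card_Ioc, Nat.sub_zero]
      · refine card_image_le.trans ?_
        rw [card_product, Nat.card_Ioc, Nat.sub_zero]
      · rw [card_product]
    have c2 : (E.card : ℝ) ≤ ∑ q ∈ Ioc P0 (P0 + 2 * H), (((mul (q ^ 2) H).card : ℝ) * H +
        (H * ((mul (q ^ 2) H).card : ℝ) + (H * ((mul (q ^ 2) (2 * H)).card : ℝ) +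
          ((mul q H).card : ℝ) * ((mul q H).card : ℝ)))) := by exact_mod_cast c1
    refine c2.trans (sum_le_sum fun q hq => ?_)
    have hq0 : (0 : ℝ) < q := by exact_mod_cast (by have := (mem_Ioc.1 hq).1; omega : 0 < q)
    have m1 := hmulc (q ^ 2) H
    have m2 := hmulc (q ^ 2) (2 * H)
    have m3 := hmulc q H
    push_cast at m1 m2
    have hH0 : (0 : ℝ) ≤ H := Nat.cast_nonneg _
    have k1 : ((mul (q ^ 2) H).card : ℝ) * H ≤ (H : ℝ) ^ 2 * ((q : ℝ) ^ 2)⁻¹ := by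
      refine (mul_le_mul_of_nonneg_right m1 hH0).trans (le_of_eq ?_)
      rw [div_eq_mul_inv]; ring
    have k2 : (H : ℝ) * ((mul (q ^ 2) (2 * H)).card : ℝ) ≤ 2 * ((H : ℝ) ^ 2 * ((q : ℝ) ^ 2)⁻¹) := by
      refine (mul_le_mul_of_nonneg_left m2 hH0).trans (le_of_eq ?_)
      rw [div_eq_mul_inv]; ring
    have k3 : ((mul q H).card : ℝ) * ((mul q H).card : ℝ) ≤ (H : ℝ) ^ 2 * ((q : ℝ) ^ 2)⁻¹ := by
      refine (mul_le_mul m3 m3 (Nat.cast_nonneg _) (by positivity)).trans (le_of_eq ?_)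
      rw [← inv_pow, div_eq_mul_inv]
      ring
    linarith
  refine h1.trans ?_
  rw [← mul_sum]
  have h2 := sum_Ioc_inv_sq_le_sub (α := ℝ) (k := P0) (n := P0 + 2 * H) hP0.ne' (by omega)
  have hP0' : (0 : ℝ) < P0 := by exact_mod_cast hP0
  have h3 : ∑ q ∈ Ioc P0 (P0 + 2 * H), ((q : ℝ) ^ 2)⁻¹ ≤ (P0 : ℝ)⁻¹ := by
    refine h2.trans ?_
    have : (0 : ℝ) ≤ ((P0 + 2 * H : ℕ) : ℝ)⁻¹ := by positivity
    linarith
  calc 5 * (H : ℝ) ^ 2 * ∑ q ∈ Ioc P0 (P0 + 2 * H), ((q : ℝ) ^ 2)⁻¹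
      ≤ 5 * (H : ℝ) ^ 2 * (P0 : ℝ)⁻¹ := mul_le_mul_of_nonneg_left h3 (by positivity)
    _ ≤ 5 * (x ^ 2 / η) * (P0 : ℝ)⁻¹ := by
        refine mul_le_mul_of_nonneg_right (mul_le_mul_of_nonneg_left hH2 (by norm_num)) (by positivity)
    _ = _ := by
        field_simp

lemma sum_inv_sqrt (m : ℕ) : ∑ a ∈ Icc 1 m, (Real.sqrt a)⁻¹ ≤ 2 * Real.sqrt m := by
  induction m with
  | zero => simp
  | succ n ih =>
    rw [Finset.sum_Icc_succ_top (by omega)]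
    have h1 : (0 : ℝ) < Real.sqrt ((n + 1 : ℕ) : ℝ) := Real.sqrt_pos.2 (by positivity)
    have h0 : (0 : ℝ) ≤ Real.sqrt (n : ℝ) := Real.sqrt_nonneg _
    have e1 : Real.sqrt ((n + 1 : ℕ) : ℝ) ^ 2 = n + 1 := by
      rw [Real.sq_sqrt (by positivity)]
      push_cast
      ring
    have e2 : Real.sqrt (n : ℝ) ^ 2 = n := Real.sq_sqrt (Nat.cast_nonneg _)
    have h2 : (Real.sqrt ((n + 1 : ℕ) : ℝ))⁻¹ ≤
        2 * Real.sqrt ((n + 1 : ℕ) : ℝ) - 2 * Real.sqrt n := by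
      rw [inv_le_iff_one_le_mul₀ h1]
      nlinarith [sq_nonneg (Real.sqrt ((n + 1 : ℕ) : ℝ) - Real.sqrt n)]
    linarith

/-- the pairs in the cusp -/
lemma cusp_count {η x : ℝ} (hη : 0 < η) (hx : 1 ≤ x) (E : Finset (ℕ × ℕ))
    (hE : ∀ p ∈ E, p ∈ VV x ∧ (p.1 : ℝ) < η * x) : (E.card : ℝ) ≤ 2 * Real.sqrt η * x ^ 2 := by
  classical
  have hx0 : 0 < x := by linarith
  obtain ⟨m, hm⟩ : ∃ m : ℕ, m = ⌊η * x⌋₊ := ⟨_, rfl⟩
  have hm1 : (m : ℝ) ≤ η * x := by rw [hm]; exact Nat.floor_le (by positivity)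
  have h1 : E.card ≤ ∑ a ∈ Icc 1 m, (Ioc 0 ⌊Real.sqrt (x ^ 3 / a)⌋₊).card := by
    rw [← card_sigma]
    refine card_le_card_of_injOn (fun p => ⟨p.1, p.2⟩) ?_ ?_
    · intro p hp
      obtain ⟨hV, h2⟩ := hE p hp
      have h3 := VV_le hV
      obtain ⟨v1, v2, v3⟩ := hV
      have a1 : (0 : ℝ) < p.1 := by exact_mod_cast v1
      rw [mem_coe, mem_sigma, mem_Icc, mem_Ioc]
      refine ⟨⟨v1, ?_⟩, by simp only; omega, ?_⟩
      · rw [hm]
        exact Nat.le_floor h2.le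
      · refine Nat.le_floor (Real.le_sqrt_of_sq_le ?_)
        rw [le_div_iff₀ a1]
        linarith
    · intro p _ p' _ h
      simp only [Sigma.mk.injEq, heq_eq_eq] at h
      exact Prod.ext h.1 h.2
  have h2 : (E.card : ℝ) ≤ ∑ a ∈ Icc 1 m, Real.sqrt (x ^ 3) * (Real.sqrt a)⁻¹ := by
    have : (E.card : ℝ) ≤ ∑ a ∈ Icc 1 m, ((Ioc 0 ⌊Real.sqrt (x ^ 3 / a)⌋₊).card : ℝ) := by
      exact_mod_cast h1
    refine this.trans (sum_le_sum fun a _ => ?_)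
    rw [Nat.card_Ioc, Nat.sub_zero]
    refine (Nat.floor_le (Real.sqrt_nonneg _)).trans (le_of_eq ?_)
    rw [Real.sqrt_div (by positivity), div_eq_mul_inv]
  rw [← mul_sum] at h2
  refine h2.trans ?_
  calc Real.sqrt (x ^ 3) * ∑ a ∈ Icc 1 m, (Real.sqrt a)⁻¹
      ≤ Real.sqrt (x ^ 3) * (2 * Real.sqrt m) :=
        mul_le_mul_of_nonneg_left (sum_inv_sqrt m) (Real.sqrt_nonneg _)
    _ ≤ Real.sqrt (x ^ 3) * (2 * Real.sqrt (η * x)) := by
        refine mul_le_mul_of_nonneg_left ?_ (Real.sqrt_nonneg _)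
        exact mul_le_mul_of_nonneg_left (Real.sqrt_le_sqrt hm1) (by norm_num)
    _ = 2 * Real.sqrt η * x ^ 2 := by
        rw [Real.sqrt_mul hη.le]
        have : Real.sqrt (x ^ 3) * Real.sqrt x = x ^ 2 := by
          rw [← Real.sqrt_mul (by positivity), show x ^ 3 * x = (x ^ 2) ^ 2 by ring,
            Real.sqrt_sq (by positivity)]
        calc Real.sqrt (x ^ 3) * (2 * (Real.sqrt η * Real.sqrt x))
            = 2 * Real.sqrt η * (Real.sqrt (x ^ 3) * Real.sqrt x) := by ring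
          _ = _ := by rw [this]

/-- **The approximation.** -/
theorem Nw_approx {w : ℕ} (hw : 0 < w) {ε : ℝ} (hε : 0 < ε) : ∃ L C : ℝ, ∀ x : ℝ, 1 ≤ x →
    |((Nw w x).ncard : ℝ) - L * x ^ 2| ≤ ε * x ^ 2 + C * x := by
  classical
  -- the parameters
  obtain ⟨η, hη⟩ : ∃ η : ℝ, η = min 1 ((ε / 4) ^ 2) := ⟨_, rfl⟩
  have hη0 : 0 < η := by rw [hη]; positivity
  have hη1 : η ≤ 1 := by rw [hη]; exact min_le_left _ _
  have hηs : 2 * Real.sqrt η ≤ ε / 2 := by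
    have : Real.sqrt η ≤ ε / 4 := by
      rw [Real.sqrt_le_left (by positivity), hη]
      exact min_le_right _ _
    linarith
  obtain ⟨P0, hP0⟩ : ∃ P0 : ℕ, P0 = max (w + 1) ⌈10 / (η * ε)⌉₊ := ⟨_, rfl⟩
  have hP0w : w + 1 ≤ P0 := by rw [hP0]; exact le_max_left _ _
  have hP0pos : (0 : ℝ) < P0 := by exact_mod_cast (by omega : 0 < P0)
  have hP0e : 5 / (η * P0) ≤ ε / 2 := by
    have h1 : 10 / (η * ε) ≤ P0 := by
      refine (Nat.le_ceil _).trans ?_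
      rw [hP0]
      exact_mod_cast le_max_right _ _
    rw [div_le_iff₀ (by positivity)] at h1
    rw [div_le_iff₀ (by positivity)]
    nlinarith
  obtain ⟨Q, hQ⟩ : ∃ Q : ℕ, Q = Qm w P0 := ⟨_, rfl⟩
  have hQ0 : 0 < Q := by rw [hQ]; exact Qm_pos _ _
  choose L C hLC using fun t : ℕ × ℕ => class_count hη0 hη1 hQ0 t.1 t.2
  set T : Finset (ℕ × ℕ) := (range Q ×ˢ range Q).filter (fun t => Rloc w P0 t) with hT
  refine ⟨∑ t ∈ T, L t, ∑ t ∈ T, C t, fun x hx => ?_⟩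
  have hx0 : 0 < x := by linarith
  have hNfin : (Nw w x).Finite := (VV_finite x).subset fun p hp => ⟨hp.1, hp.2.1, hp.2.2.2.2⟩
  set NF : Finset (ℕ × ℕ) := hNfin.toFinset with hNF
  set UF : Finset (ℕ × ℕ) := T.biUnion (fun t => (hLC t x hx).1.toFinset) with hUF
  have hNc : ((Nw w x).ncard : ℝ) = (NF.card : ℝ) := by
    rw [hNF, Set.ncard_eq_toFinset_card _ hNfin]
  have hUc : (UF.card : ℝ) = ∑ t ∈ T, ((Cls η Q t.1 t.2 x).ncard : ℝ) := by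
    rw [hUF, card_biUnion]
    · push_cast
      refine sum_congr rfl fun t _ => ?_
      exact_mod_cast (Set.ncard_eq_toFinset_card _ (hLC t x hx).1).symm
    · intro t ht t' ht' hne
      rw [Function.onFun, disjoint_left]
      intro p hp hp'
      rw [Set.Finite.mem_toFinset] at hp hp'
      apply hne
      have u1 := (mem_product.1 (mem_filter.1 ht).1)
      have u2 := (mem_product.1 (mem_filter.1 ht').1)
      rw [mem_range, mem_range] at u1 u2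
      have v1 := hp.2.2.2.2.1.symm.trans hp'.2.2.2.2.1
      have v2 := hp.2.2.2.2.2.symm.trans hp'.2.2.2.2.2
      rw [Nat.mod_eq_of_lt u1.1, Nat.mod_eq_of_lt u2.1] at v1
      rw [Nat.mod_eq_of_lt u1.2, Nat.mod_eq_of_lt u2.2] at v2
      exact Prod.ext v1 v2
  have hU : |(UF.card : ℝ) - (∑ t ∈ T, L t) * x ^ 2| ≤ (∑ t ∈ T, C t) * x := by
    rw [hUc, sum_mul, sum_mul, ← sum_sub_distrib]
    exact (abs_sum_le_sum_abs _ _).trans (sum_le_sum fun t _ => (hLC t x hx).2)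
  -- the two differences
  have hd1 : ((NF \ UF).card : ℝ) ≤ 2 * Real.sqrt η * x ^ 2 := by
    refine cusp_count hη0 hx _ fun p hp => ?_
    obtain ⟨hpN, hpU⟩ := Finset.mem_sdiff.1 hp
    rw [hNF, Set.Finite.mem_toFinset] at hpN
    obtain ⟨a1, a2, a3, a4, a5⟩ := hpN
    refine ⟨⟨a1, a2, a5⟩, ?_⟩
    by_contra hcon
    push Not at hcon
    apply hpU
    rw [hUF, mem_biUnion]
    refine ⟨(p.1 % Q, p.2 % Q), ?_, ?_⟩
    · rw [hT, mem_filter, mem_product, mem_range, mem_range]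
      refine ⟨⟨Nat.mod_lt _ hQ0, Nat.mod_lt _ hQ0⟩, ?_⟩
      refine Rloc_congr hw (p := p) ?_ ?_ (Rloc_of hw a1 (by omega) a3 a4)
      · rw [← hQ, Nat.mod_mod]
      · rw [← hQ, Nat.mod_mod]
    · rw [Set.Finite.mem_toFinset]
      exact ⟨a1, a2, hcon, a5, (Nat.mod_mod _ _).symm, (Nat.mod_mod _ _).symm⟩
  have hd2 : ((UF \ NF).card : ℝ) ≤ 5 * x ^ 2 / (η * P0) := by
    refine bad_count hη0 hx (by omega) _ fun p hp => ?_
    obtain ⟨hpU, hpN⟩ := Finset.mem_sdiff.1 hp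
    rw [hUF, mem_biUnion] at hpU
    obtain ⟨t, ht, hpt⟩ := hpU
    rw [Set.Finite.mem_toFinset] at hpt
    obtain ⟨a1, a2, a3, a4, a5, a6⟩ := hpt
    refine ⟨⟨a1, a2, a4⟩, a3, ?_⟩
    by_contra hcon
    push Not at hcon
    apply hpN
    rw [hNF, Set.Finite.mem_toFinset]
    have hR : Rloc w P0 p := by
      refine Rloc_congr hw (p := t) ?_ ?_ (mem_filter.1 ht).2
      · rw [← hQ]; exact a5.symm
      · rw [← hQ]; exact a6.symm
    obtain ⟨b1, b2⟩ := of_Rloc hw (by omega) a1 (by omega) hR (by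
      intro q hq hqP
      obtain ⟨c1, c2⟩ := hcon q hq hqP
      exact ⟨fun h => c1 h.1 h.2, c2⟩)
    exact ⟨a1, a2, b1, b2, a4⟩
  have hd3 : |(NF.card : ℝ) - UF.card| ≤ (NF \ UF).card + (UF \ NF).card := by
    have e1 : (NF.card : ℝ) ≤ UF.card + (NF \ UF).card := by
      have : NF.card ≤ UF.card + (NF \ UF).card := by
        have := card_le_card_sdiff_add_card (s := NF) (t := UF)
        omega
      exact_mod_cast this
    have e2 : (UF.card : ℝ) ≤ NF.card + (UF \ NF).card := by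
      have : UF.card ≤ NF.card + (UF \ NF).card := by
        have := card_le_card_sdiff_add_card (s := UF) (t := NF)
        omega
      exact_mod_cast this
    have n1 : (0 : ℝ) ≤ ((NF \ UF).card : ℝ) := Nat.cast_nonneg _
    have n2 : (0 : ℝ) ≤ ((UF \ NF).card : ℝ) := Nat.cast_nonneg _
    rw [abs_le]
    constructor <;> linarith
  rw [hNc]
  have e : (NF.card : ℝ) - (∑ t ∈ T, L t) * x ^ 2 =
      (NF.card - UF.card) + (UF.card - (∑ t ∈ T, L t) * x ^ 2) := by ring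
  rw [e]
  refine (abs_add_le _ _).trans ?_
  have h5 : 5 * x ^ 2 / (η * P0) = 5 / (η * P0) * x ^ 2 := by ring
  have h6 : 5 / (η * P0) * x ^ 2 ≤ ε / 2 * x ^ 2 := mul_le_mul_of_nonneg_right hP0e (by positivity)
  have h7 : 2 * Real.sqrt η * x ^ 2 ≤ ε / 2 * x ^ 2 := mul_le_mul_of_nonneg_right hηs (by positivity)
  linarith

/-- a function with good approximations converges -/
lemma tendsto_of_approx {F : ℝ → ℝ} (h : ∀ ε : ℝ, 0 < ε → ∃ L : ℝ, ∀ᶠ x in atTop, |F x - L| ≤ ε) :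
    ∃ L : ℝ, Tendsto F atTop (𝓝 L) := by
  rw [← cauchy_map_iff_exists_tendsto, Metric.cauchy_iff]
  refine ⟨by infer_instance, fun ε hε => ?_⟩
  obtain ⟨L, hL⟩ := h (ε / 3) (by positivity)
  refine ⟨F '' {x | |F x - L| ≤ ε / 3}, image_mem_map hL, ?_⟩
  rintro _ ⟨x, hx, rfl⟩ _ ⟨y, hy, rfl⟩
  rw [Set.mem_ofPred_eq] at hx hy
  rw [Real.dist_eq]
  have e : F x - F y = (F x - L) - (F y - L) := by ring
  rw [e]
  have := abs_sub (F x - L) (F y - L)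
  linarith

/-- **The density of the triples with repeated part `w`.** -/
theorem Nw_limit {w : ℕ} (hw : 0 < w) : ∃ κ : ℝ,
    Tendsto (fun x : ℝ => ((Nw w x).ncard : ℝ) / x ^ 2) atTop (𝓝 κ) := by
  refine tendsto_of_approx fun ε hε => ?_
  obtain ⟨L, C, h⟩ := Nw_approx hw (ε := ε / 2) (by positivity)
  refine ⟨L, ?_⟩
  filter_upwards [eventually_ge_atTop (max 1 (2 * |C| / ε))] with x hx
  have hx1 : 1 ≤ x := (le_max_left _ _).trans hx
  have hx2 : 2 * |C| / ε ≤ x := (le_max_right _ _).trans hx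
  have hx0 : 0 < x := by linarith
  have h1 := h x hx1
  have e : ((Nw w x).ncard : ℝ) / x ^ 2 - L = (((Nw w x).ncard : ℝ) - L * x ^ 2) / x ^ 2 := by
    field_simp
  rw [e, abs_div, abs_of_pos (by positivity : 0 < x ^ 2), div_le_iff₀ (by positivity)]
  rw [div_le_iff₀ hε] at hx2
  have h2 : C * x ≤ ε / 2 * x ^ 2 := by
    have := le_abs_self C
    nlinarith
  linarith

end Pool.Agent.TH498.AR
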