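import Pool.Agent.TH498.AR.Wt

set_option autoImplicit false

/-!
# The negligible pairs of small height
-/

namespace Pool.Agent.TH498.AR

open Finset

/-- numbers with a large repeated part -/
theorem single_count : ∃ C1 C2 : ℝ, 1 ≤ C1 ∧ 1 ≤ C2 ∧ ∀ (P : Finset ℕ) (Z : ℕ) (D : ℝ), 0 < D →
    ∀ E : Finset ℕ, (∀ n ∈ E, n ∈ Icc 1 Z ∧ D ≤ (psiP P n : ℝ)) →
    (E.card : ℝ) ≤ C1 * C2 ^ P.card * Z * D ^ (-(1 / 2) : ℝ) := by
  classical
  obtain ⟨K1, K2, hK1, hK2, hK⟩ := sum_bound (1 / 2) (by norm_num)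
  refine ⟨K1, K2, hK1, hK2, ?_⟩
  intro P Z D hD E hE
  have hmap : ∀ n ∈ E, psiP P n ∈ Icc 1 Z := by
    intro n hn
    obtain ⟨a1, -⟩ := hE n hn
    obtain ⟨b1, b2⟩ := mem_Icc.1 a1
    refine mem_Icc.2 ⟨psiP_pos b1, le_trans ?_ b2⟩
    exact Nat.div_le_self _ _
  have h1 : E.card = ∑ m ∈ Icc 1 Z, (E.filter (fun n => psiP P n = m)).card :=
    card_eq_sum_card_fiberwise hmap
  have h2 : ∀ m ∈ Icc 1 Z, ((E.filter (fun n => psiP P n = m)).card : ℝ) ≤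
      Z * D ^ (-(1 / 2) : ℝ) * ff (1 / 2) P m := by
    intro m hm
    have hnn : 0 ≤ Z * D ^ (-(1 / 2) : ℝ) * ff (1 / 2) P m := by
      have := ff_nonneg (1 / 2) P m
      positivity
    rcases (E.filter (fun n => psiP P n = m)).eq_empty_or_nonempty with he | ⟨n0, hn0⟩
    · rw [he, card_empty]
      simpa using hnn
    obtain ⟨hnE, hnm⟩ := mem_filter.1 hn0
    have hDm : D ≤ (m : ℝ) := by rw [← hnm]; exact (hE n0 hnE).2
    have hm1 : 1 ≤ m := (mem_Icc.1 hm).1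
    have h3 : (E.filter (fun n => psiP P n = m)).card ≤ Z / (m * radP P m) := by
      rw [← Nat.Ioc_filter_dvd_card_eq_div]
      refine card_le_card ?_
      intro n hn
      obtain ⟨hnE', hnm'⟩ := mem_filter.1 hn
      have := mem_Icc.1 (hE n hnE').1
      refine mem_filter.2 ⟨mem_Ioc.2 ⟨by omega, this.2⟩, ?_⟩
      rw [← hnm']
      exact mod_dvd this.1
    have h4 : ((E.filter (fun n => psiP P n = m)).card : ℝ) ≤ (Z : ℝ) / (m * radP P m) := by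
      have : ((Z / (m * radP P m) : ℕ) : ℝ) ≤ (Z : ℝ) / (m * radP P m) := by
        have := Nat.cast_div_le (α := ℝ) (m := Z) (n := m * radP P m)
        push_cast at this
        exact this
      exact le_trans (by exact_mod_cast h3) this
    refine h4.trans ?_
    have n1 : (0 : ℝ) < m := by exact_mod_cast hm1
    have r1 : (0 : ℝ) < radP P m := by exact_mod_cast radP_pos P m
    have key : 1 / ((m : ℝ) * radP P m) = (m : ℝ) ^ (-(1 / 2) : ℝ) * ff (1 / 2) P m := by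
      unfold ff
      rw [mul_div_assoc', ← Real.rpow_add n1]
      have : -(1 / 2) + -(1 / 2) = (-1 : ℝ) := by norm_num
      rw [this, Real.rpow_neg_one]
      field_simp
    have hpow : (m : ℝ) ^ (-(1 / 2) : ℝ) ≤ D ^ (-(1 / 2) : ℝ) :=
      Real.rpow_le_rpow_of_nonpos hD hDm (by norm_num)
    calc (Z : ℝ) / (m * radP P m) = Z * (1 / ((m : ℝ) * radP P m)) := by ring
      _ = Z * ((m : ℝ) ^ (-(1 / 2) : ℝ) * ff (1 / 2) P m) := by rw [key]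
      _ ≤ Z * (D ^ (-(1 / 2) : ℝ) * ff (1 / 2) P m) := by
          refine mul_le_mul_of_nonneg_left (mul_le_mul_of_nonneg_right hpow (ff_nonneg _ _ _))
            (Nat.cast_nonneg _)
      _ = _ := by ring
  rw [h1]
  push_cast
  refine (sum_le_sum h2).trans ?_
  rw [← mul_sum]
  have h5 := hK P Z
  have h6 : 0 ≤ (Z : ℝ) * D ^ (-(1 / 2) : ℝ) := by positivity
  calc (Z : ℝ) * D ^ (-(1 / 2) : ℝ) * ∑ m ∈ Icc 1 Z, ff (1 / 2) P m
      ≤ (Z : ℝ) * D ^ (-(1 / 2) : ℝ) * (K1 * K2 ^ P.card) := mul_le_mul_of_nonneg_left h5 h6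
    _ = _ := by ring

/-- pairs with a large repeated part -/
theorem pair_count : ∃ C1 C2 : ℝ, 1 ≤ C1 ∧ 1 ≤ C2 ∧ ∀ (P : Finset ℕ) (Z : ℕ) (D : ℝ), 0 < D →
    ∀ E : Finset (ℕ × ℕ), (∀ p ∈ E, 0 < p.1 ∧ 0 < p.2 ∧ p.1 + p.2 ≤ Z ∧ D ≤ (psi3 P p : ℝ)) →
    (E.card : ℝ) ≤ C1 * C2 ^ P.card * Z ^ 2 * D ^ (-(1 / 6) : ℝ) := by
  classical
  obtain ⟨K1, K2, hK1, hK2, hK⟩ := single_count
  refine ⟨3 * K1, K2, by linarith, hK2, ?_⟩
  intro P Z D hD E hE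
  obtain ⟨d, hd⟩ : ∃ d : ℝ, d = D ^ ((1 : ℝ) / 3) := ⟨_, rfl⟩
  have hd0 : 0 < d := by rw [hd]; positivity
  have hd3 : d * d * d = D := by
    rw [hd, ← Real.rpow_add hD, ← Real.rpow_add hD]
    norm_num
  have hdm : d ^ (-(1 / 2) : ℝ) = D ^ (-(1 / 6) : ℝ) := by
    rw [hd, ← Real.rpow_mul hD.le]
    norm_num
  set S : Finset ℕ := (Icc 1 Z).filter (fun n => d ≤ (psiP P n : ℝ)) with hS
  have hSc : (S.card : ℝ) ≤ K1 * K2 ^ P.card * Z * D ^ (-(1 / 6) : ℝ) := by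
    rw [← hdm]
    exact hK P Z d hd0 S fun n hn => mem_filter.1 hn
  have hcov : E ⊆ (S ×ˢ Icc 1 Z) ∪ ((Icc 1 Z ×ˢ S) ∪
      ((Icc 1 Z ×ˢ S).image (fun q : ℕ × ℕ => (q.1, q.2 - q.1)))) := by
    intro p hp
    obtain ⟨a1, a2, a3, a4⟩ := hE p hp
    by_contra hcon
    rw [mem_union, mem_union, not_or, not_or] at hcon
    obtain ⟨c1, c2, c3⟩ := hcon
    have b1 : (psiP P p.1 : ℝ) < d := by
      by_contra h
      push Not at h
      exact c1 (mem_product.2 ⟨mem_filter.2 ⟨mem_Icc.2 ⟨a1, by omega⟩, h⟩, mem_Icc.2 ⟨a2, by omega⟩⟩)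
    have b2 : (psiP P p.2 : ℝ) < d := by
      by_contra h
      push Not at h
      exact c2 (mem_product.2 ⟨mem_Icc.2 ⟨a1, by omega⟩, mem_filter.2 ⟨mem_Icc.2 ⟨a2, by omega⟩, h⟩⟩)
    have b3 : (psiP P (p.1 + p.2) : ℝ) < d := by
      by_contra h
      push Not at h
      refine c3 (mem_image.2 ⟨(p.1, p.1 + p.2), mem_product.2 ⟨mem_Icc.2 ⟨a1, by omega⟩,
        mem_filter.2 ⟨mem_Icc.2 ⟨by omega, a3⟩, h⟩⟩, ?_⟩)
      simp
    have b4 : (psi3 P p : ℝ) < d * d * d := by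
      unfold psi3
      push_cast
      have z1 : (0 : ℝ) < psiP P p.1 := by exact_mod_cast psiP_pos a1
      have z2 : (0 : ℝ) < psiP P p.2 := by exact_mod_cast psiP_pos a2
      have z3 : (0 : ℝ) < psiP P (p.1 + p.2) := by exact_mod_cast psiP_pos (by omega : 0 < p.1 + p.2)
      have k1 : (psiP P p.1 : ℝ) * psiP P p.2 < d * d := mul_lt_mul'' b1 b2 z1.le z2.le
      exact mul_lt_mul'' k1 b3 (by positivity) z3.le
    rw [hd3] at b4
    linarith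
  have h1 : E.card ≤ S.card * Z + (Z * S.card + Z * S.card) := by
    refine (card_le_card hcov).trans ((card_union_le _ _).trans ?_)
    refine Nat.add_le_add ?_ ((card_union_le _ _).trans (Nat.add_le_add ?_ ?_))
    · rw [card_product, Nat.card_Icc]
      simp
    · rw [card_product, Nat.card_Icc]
      simp
    · refine card_image_le.trans ?_
      rw [card_product, Nat.card_Icc]
      simp
  have h2 : (E.card : ℝ) ≤ 3 * Z * S.card := by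
    have : (E.card : ℝ) ≤ S.card * Z + (Z * S.card + Z * S.card) := by exact_mod_cast h1
    linarith
  calc (E.card : ℝ) ≤ 3 * Z * S.card := h2
    _ ≤ 3 * Z * (K1 * K2 ^ P.card * Z * D ^ (-(1 / 6) : ℝ)) :=
        mul_le_mul_of_nonneg_left hSc (by positivity)
    _ = _ := by ring

/-- **The negligible pairs of small height.** -/
theorem neg_count : ∃ C1 C2 : ℝ, 1 ≤ C1 ∧ 1 ≤ C2 ∧ ∀ (P : Finset ℕ) (N : ℝ), 1 ≤ N →
    ∀ E : Finset (ℕ × ℕ), (∀ p ∈ E, 0 < p.1 ∧ 0 < p.2 ∧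
      ((p.1 + p.2 : ℕ) : ℝ) ≤ N ^ (1 / 3 + 1 / 240 : ℝ) ∧
      ¬ (psi3 P p ≤ ⌊N ^ (1 / 10 : ℝ)⌋₊ ∧ ⌊N ^ (1 / 10 : ℝ)⌋₊ ^ 2 ≤ p.1)) →
    (E.card : ℝ) ≤ C1 * C2 ^ P.card * N ^ (2 / 3 - 1 / 120 : ℝ) := by
  classical
  obtain ⟨K1, K2, hK1, hK2, hK⟩ := pair_count
  refine ⟨K1 + 1, K2, by linarith, hK2, ?_⟩
  intro P N hN E hE
  have hN0 : 0 < N := by linarith
  obtain ⟨M, hM⟩ : ∃ M : ℕ, M = ⌊N ^ (1 / 10 : ℝ)⌋₊ := ⟨_, rfl⟩
  rw [← hM] at hE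
  have hMle : (M : ℝ) ≤ N ^ (1 / 10 : ℝ) := by rw [hM]; exact Nat.floor_le (by positivity)
  have hMlt : N ^ (1 / 10 : ℝ) < M + 1 := by rw [hM]; exact Nat.lt_floor_add_one _
  obtain ⟨Z, hZ⟩ : ∃ Z : ℕ, Z = ⌊N ^ (1 / 3 + 1 / 240 : ℝ)⌋₊ := ⟨_, rfl⟩
  have hZle : (Z : ℝ) ≤ N ^ (1 / 3 + 1 / 240 : ℝ) := by rw [hZ]; exact Nat.floor_le (by positivity)
  have hsplit := card_filter_add_card_filter_not (s := E) (fun p => psi3 P p ≤ M)
  have h1 : ((E.filter (fun p => ¬ psi3 P p ≤ M)).card : ℝ) ≤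
      K1 * K2 ^ P.card * N ^ (2 / 3 - 1 / 120 : ℝ) := by
    have := hK P Z (N ^ (1 / 10 : ℝ)) (by positivity) (E.filter (fun p => ¬ psi3 P p ≤ M)) (by
      intro p hp
      obtain ⟨hpE, hpM⟩ := mem_filter.1 hp
      obtain ⟨a1, a2, a3, _⟩ := hE p hpE
      refine ⟨a1, a2, ?_, ?_⟩
      · rw [hZ]; exact Nat.le_floor a3
      · have : (M : ℝ) + 1 ≤ (psi3 P p : ℝ) := by exact_mod_cast (by omega : M + 1 ≤ psi3 P p)
        linarith)
    refine this.trans ?_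
    have e1 : (Z : ℝ) ^ 2 ≤ N ^ (2 / 3 + 1 / 120 : ℝ) := by
      calc (Z : ℝ) ^ 2 ≤ (N ^ (1 / 3 + 1 / 240 : ℝ)) ^ 2 :=
            pow_le_pow_left₀ (Nat.cast_nonneg _) hZle 2
        _ = _ := by
            rw [← Real.rpow_natCast, ← Real.rpow_mul hN0.le]
            norm_num
    have e2 : (N ^ (1 / 10 : ℝ)) ^ (-(1 / 6) : ℝ) = N ^ (-(1 / 60) : ℝ) := by
      rw [← Real.rpow_mul hN0.le]
      norm_num
    rw [e2]
    have e3 : N ^ (2 / 3 - 1 / 120 : ℝ) = N ^ (2 / 3 + 1 / 120 : ℝ) * N ^ (-(1 / 60) : ℝ) := by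
      rw [← Real.rpow_add hN0]
      norm_num
    rw [e3]
    have hk : 0 ≤ K1 * K2 ^ P.card := by
      have : 0 ≤ K1 := by linarith
      have : 0 ≤ K2 := by linarith
      positivity
    calc K1 * K2 ^ P.card * (Z : ℝ) ^ 2 * N ^ (-(1 / 60) : ℝ)
        ≤ K1 * K2 ^ P.card * N ^ (2 / 3 + 1 / 120 : ℝ) * N ^ (-(1 / 60) : ℝ) := by
          refine mul_le_mul_of_nonneg_right (mul_le_mul_of_nonneg_left e1 hk) (by positivity)
      _ = _ := by ring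
  have h2 : ((E.filter (fun p => psi3 P p ≤ M)).card : ℝ) ≤
      1 * K2 ^ P.card * N ^ (2 / 3 - 1 / 120 : ℝ) := by
    have c1 : (E.filter (fun p => psi3 P p ≤ M)).card ≤ M ^ 2 * Z := by
      have : E.filter (fun p => psi3 P p ≤ M) ⊆ range (M ^ 2) ×ˢ Icc 1 Z := by
        intro p hp
        obtain ⟨hpE, hpM⟩ := mem_filter.1 hp
        obtain ⟨a1, a2, a3, a4⟩ := hE p hpE
        have a5 : p.1 < M ^ 2 := by
          by_contra h
          exact a4 ⟨hpM, by omega⟩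
        have a6 : p.1 + p.2 ≤ Z := by rw [hZ]; exact Nat.le_floor a3
        exact mem_product.2 ⟨mem_range.2 a5, mem_Icc.2 ⟨a2, by omega⟩⟩
      refine (card_le_card this).trans ?_
      rw [card_product, card_range, Nat.card_Icc]
      simp
    have c2 : ((E.filter (fun p => psi3 P p ≤ M)).card : ℝ) ≤ (M : ℝ) ^ 2 * Z := by exact_mod_cast c1
    refine c2.trans ?_
    have e1 : (M : ℝ) ^ 2 ≤ N ^ (1 / 5 : ℝ) := by
      calc (M : ℝ) ^ 2 ≤ (N ^ (1 / 10 : ℝ)) ^ 2 := pow_le_pow_left₀ (Nat.cast_nonneg _) hMle 2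
        _ = _ := by
            rw [← Real.rpow_natCast, ← Real.rpow_mul hN0.le]
            norm_num
    have e2 : (M : ℝ) ^ 2 * Z ≤ N ^ (2 / 3 - 1 / 120 : ℝ) := by
      calc (M : ℝ) ^ 2 * Z ≤ N ^ (1 / 5 : ℝ) * N ^ (1 / 3 + 1 / 240 : ℝ) :=
            mul_le_mul e1 hZle (Nat.cast_nonneg _) (by positivity)
        _ = N ^ (1 / 5 + (1 / 3 + 1 / 240) : ℝ) := by rw [← Real.rpow_add hN0]
        _ ≤ _ := Real.rpow_le_rpow_of_exponent_le hN (by norm_num)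
    refine e2.trans ?_
    have : 1 ≤ K2 ^ P.card := one_le_pow₀ hK2
    have h0 : 0 ≤ N ^ (2 / 3 - 1 / 120 : ℝ) := by positivity
    nlinarith
  have h3 : (E.card : ℝ) = ((E.filter (fun p => psi3 P p ≤ M)).card : ℝ) +
      ((E.filter (fun p => ¬ psi3 P p ≤ M)).card : ℝ) := by exact_mod_cast hsplit.symm
  rw [h3]
  calc _ ≤ 1 * K2 ^ P.card * N ^ (2 / 3 - 1 / 120 : ℝ) +
        K1 * K2 ^ P.card * N ^ (2 / 3 - 1 / 120 : ℝ) := add_le_add h2 h1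
    _ = _ := by ring

end Pool.Agent.TH498.AR
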