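import Mathlib

set_option autoImplicit false

/-!
# The number of points of a residue class below the curve `s t (s + t) = 1`
-/

namespace Pool.Agent.TH498.AR

open Finset Filter Topology

/-- the upper end of the interval of `t` with `s t (s + t) ≤ 1` -/
noncomputable def gg (s : ℝ) : ℝ := 2 / (s ^ 2 + Real.sqrt (s ^ 4 + 4 * s))

lemma gg_den {s : ℝ} (hs : 0 < s) : 0 < s ^ 2 + Real.sqrt (s ^ 4 + 4 * s) := by positivity

lemma gg_pos {s : ℝ} (hs : 0 < s) : 0 < gg s := div_pos two_pos (gg_den hs)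

lemma gg_iff {s t : ℝ} (hs : 0 < s) (ht : 0 < t) : t ≤ gg s ↔ s * t * (s + t) ≤ 1 := by
  unfold gg
  rw [le_div_iff₀ (gg_den hs)]
  obtain ⟨r, hr⟩ : ∃ r : ℝ, r = Real.sqrt (s ^ 4 + 4 * s) := ⟨_, rfl⟩
  have hr0 : 0 ≤ r := by rw [hr]; exact Real.sqrt_nonneg _
  have hr2 : r ^ 2 = s ^ 4 + 4 * s := by rw [hr]; exact Real.sq_sqrt (by positivity)
  rw [← hr]
  constructor
  · intro h
    have h1 : t * r ≤ 2 - t * s ^ 2 := by nlinarith
    have h2 : 0 ≤ t * r := by positivity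
    have h3 : (t * r) ^ 2 ≤ (2 - t * s ^ 2) ^ 2 := pow_le_pow_left₀ h2 h1 2
    have h4 : (t * r) ^ 2 = t ^ 2 * (s ^ 4 + 4 * s) := by rw [mul_pow, hr2]
    rw [h4] at h3
    nlinarith
  · intro h
    by_contra hcon
    push Not at hcon
    have h0 : s * t * t > 0 := by positivity
    have h1 : 0 ≤ 2 - t * s ^ 2 := by nlinarith
    have h2 : 2 - t * s ^ 2 < t * r := by nlinarith
    have h3 : (2 - t * s ^ 2) ^ 2 < (t * r) ^ 2 := pow_lt_pow_left₀ h2 h1 (by norm_num)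
    have h4 : (t * r) ^ 2 = t ^ 2 * (s ^ 4 + 4 * s) := by rw [mul_pow, hr2]
    rw [h4] at h3
    nlinarith

lemma gg_anti {s s' : ℝ} (hs : 0 < s) (h : s ≤ s') : gg s' ≤ gg s := by
  unfold gg
  refine div_le_div_of_nonneg_left (by norm_num) (gg_den hs) ?_
  have h1 : s ^ 2 ≤ s' ^ 2 := pow_le_pow_left₀ hs.le h 2
  have h2 : s ^ 4 ≤ s' ^ 4 := pow_le_pow_left₀ hs.le h 4
  have h3 : Real.sqrt (s ^ 4 + 4 * s) ≤ Real.sqrt (s' ^ 4 + 4 * s') :=
    Real.sqrt_le_sqrt (by linarith)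
  linarith

lemma gg_lt {s : ℝ} (hs : 1 ≤ s) : gg s < s := by
  by_contra h
  push Not at h
  rw [gg_iff (by linarith) (by linarith)] at h
  have : 1 ≤ s * s := by nlinarith
  nlinarith

/-- the length of the interval of `t ≥ s` -/
noncomputable def Phi (s : ℝ) : ℝ := max 0 (gg s - s)

lemma Phi_nonneg (s : ℝ) : 0 ≤ Phi s := le_max_left _ _

lemma Phi_anti {s s' : ℝ} (hs : 0 < s) (h : s ≤ s') : Phi s' ≤ Phi s := by
  unfold Phi
  refine max_le_max le_rfl ?_
  have := gg_anti hs h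
  linarith

lemma Phi_zero {s : ℝ} (hs : 1 ≤ s) : Phi s = 0 := by
  unfold Phi
  exact max_eq_left (by have := gg_lt hs; linarith)

/-- the truncation -/
noncomputable def PE (η s : ℝ) : ℝ := Phi (max s η)

lemma PE_anti {η : ℝ} (hη : 0 < η) : Antitone (PE η) := by
  intro s s' h
  unfold PE
  exact Phi_anti (lt_of_lt_of_le hη (le_max_right _ _)) (max_le_max h le_rfl)

lemma PE_nonneg (η s : ℝ) : 0 ≤ PE η s := Phi_nonneg _

lemma PE_le {η : ℝ} (hη : 0 < η) (s : ℝ) : PE η s ≤ Phi η := by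
  unfold PE
  exact Phi_anti hη (le_max_right _ _)

lemma PE_zero {η s : ℝ} (hs : 1 ≤ s) : PE η s = 0 := by
  unfold PE
  exact Phi_zero (hs.trans (le_max_left _ _))

lemma PE_eq {η s : ℝ} (hs : η ≤ s) : PE η s = Phi s := by
  unfold PE
  rw [max_eq_left hs]

lemma PE_small {η s : ℝ} (hs : s ≤ η) : PE η s = Phi η := by
  unfold PE
  rw [max_eq_right hs]

/-- the Riemann sum over an arithmetic progression -/
theorem riem {η : ℝ} (hη : 0 < η) {Q r : ℕ} (hQ : 0 < Q) (hrQ : r ≤ Q) {x : ℝ} (hx : 0 < x)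
    {n : ℕ} (hn : x ≤ n) :
    |∑ k ∈ range n, PE η (((r : ℝ) + Q * k) / x) - x / Q * ∫ s in (0 : ℝ)..1, PE η s| ≤
      2 * Phi η := by
  have hQ0 : (0 : ℝ) < Q := by exact_mod_cast hQ
  have hQ1 : (1 : ℝ) ≤ Q := by exact_mod_cast hQ
  have hB := Phi_nonneg η
  set f : ℝ → ℝ := fun t => PE η (((r : ℝ) + Q * t) / x) with hf
  have hfanti : Antitone f := by
    intro t t' h
    refine PE_anti hη ?_
    refine div_le_div_of_nonneg_right ?_ hx.le
    have := mul_le_mul_of_nonneg_left h hQ0.le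
    linarith
  have h1 := AntitoneOn.integral_le_sum (x₀ := 0) (a := n) (f := f) (hfanti.antitoneOn _)
  have h2 := AntitoneOn.sum_le_integral (x₀ := 0) (a := n) (f := f) (hfanti.antitoneOn _)
  simp only [zero_add] at h1 h2
  have h3 : ∑ i ∈ range n, f i ≤ f 0 + ∑ i ∈ range n, f ((i + 1 : ℕ) : ℝ) := by
    have e := Finset.sum_range_succ' (fun i : ℕ => f (i : ℝ)) n
    have e' := Finset.sum_range_succ (fun i : ℕ => f (i : ℝ)) n
    rw [e'] at e
    have hfn : 0 ≤ f (n : ℝ) := PE_nonneg _ _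
    simp only [Nat.cast_zero] at e
    linarith
  have hf0 : f 0 ≤ Phi η := PE_le hη _
  -- the integral
  have hint : ∫ t in (0 : ℝ)..n, f t =
      x / Q * ∫ s in ((r : ℝ) / x)..(((r : ℝ) + Q * n) / x), PE η s := by
    have e := intervalIntegral.integral_comp_mul_add (a := (0 : ℝ)) (b := (n : ℝ)) (PE η)
      (c := (Q : ℝ) / x) (by positivity) ((r : ℝ) / x)
    have e1 : (fun t : ℝ => PE η ((Q : ℝ) / x * t + (r : ℝ) / x)) = f := by
      funext t
      rw [hf]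
      simp only
      congr 1
      field_simp
      ring
    rw [← e1]
    rw [e, smul_eq_mul]
    congr 1
    · rw [inv_div]
    · congr 1
      · simp
      · field_simp
        ring
  have hii : ∀ a b : ℝ, IntervalIntegrable (PE η) MeasureTheory.volume a b :=
    fun a b => (PE_anti hη).intervalIntegrable
  obtain ⟨α, hα⟩ : ∃ α : ℝ, α = (r : ℝ) / x := ⟨_, rfl⟩
  obtain ⟨β, hβ⟩ : ∃ β : ℝ, β = ((r : ℝ) + Q * n) / x := ⟨_, rfl⟩
  rw [← hα, ← hβ] at hint
  have hα0 : 0 ≤ α := by rw [hα]; positivity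
  have hβ1 : 1 ≤ β := by
    rw [hβ, le_div_iff₀ hx, one_mul]
    have : (n : ℝ) ≤ Q * n := by
      have : (0 : ℝ) ≤ n := Nat.cast_nonneg _
      nlinarith
    have : (0 : ℝ) ≤ r := Nat.cast_nonneg _
    linarith
  have hsplit : ∫ s in α..β, PE η s = (∫ s in (0 : ℝ)..1, PE η s) - (∫ s in (0 : ℝ)..α, PE η s) +
      ∫ s in (1 : ℝ)..β, PE η s := by
    have e1 := intervalIntegral.integral_add_adjacent_intervals (hii 0 α) (hii α β)
    have e2 := intervalIntegral.integral_add_adjacent_intervals (hii 0 1) (hii 1 β)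
    linarith
  have hz : ∫ s in (1 : ℝ)..β, PE η s = 0 := by
    rw [intervalIntegral.integral_congr (g := fun _ => (0 : ℝ))]
    · simp
    · intro s hs
      rw [Set.uIcc_of_le hβ1] at hs
      exact PE_zero hs.1
  have hα2 : 0 ≤ ∫ s in (0 : ℝ)..α, PE η s :=
    intervalIntegral.integral_nonneg hα0 fun s _ => PE_nonneg _ _
  have hα3 : ∫ s in (0 : ℝ)..α, PE η s ≤ Phi η * α := by
    have : ∫ s in (0 : ℝ)..α, PE η s ≤ ∫ _ in (0 : ℝ)..α, Phi η :=
      intervalIntegral.integral_mono_on hα0 (hii 0 α) (by simp) fun s _ => PE_le hη s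
    simpa [mul_comm] using this
  have hα4 : x / Q * (Phi η * α) ≤ Phi η := by
    rw [hα]
    have : x / Q * (Phi η * ((r : ℝ) / x)) = Phi η * ((r : ℝ) / Q) := by
      field_simp
    rw [this]
    have h5 : (r : ℝ) / Q ≤ 1 := by
      rw [div_le_one hQ0]
      exact_mod_cast hrQ
    nlinarith
  have hxQ : 0 < x / Q := by positivity
  obtain ⟨I, hI⟩ : ∃ I : ℝ, I = ∫ s in (0 : ℝ)..1, PE η s := ⟨_, rfl⟩
  obtain ⟨I2, hI2⟩ : ∃ I2 : ℝ, I2 = ∫ s in (0 : ℝ)..α, PE η s := ⟨_, rfl⟩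
  rw [← hI2] at hα2 hα3 hsplit
  rw [← hI] at hsplit ⊢
  rw [hz, add_zero] at hsplit
  rw [hint, hsplit] at h1 h2
  have h6 : x / Q * I2 ≤ Phi η := (mul_le_mul_of_nonneg_left hα3 hxQ.le).trans hα4
  have h7 : 0 ≤ x / Q * I2 := by positivity
  have h8 : x / Q * (I - I2) = x / Q * I - x / Q * I2 := by ring
  rw [h8] at h1 h2
  rw [abs_le]
  constructor
  · linarith
  · linarith

/-- the number of the integers of a residue class below `n` -/
lemma count_class {Q : ℕ} (hQ : 0 < Q) (s n : ℕ) :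
    |(((range n).filter (fun b => b % Q = s % Q)).card : ℝ) - (n : ℝ) / Q| ≤ 1 := by
  have hQ0 : (0 : ℝ) < Q := by exact_mod_cast hQ
  have h1 : ((range n).filter (fun b => b % Q = s % Q)).card =
      n / Q + if s % Q < n % Q then 1 else 0 := by
    rw [← Nat.count_modEq_card n hQ s, Nat.count_eq_card_filter_range]
    rfl
  rw [h1]
  have h2 : ((n / Q : ℕ) : ℝ) ≤ (n : ℝ) / Q := Nat.cast_div_le
  have h3 : (n : ℝ) / Q < ((n / Q : ℕ) : ℝ) + 1 := by
    rw [div_lt_iff₀ hQ0]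
    have := Nat.lt_div_mul_add (a := n) hQ
    have h4 : (n : ℝ) < ((n / Q : ℕ) : ℝ) * Q + Q := by exact_mod_cast this
    linarith
  push_cast
  split_ifs
  · rw [abs_le]
    constructor <;> linarith
  · rw [abs_le]
    constructor <;> linarith

end Pool.Agent.TH498.AR
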